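import Mathlib

/-!
# Cocycle actions on II₁ factors and the class `VC`

The definitions used by the statement of
`Pool.Agent.Results.MP_07e70b_an.FiniteIndex.result`.
-/

set_option autoImplicit false
set_option linter.unusedSectionVars false

open Filter Topology
open scoped ComplexOrder InnerProductSpace

universe u v

namespace Pool.Agent.Results.MP_07e70b_an.FiniteIndex

/-! ## Cocycle actions -/

section Cocycle

variable {Γ : Type v} [Group Γ] {A : Type u} [Ring A] [StarRing A] [Algebra ℂ A]

/-- `α g ∘ α h = Ad (u g h) ∘ α (g * h)`. -/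
def AutRel (α : Γ → (A ≃⋆ₐ[ℂ] A)) (u : Γ → Γ → unitary A) : Prop :=
  ∀ (g h : Γ) (x : A), α g (α h x) = (u g h : A) * α (g * h) x * star (u g h : A)

/-- `u g h * u (g * h) k = α g (u h k) * u g (h * k)`. -/
def CocycleRel (α : Γ → (A ≃⋆ₐ[ℂ] A)) (u : Γ → Γ → unitary A) : Prop :=
  ∀ g h k : Γ, (u g h : A) * (u (g * h) k : A) = α g (u h k : A) * (u g (h * k) : A)

/-- A cocycle action `(aut, cocycle)` of the group `Γ` on the `*`-algebra `A`: maps
`aut : Γ → Aut A` and `cocycle : Γ → Γ → U(A)` with
`aut g ∘ aut h = Ad (cocycle g h) ∘ aut (g * h)`,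
`cocycle g h * cocycle (g * h) k = aut g (cocycle h k) * cocycle g (h * k)` and
`cocycle g 1 = cocycle 1 g = 1`. -/
structure CocycleAction (Γ : Type v) [Group Γ] (A : Type u) [Ring A] [StarRing A]
    [Algebra ℂ A] where
  aut : Γ → (A ≃⋆ₐ[ℂ] A)
  cocycle : Γ → Γ → unitary A
  aut_rel : AutRel aut cocycle
  cocycle_rel : CocycleRel aut cocycle
  cocycle_right_one : ∀ g : Γ, (cocycle g 1 : A) = 1
  cocycle_left_one : ∀ g : Γ, (cocycle 1 g : A) = 1

/-- The cocycle action can be perturbed to a genuine action: there are unitaries `w g` with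
`w g * aut g (w h) * cocycle g h * (w (g * h))^* = 1` for all `g, h`. -/
def Untwists (c : CocycleAction Γ A) : Prop :=
  ∃ w : Γ → unitary A, ∀ g h : Γ,
    (w g : A) * c.aut g (w h : A) * (c.cocycle g h : A) * star (w (g * h) : A) = 1

end Cocycle

/-! ## II₁ factors -/

/-- `τ` is a faithful tracial state of the `*`-algebra `A`. -/
structure IsFaithfulTracialState {A : Type u} [Ring A] [StarRing A] [Algebra ℂ A]
    (τ : A →ₗ[ℂ] ℂ) : Prop where
  map_one : τ 1 = 1
  nonneg : ∀ x : A, 0 ≤ τ (star x * x)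
  faithful : ∀ x : A, τ (star x * x) = 0 → x = 0
  comm : ∀ x y : A, τ (x * y) = τ (y * x)

section VN

variable {H : Type u} [NormedAddCommGroup H] [InnerProductSpace ℂ H] [CompleteSpace H]

/-- The elements of the von Neumann algebra `N`, as a type. -/
def Alg (N : VonNeumannAlgebra H) : Type u := N.toStarSubalgebra

/-- The ring structure of `N`. -/
noncomputable instance instRingAlg (N : VonNeumannAlgebra H) : Ring (Alg N) :=
  (inferInstance : Ring N.toStarSubalgebra)

/-- The `*`-ring structure of `N`. -/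
noncomputable instance instStarRingAlg (N : VonNeumannAlgebra H) : StarRing (Alg N) :=
  (inferInstance : StarRing N.toStarSubalgebra)

/-- The `ℂ`-algebra structure of `N`. -/
noncomputable instance instAlgebraAlg (N : VonNeumannAlgebra H) : Algebra ℂ (Alg N) :=
  (inferInstance : Algebra ℂ N.toStarSubalgebra)

/-- The operator given by an element of `N`. -/
def Alg.val {N : VonNeumannAlgebra H} (x : Alg N) : H →L[ℂ] H := Subtype.val x

/-- `τ` is normal: it is a countable sum of vector functionals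
`x ↦ ⟪ξ n, x (ξ n)⟫` with `∑ ‖ξ n‖ ^ 2 < ∞`. -/
def IsNormalState {N : VonNeumannAlgebra H} (τ : Alg N →ₗ[ℂ] ℂ) : Prop :=
  ∃ ξ : ℕ → H, Summable (fun n => ‖ξ n‖ ^ 2) ∧
    ∀ x : Alg N, HasSum (fun n => inner ℂ (ξ n) (x.val (ξ n))) (τ x)

/-- The von Neumann algebra `N` is a II₁ factor: its center is `ℂ`, it has a faithful normal
tracial state and it has no minimal projection. -/
structure IsII1Factor (N : VonNeumannAlgebra H) : Prop where
  center : ∀ z : Alg N, (∀ x : Alg N, z * x = x * z) → ∃ c : ℂ, z = algebraMap ℂ (Alg N) c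
  trace : ∃ τ : Alg N →ₗ[ℂ] ℂ, IsFaithfulTracialState τ ∧ IsNormalState τ
  diffuse : ∀ p : Alg N, IsStarProjection p → p ≠ 0 →
    ∃ q : Alg N, IsStarProjection q ∧ q * p = q ∧ q ≠ 0 ∧ q ≠ p

end VN

/-- `Γ` belongs to the class `VC`: every cocycle action of `Γ` on every II₁ factor can be
perturbed to a genuine action. -/
def VC (Γ : Type v) [Group Γ] : Prop :=
  ∀ (H : Type u) [NormedAddCommGroup H] [InnerProductSpace ℂ H] [CompleteSpace H]
    (N : VonNeumannAlgebra H), IsII1Factor N →
    ∀ c : CocycleAction Γ (Alg N), Untwists c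

end Pool.Agent.Results.MP_07e70b_an.FiniteIndex
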