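import Pool.Agent.Helper28.VC.Proof

/-!
# Cocycle actions as group extensions
-/

set_option autoImplicit false
set_option linter.unusedSectionVars false
open Filter Topology
open scoped ComplexOrder InnerProductSpace
universe u v w

namespace Pool.Agent.Results.MP_07e70b_an.FiniteIndex

/-- An extension of `Γ` by the unitary group of `A`, acting on `A`. -/
structure Ext (Γ : Type v) [Group Γ] (A : Type u) [Ring A] [StarRing A] [Algebra ℂ A]
    (E : Type w) [Group E] where
  pr : E →* Γ
  act : E →* (A ≃⋆ₐ[ℂ] A)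
  inc : unitary A →* E
  pr_surj : Function.Surjective pr
  inc_inj : Function.Injective inc
  pr_inc : ∀ x, pr (inc x) = 1
  exists_inc : ∀ g, pr g = 1 → ∃ x, inc x = g
  act_inc : ∀ (x : unitary A) (a : A), act (inc x) a = (x : A) * a * star (x : A)
  conj : ∀ (g : E) (x : unitary A), g * inc x * g⁻¹ = inc (autU (act g) x)

/-- The extension splits. -/
def Ext.Splits {Γ : Type v} [Group Γ] {A : Type u} [Ring A] [StarRing A] [Algebra ℂ A]
    {E : Type w} [Group E] (X : Ext Γ A E) : Prop := ∃ s : Γ →* E, ∀ γ, X.pr (s γ) = γ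

section ExtOfCocycle

variable {Γ : Type v} [Group Γ] {A : Type u} [Ring A] [StarRing A] [Algebra ℂ A]

/-- The extension group of a cocycle action. -/
@[ext] structure EGrp (c : CocycleAction Γ A) where
  fst : unitary A
  snd : Γ

theorem autU_one' (c : CocycleAction Γ A) (x : unitary A) : autU (c.aut 1) x = x := by
  ext; exact c.aut_one _

noncomputable instance EGrp.instMul (c : CocycleAction Γ A) : Mul (EGrp c) :=
  ⟨fun x y => ⟨x.fst * autU (c.aut x.snd) y.fst * c.cocycle x.snd y.snd, x.snd * y.snd⟩⟩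

noncomputable instance EGrp.instOne (c : CocycleAction Γ A) : One (EGrp c) := ⟨⟨1, 1⟩⟩

noncomputable instance EGrp.instInv (c : CocycleAction Γ A) : Inv (EGrp c) :=
  ⟨fun x => ⟨(c.cocycle x.snd⁻¹ x.snd)⁻¹ * (autU (c.aut x.snd⁻¹) x.fst)⁻¹, x.snd⁻¹⟩⟩

theorem EGrp.mul_def (c : CocycleAction Γ A) (x y : EGrp c) :
    x * y = ⟨x.fst * autU (c.aut x.snd) y.fst * c.cocycle x.snd y.snd, x.snd * y.snd⟩ := rfl

theorem EGrp.one_def (c : CocycleAction Γ A) : (1 : EGrp c) = ⟨1, 1⟩ := rfl

theorem EGrp.inv_def (c : CocycleAction Γ A) (x : EGrp c) :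
    x⁻¹ = ⟨(c.cocycle x.snd⁻¹ x.snd)⁻¹ * (autU (c.aut x.snd⁻¹) x.fst)⁻¹, x.snd⁻¹⟩ := rfl

theorem cocycle_right_one' (c : CocycleAction Γ A) (g : Γ) : c.cocycle g 1 = 1 :=
  Subtype.ext (c.cocycle_right_one g)

theorem cocycle_left_one' (c : CocycleAction Γ A) (g : Γ) : c.cocycle 1 g = 1 :=
  Subtype.ext (c.cocycle_left_one g)

noncomputable instance EGrp.instGroup (c : CocycleAction Γ A) : Group (EGrp c) :=
  Group.ofLeftAxioms
    (by
      intro x y z
      rw [EGrp.mul_def, EGrp.mul_def, EGrp.mul_def, EGrp.mul_def]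
      simp only [EGrp.mk.injEq]
      refine ⟨?_, mul_assoc _ _ _⟩
      have e1 : autU (c.aut x.snd) (c.cocycle y.snd z.snd) =
          c.cocycle x.snd y.snd * c.cocycle (x.snd * y.snd) z.snd *
            (c.cocycle x.snd (y.snd * z.snd))⁻¹ := by
        rw [c.grp2]; group
      simp only [map_mul, c.grp1, e1]
      group)
    (by
      intro x
      rw [EGrp.mul_def, EGrp.one_def]
      simp only [autU_one', cocycle_left_one', one_mul, mul_one])
    (by
      intro x
      rw [EGrp.mul_def, EGrp.inv_def, EGrp.one_def]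
      simp only [EGrp.mk.injEq, inv_mul_cancel, and_true]
      group)

/-- The automorphism `Ad x ∘ α g`. -/
noncomputable def EGrp.actHom (c : CocycleAction Γ A) : EGrp c →* (A ≃⋆ₐ[ℂ] A) where
  toFun x := Unitary.conjStarAlgAut ℂ A x.fst * c.aut x.snd
  map_one' := by
    ext a
    show ((1 : unitary A) : A) * c.aut 1 a * star ((1 : unitary A) : A) = a
    rw [c.aut_one]; simp
  map_mul' x y := by
    ext a
    show ((x.fst * autU (c.aut x.snd) y.fst * c.cocycle x.snd y.snd : unitary A) : A) *
        c.aut (x.snd * y.snd) a *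
        star ((x.fst * autU (c.aut x.snd) y.fst * c.cocycle x.snd y.snd : unitary A) : A) =
      (x.fst : A) * c.aut x.snd ((y.fst : A) * c.aut y.snd a * star (y.fst : A)) *
        star (x.fst : A)
    rw [map_mul, map_mul, c.aut_aut, map_star]
    simp only [Submonoid.coe_mul, autU_coe, star_mul, mul_assoc]

/-- The extension of a cocycle action. -/
noncomputable def toExt (c : CocycleAction Γ A) : Ext Γ A (EGrp c) where
  pr := { toFun := fun x => x.snd, map_one' := rfl, map_mul' := fun _ _ => rfl }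
  act := EGrp.actHom c
  inc :=
    { toFun := fun x => ⟨x, 1⟩
      map_one' := rfl
      map_mul' := fun x y => by
        rw [EGrp.mul_def]
        simp only [autU_one', cocycle_left_one', mul_one] }
  pr_surj γ := ⟨⟨1, γ⟩, rfl⟩
  inc_inj x y h := congrArg EGrp.fst h
  pr_inc x := rfl
  exists_inc g hg := ⟨g.fst, by
    have : g.snd = 1 := hg
    ext
    · rfl
    · exact this.symm⟩
  act_inc x a := by
    show (x : A) * c.aut 1 a * star (x : A) = _
    rw [c.aut_one]
  conj g x := by
    rw [mul_inv_eq_iff_eq_mul]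
    show g * (⟨x, 1⟩ : EGrp c) = ⟨autU (EGrp.actHom c g) x, 1⟩ * g
    rw [EGrp.mul_def, EGrp.mul_def]
    simp only [EGrp.mk.injEq, mul_one, one_mul, and_true, autU_one', cocycle_left_one',
      cocycle_right_one']
    have : autU (EGrp.actHom c g) x = g.fst * autU (c.aut g.snd) x * (g.fst)⁻¹ := by
      ext
      rw [← Unitary.star_eq_inv]
      rfl
    rw [this]
    group

theorem untwists_of_splits (c : CocycleAction Γ A) (h : (toExt c).Splits) : Untwists c := by
  obtain ⟨s, hs⟩ := h
  refine ⟨fun g => (s g).fst, fun g h => ?_⟩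
  have hsnd : ∀ g, (s g).snd = g := hs
  have h1 := congrArg EGrp.fst (s.map_mul g h)
  rw [EGrp.mul_def] at h1
  simp only [hsnd] at h1
  have h2 := congrArg (Subtype.val) h1
  simp only [Submonoid.coe_mul, autU_coe] at h2
  rw [← h2]
  exact Unitary.mul_star_self_of_mem (s (g * h)).fst.2

end ExtOfCocycle

section CocycleOfExt

variable {Γ : Type v} [Group Γ] {A : Type u} [Ring A] [StarRing A] [Algebra ℂ A]
variable {E : Type w} [Group E]

/-- The cocycle of a section. -/
theorem Ext.exists_cocycle (X : Ext Γ A E) (σ : Γ → E) (hσ : ∀ γ, X.pr (σ γ) = γ) (g h : Γ) :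
    ∃ x, X.inc x = σ g * σ h * (σ (g * h))⁻¹ := by
  apply X.exists_inc
  rw [map_mul, map_mul, map_inv, hσ, hσ, hσ]
  group

/-- The cocycle action of a section. -/
noncomputable def Ext.toCocycle (X : Ext Γ A E) (σ : Γ → E) (hσ : ∀ γ, X.pr (σ γ) = γ)
    (h1 : σ 1 = 1) : CocycleAction Γ A where
  aut g := X.act (σ g)
  cocycle g h := Classical.choose (X.exists_cocycle σ hσ g h)
  aut_rel g h x := by
    have hx := Classical.choose_spec (X.exists_cocycle σ hσ g h)
    set y := Classical.choose (X.exists_cocycle σ hσ g h)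
    have e1 : X.act (σ g) (X.act (σ h) x) = X.act (σ g * σ h) x := by
      rw [map_mul]; rfl
    have e2 : σ g * σ h = X.inc y * σ (g * h) := by rw [hx]; group
    rw [e1, e2, map_mul]
    exact X.act_inc y _
  cocycle_rel g h k := by
    have h1 := Classical.choose_spec (X.exists_cocycle σ hσ g h)
    have h2 := Classical.choose_spec (X.exists_cocycle σ hσ (g * h) k)
    have h3 := Classical.choose_spec (X.exists_cocycle σ hσ h k)
    have h4 := Classical.choose_spec (X.exists_cocycle σ hσ g (h * k))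
    set y1 := Classical.choose (X.exists_cocycle σ hσ g h)
    set y2 := Classical.choose (X.exists_cocycle σ hσ (g * h) k)
    set y3 := Classical.choose (X.exists_cocycle σ hσ h k)
    set y4 := Classical.choose (X.exists_cocycle σ hσ g (h * k))
    have key : y1 * y2 = autU (X.act (σ g)) y3 * y4 := by
      apply X.inc_inj
      rw [map_mul, map_mul, ← X.conj, h1, h2, h3, h4, mul_assoc g h k]
      group
    exact congrArg Subtype.val key
  cocycle_right_one g := by
    have h1' := Classical.choose_spec (X.exists_cocycle σ hσ g 1)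
    have : Classical.choose (X.exists_cocycle σ hσ g 1) = 1 := by
      apply X.inc_inj
      rw [h1', h1, mul_one, mul_one, mul_inv_cancel, map_one]
    rw [this]; rfl
  cocycle_left_one g := by
    have h1' := Classical.choose_spec (X.exists_cocycle σ hσ 1 g)
    have : Classical.choose (X.exists_cocycle σ hσ 1 g) = 1 := by
      apply X.inc_inj
      rw [h1', h1, one_mul, one_mul, mul_inv_cancel, map_one]
    rw [this]; rfl

theorem Ext.inc_cocycle (X : Ext Γ A E) (σ : Γ → E) (hσ : ∀ γ, X.pr (σ γ) = γ)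
    (h1 : σ 1 = 1) (g h : Γ) :
    X.inc ((X.toCocycle σ hσ h1).cocycle g h) = σ g * σ h * (σ (g * h))⁻¹ :=
  Classical.choose_spec (X.exists_cocycle σ hσ g h)

theorem Ext.splits_of_untwists (X : Ext Γ A E) (σ : Γ → E) (hσ : ∀ γ, X.pr (σ γ) = γ)
    (h1 : σ 1 = 1) (h : Untwists (X.toCocycle σ hσ h1)) : X.Splits := by
  obtain ⟨w, hw⟩ := h
  have key : ∀ g h, w g * autU (X.act (σ g)) (w h) * (X.toCocycle σ hσ h1).cocycle g h =
      w (g * h) := by
    intro g h
    have h2 : w g * autU (X.act (σ g)) (w h) * (X.toCocycle σ hσ h1).cocycle g h *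
        (w (g * h))⁻¹ = 1 := by
      ext
      rw [← Unitary.star_eq_inv]
      exact hw g h
    exact mul_inv_eq_one.1 h2
  refine ⟨MonoidHom.mk' (fun g => X.inc (w g) * σ g) (fun g h => ?_), fun g => ?_⟩
  · rw [← key, map_mul, map_mul, X.inc_cocycle, ← X.conj]
    group
  · show X.pr (X.inc (w g) * σ g) = g
    rw [map_mul, X.pr_inc, hσ, one_mul]

theorem Ext.exists_section (X : Ext Γ A E) (p : E → Prop) (hp1 : p 1)
    (hp : ∀ γ, ∃ g, X.pr g = γ ∧ p g) :
    ∃ σ : Γ → E, (∀ γ, X.pr (σ γ) = γ) ∧ σ 1 = 1 ∧ ∀ γ, p (σ γ) := by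
  classical
  choose f hf1 hf2 using hp
  refine ⟨fun γ => if γ = 1 then 1 else f γ, fun γ => ?_, by simp, fun γ => ?_⟩
  · by_cases h : γ = 1
    · subst h; simp
    · simp [h, hf1]
  · by_cases h : γ = 1
    · subst h; simpa using hp1
    · simpa [h] using hf2 γ

end CocycleOfExt

/-- Over a group in `VC` every extension by a II₁ factor splits. -/
theorem VC.splits {Γ : Type v} [Group Γ] (hΓ : VC.{u} Γ)
    {H : Type u} [NormedAddCommGroup H] [InnerProductSpace ℂ H] [CompleteSpace H]
    {N : VonNeumannAlgebra H} (hN : IsII1Factor N) {E : Type w} [Group E]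
    (X : Ext Γ (Alg N) E) : X.Splits := by
  obtain ⟨σ, hσ, h1, -⟩ := X.exists_section (fun _ => True) trivial
    (fun γ => by obtain ⟨g, hg⟩ := X.pr_surj γ; exact ⟨g, hg, trivial⟩)
  exact X.splits_of_untwists σ hσ h1 (hΓ H N hN _)

/-- A group is in `VC` if every extension by a II₁ factor splits. -/
theorem VC.of_splits {Γ : Type v} [Group Γ]
    (h : ∀ (H : Type u) [NormedAddCommGroup H] [InnerProductSpace ℂ H] [CompleteSpace H]
      (N : VonNeumannAlgebra H), IsII1Factor N → ∀ (E : Type (max u v)) [Group E]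
      (X : Ext Γ (Alg N) E), X.Splits) : VC.{u} Γ := by
  intro H _ _ _ N hN c
  exact untwists_of_splits c (h H N hN _ (toExt c))

end Pool.Agent.Results.MP_07e70b_an.FiniteIndex
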