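import Pool.Agent.Helper28.VC.Ext9

/-!
# The fixed point algebra is a II₁ factor
-/

set_option autoImplicit false
set_option linter.unusedSectionVars false
open Filter Topology
open scoped ComplexOrder InnerProductSpace
universe u v w

namespace Pool.Agent.Results.MP_07e70b_an.FiniteIndex

section Part

variable {A : Type u} [Ring A] [StarRing A] [Algebra ℂ A] [StarModule ℂ A]
variable {I : Type*} [Fintype I] {f : I → A}

theorem part_mul [DecidableEq I] (hf : ∀ k, IsStarProjection (f k))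
    (hort : ∀ k l, k ≠ l → f k * f l = 0)
    (a b : I → ℂ) : (∑ k, a k • f k) * (∑ k, b k • f k) = ∑ k, (a k * b k) • f k := by
  rw [Finset.sum_mul_sum]
  refine Finset.sum_congr rfl fun k _ => ?_
  rw [Finset.sum_eq_single k]
  · rw [smul_mul_smul_comm, (hf k).isIdempotentElem.eq]
  · intro l _ hl
    rw [smul_mul_smul_comm, hort k l (Ne.symm hl), smul_zero]
  · intro h; exact absurd (Finset.mem_univ _) h

theorem part_mul_single [DecidableEq I] (hf : ∀ k, IsStarProjection (f k))
    (hort : ∀ k l, k ≠ l → f k * f l = 0) (i : I) : f i * ∑ k, f k = f i := by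
  rw [Finset.mul_sum, Finset.sum_eq_single i]
  · exact (hf i).isIdempotentElem.eq
  · intro l _ hl; exact hort _ _ (Ne.symm hl)
  · intro h; exact absurd (Finset.mem_univ _) h

theorem exists_outerData (β : A ≃⋆ₐ[ℂ] A) {p : ℕ} [hp : Fact p.Prime]
    (hβ : ∀ x, (⇑β)^[p] x = x) {f : ZMod p → A} (hf : ∀ k, IsStarProjection (f k))
    (hort : ∀ k l, k ≠ l → f k * f l = 0) (hsum : ∑ k, f k = 1)
    (hact : ∀ k, β (f k) = f (k + 1)) : ∃ ω v, OuterData β p ω v := by
  classical
  set ζ : ℂ := Complex.exp (2 * Real.pi * Complex.I / p) with hζ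
  have hprim : IsPrimitiveRoot ζ p := Complex.isPrimitiveRoot_exp p hp.out.ne_zero
  have hζ0 : ζ ≠ 0 := hprim.ne_zero hp.out.ne_zero
  let χ : ZMod p → ℂ := fun k => ζ ^ k.val
  have hχ : ∀ k, χ (k + 1) = ζ * χ k := by
    intro k
    show ζ ^ (k + 1).val = ζ * ζ ^ k.val
    rw [← pow_succ', ZMod.val_add, ← pow_eq_pow_mod _ hprim.pow_eq_one]
    have h1 : (1 : ZMod p).val = 1 := ZMod.val_one p
    rw [h1]
  have hχn : ∀ k, star (χ k) * χ k = 1 := by
    intro k
    have h1 : ‖χ k‖ = 1 := by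
      show ‖ζ ^ k.val‖ = 1
      rw [norm_pow, hprim.norm'_eq_one hp.out.ne_zero, one_pow]
    rw [mul_comm]
    show χ k * (starRingEnd ℂ) (χ k) = 1
    rw [Complex.mul_conj, Complex.normSq_eq_norm_sq, h1]; norm_num
  have hstar : star (∑ k, χ k • f k) = ∑ k, star (χ k) • f k := by
    rw [star_sum]
    refine Finset.sum_congr rfl fun k _ => ?_
    rw [star_smul, (hf k).isSelfAdjoint.star_eq]
  have hpow : ∀ n : ℕ, (∑ k, χ k • f k) ^ n = ∑ k, (χ k ^ n) • f k := by
    intro n
    induction n with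
    | zero => simp [hsum]
    | succ n ih => rw [pow_succ, ih, part_mul hf hort]; simp only [pow_succ]
  refine ⟨ζ⁻¹, ∑ k, χ k • f k, hp.out, hprim.inv, hβ, ?_, ?_, ?_, ?_⟩
  · rw [hstar, part_mul hf hort]
    simp only [hχn, one_smul, hsum]
  · rw [hstar, part_mul hf hort]
    simp only [mul_comm (χ _), hχn, one_smul, hsum]
  · rw [hpow]
    have h1 : ∀ k, χ k ^ p = 1 := by
      intro k
      show (ζ ^ k.val) ^ p = 1
      rw [← pow_mul, mul_comm, pow_mul, hprim.pow_eq_one, one_pow]
    simp only [h1, one_smul, hsum]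
  · rw [map_sum, Finset.smul_sum, ← Equiv.sum_comp (Equiv.addRight (1 : ZMod p))
      (fun k => ζ⁻¹ • χ k • f k)]
    refine Finset.sum_congr rfl fun k _ => ?_
    show β (χ k • f k) = ζ⁻¹ • χ (k + 1) • f (k + 1)
    rw [map_smul, hact, hχ, smul_smul, ← mul_assoc, inv_mul_cancel₀ hζ0, one_mul]

end Part

section FixedFactor

variable {H : Type u} [NormedAddCommGroup H] [InnerProductSpace ℂ H] [CompleteSpace H]

theorem isII1Factor_fixed {M N : VonNeumannAlgebra H} (hN : IsII1Factor N)
    (h : M.toStarSubalgebra ≤ N.toStarSubalgebra)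
    (β : Alg N ≃⋆ₐ[ℂ] Alg N) {p : ℕ} [hp : Fact p.Prime]
    (hβ : ∀ x, (⇑β)^[p] x = x) (hM : ∀ x : Alg N, β x = x ↔ ∃ b, incl h b = x)
    {f : ZMod p → Alg N} (hf : ∀ k, IsStarProjection (f k))
    (hort : ∀ k l, k ≠ l → f k * f l = 0) (hsum : ∑ k, f k = 1)
    (hact : ∀ k, β (f k) = f (k + 1))
    (hout : ¬ ∃ k : unitary (Alg N), ∀ a, β a = (k : Alg N) * a * star (k : Alg N)) :
    IsII1Factor M := by
  classical
  obtain ⟨ω, v, hD⟩ := exists_outerData β hβ hf hort hsum hact
  obtain ⟨τ, hτ, hn⟩ := hN.trace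
  obtain ⟨ξ, hξ, hsumξ⟩ := id hn
  have hι : Function.Injective (incl h) := incl_injective h
  have hτM : IsFaithfulTracialState (τ.comp (incl h).toAlgHom.toLinearMap) := by
    refine ⟨?_, ?_, ?_, ?_⟩
    · show τ (incl h 1) = 1
      rw [map_one, hτ.map_one]
    · intro x
      show 0 ≤ τ (incl h (star x * x))
      rw [map_mul, map_star]
      exact hτ.nonneg _
    · intro x hx
      apply hι
      rw [map_zero]
      apply hτ.faithful
      rw [← map_star, ← map_mul]
      exact hx
    · intro x y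
      show τ (incl h (x * y)) = τ (incl h (y * x))
      rw [map_mul (incl h), map_mul (incl h), hτ.comm]
  have hcenter : ∀ z : Alg M, (∀ x : Alg M, z * x = x * z) →
      ∃ c : ℂ, z = algebraMap ℂ (Alg M) c := by
    intro z hz
    obtain ⟨c, hc⟩ := hD.scalar hτ hN.center hout (incl h z) ((hM _).2 ⟨z, rfl⟩) (by
      intro m hm
      obtain ⟨b, rfl⟩ := (hM m).1 hm
      rw [← map_mul, hz, map_mul])
    refine ⟨c, ?_⟩
    apply hι
    rw [hc]
    rfl
  refine ⟨hcenter, ⟨_, hτM, ξ, hξ, fun x => hsumξ (incl h x)⟩, ?_⟩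
  intro q hq hq0
  set q' : Alg N := incl h q with hq'
  have hq'p : IsStarProjection q' := by
    refine ⟨?_, ?_⟩
    · show q' * q' = q'
      rw [hq', ← map_mul, hq.isIdempotentElem.eq]
    · show star q' = q'
      rw [hq', ← map_star, hq.isSelfAdjoint.star_eq]
  have hq'0 : q' ≠ 0 := by
    intro h0
    apply hq0
    apply hι
    rw [map_zero]; exact h0
  have hτq : 0 < (τ q').re := by
    have h1 := hτ.proj_nonneg hq'p
    rw [Complex.le_def] at h1
    exact lt_of_le_of_ne h1.1 (fun h2 => hq'0 (hτ.proj_eq_zero hq'p h2.symm))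
  -- `f 0` is nonzero
  have hβτ : ∀ x, τ (β x) = τ x := fun x => by
    have hd : HasContinuousDimension τ :=
      ⟨fun p q hp hq h => mvn_of_trace_eq hN.center hτ hp hq h,
        exists_sub_of_trace hτ hn hN.diffuse⟩
    exact trace_aut hτ hd β x
  have hτf : ∀ k, τ (f (k + 1)) = τ (f k) := fun k => by rw [← hact, hβτ]
  have hpp : (0 : ℝ) < p := by exact_mod_cast hp.out.pos
  have hf0 : f 0 ≠ 0 := by
    intro h0
    have h1 : ∀ n : ℕ, f (n : ZMod p) = 0 := by
      intro n
      induction n with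
      | zero => rw [Nat.cast_zero]; exact h0
      | succ n ih => rw [Nat.cast_succ, ← hact, ih, map_zero]
    have h2 : ∑ k, f k = 0 := Finset.sum_eq_zero fun k _ => by
      rw [← ZMod.natCast_zmod_val k]; exact h1 _
    rw [hsum] at h2
    have h3 := hτ.map_one
    rw [h2, map_zero] at h3
    exact zero_ne_one h3
  obtain ⟨n, hn'⟩ : ∃ n : ℕ, (p : ℝ) * ((τ (f 0)).re / 2 ^ n) < (τ q').re := by
    have h1 : Tendsto (fun n : ℕ => (p : ℝ) * ((τ (f 0)).re / 2 ^ n)) atTop (𝓝 0) := by
      have h2 : Tendsto (fun n : ℕ => ((1 / 2 : ℝ)) ^ n) atTop (𝓝 0) :=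
        tendsto_pow_atTop_nhds_zero_of_lt_one (by norm_num) (by norm_num)
      have h3 := h2.const_mul ((p : ℝ) * (τ (f 0)).re)
      rw [mul_zero] at h3
      refine h3.congr fun n => ?_
      rw [one_div, inv_pow]; ring
    exact (h1.eventually_lt_const hτq).exists
  obtain ⟨r, hr, hrf, hr0, hrt⟩ := exists_small (τ := τ) hN.diffuse n (f 0) (hf 0) hf0
  -- translates
  let R : ZMod p → Alg N := fun k => (⇑β)^[k.val] r
  have hpw : ∀ (n : ℕ) a, (⇑β)^[n] a = (β ^ n) a := by
    intro n a
    induction n with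
    | zero => rw [pow_zero]; rfl
    | succ n ih => rw [Function.iterate_succ_apply', ih, pow_succ']; rfl
  have hRp : ∀ k, IsStarProjection (R k) := by
    intro k
    refine ⟨?_, ?_⟩
    · show (⇑β)^[k.val] r * (⇑β)^[k.val] r = (⇑β)^[k.val] r
      rw [hpw, ← map_mul, hr.isIdempotentElem.eq]
    · show star ((⇑β)^[k.val] r) = (⇑β)^[k.val] r
      rw [hpw, ← map_star, hr.isSelfAdjoint.star_eq]
  have hfn : ∀ n : ℕ, (β ^ n) (f 0) = f n := by
    intro n
    induction n with
    | zero => rw [pow_zero, Nat.cast_zero]; rfl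
    | succ n ih =>
      rw [pow_succ']
      show β ((β ^ n) (f 0)) = _
      rw [ih, hact, Nat.cast_succ]
  have hRf : ∀ k, R k * f k = R k := by
    intro k
    show (⇑β)^[k.val] r * f k = (⇑β)^[k.val] r
    have h1 : f k = (β ^ k.val) (f 0) := by rw [hfn, ZMod.natCast_zmod_val]
    rw [hpw, h1, ← map_mul, hrf]
  have hRf' : ∀ k, f k * R k = R k := by
    intro k
    have := congrArg star (hRf k)
    rwa [star_mul, (hRp k).isSelfAdjoint.star_eq, (hf k).isSelfAdjoint.star_eq] at this
  have hRort : ∀ k l, k ≠ l → R k * R l = 0 := by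
    intro k l hkl
    rw [← hRf k, ← hRf' l, mul_assoc, ← mul_assoc (f k), hort k l hkl, zero_mul, mul_zero]
  have hRact : ∀ k, β (R k) = R (k + 1) := by
    intro k
    show β ((⇑β)^[k.val] r) = (⇑β)^[(k + 1).val] r
    have h1 : (1 : ZMod p).val = 1 := ZMod.val_one p
    rw [← Function.iterate_succ_apply' (⇑β), ZMod.val_add, h1]
    have h2 : ∀ (m : ℕ) x, (⇑β)^[p * m] x = x := by
      intro m x
      induction m generalizing x with
      | zero => rfl
      | succ m ih => rw [Nat.mul_succ, Function.iterate_add_apply, hβ, ih]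
    conv_lhs => rw [Nat.succ_eq_add_one, ← Nat.mod_add_div (k.val + 1) p,
      Function.iterate_add_apply, h2]
  let y : Alg N := ∑ k, R k
  have hyβ : β y = y := by
    show β (∑ k, R k) = ∑ k, R k
    rw [map_sum, ← Equiv.sum_comp (Equiv.addRight (1 : ZMod p)) (fun k => R k)]
    exact Finset.sum_congr rfl fun k _ => hRact k
  have hyp : IsStarProjection y := by
    refine ⟨?_, ?_⟩
    · show (∑ k, R k) * (∑ k, R k) = ∑ k, R k
      have := part_mul hRp hRort (fun _ => (1 : ℂ)) (fun _ => (1 : ℂ))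
      simpa using this
    · show star (∑ k, R k) = ∑ k, R k
      rw [star_sum]
      exact Finset.sum_congr rfl fun k _ => (hRp k).isSelfAdjoint.star_eq
  have hτR : ∀ k, τ (R k) = τ r := by
    intro k
    have h1 : ∀ n : ℕ, τ ((⇑β)^[n] r) = τ r := by
      intro n
      induction n with
      | zero => rfl
      | succ n ih => rw [Function.iterate_succ_apply', hβτ, ih]
    exact h1 _
  have hτy : (τ y).re < (τ q').re := by
    have h1 : τ y = (p : ℂ) * τ r := by
      show τ (∑ k, R k) = _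
      rw [map_sum]
      simp only [hτR]
      rw [Finset.sum_const, Finset.card_univ, ZMod.card, nsmul_eq_mul]
    have h2 : (τ y).re = (p : ℝ) * (τ r).re := by
      rw [h1]
      have : ((p : ℝ) : ℂ) = (p : ℂ) := by norm_cast
      rw [← this, Complex.re_ofReal_mul]
    rw [h2]
    exact lt_of_le_of_lt (mul_le_mul_of_nonneg_left hrt hpp.le) hn'
  have hy0 : y ≠ 0 := by
    intro h0
    have h1 : R 0 * y = R 0 := by
      show R 0 * ∑ k, R k = R 0
      exact part_mul_single hRp hRort 0
    rw [h0, mul_zero] at h1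
    have h2 : R 0 = r := by
      show (⇑β)^[(0 : ZMod p).val] r = r
      rw [ZMod.val_zero]; rfl
    exact hr0 (by rw [← h2, ← h1])
  obtain ⟨yM, hyM⟩ := (hM y).1 hyβ
  have hyMp : IsStarProjection yM := by
    refine ⟨?_, ?_⟩
    · apply hι
      rw [map_mul, hyM]; exact hyp.isIdempotentElem.eq
    · apply hι
      rw [map_star, hyM]; exact hyp.isSelfAdjoint.star_eq
  have hyM0 : yM ≠ 0 := by
    intro h0
    apply hy0
    rw [← hyM, h0, map_zero]
  obtain ⟨⟨w, hw1, hw2, hw3⟩, hw0⟩ := exists_pIso_ne_zero hcenter hyMp hyM0 hq hq0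
  have hw0 : w ≠ 0 := hw0
  obtain ⟨hp1, hp2⟩ := proj_of_partialIsometry hw1
  refine ⟨w * star w, hp2, ?_, ?_, ?_⟩
  · have h1 : star w * q = star w := by
      have := congrArg star hw3
      rwa [star_mul, hq.isSelfAdjoint.star_eq] at this
    rw [mul_assoc, h1]
  · intro h0
    apply hw0
    rw [← hw1, h0, zero_mul]
  · intro h0
    have h1 : (τ (incl h (star w * w))).re ≤ (τ y).re := by
      have := hτM.proj_mono hp1 hyMp (by
        have := congrArg star hw2
        rw [star_mul, hyMp.isSelfAdjoint.star_eq] at this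
        rw [← mul_assoc, this])
      have h2 : τ (incl h yM) = τ y := by rw [hyM]
      rw [← h2]
      exact this
    have h2 : τ (incl h (star w * w)) = τ q' := by
      rw [hq', ← h0]
      exact hτM.comm _ _
    rw [h2] at h1
    linarith

end FixedFactor

end Pool.Agent.Results.MP_07e70b_an.FiniteIndex
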