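import Pool.Agent.Helper28.VC.Ext10

/-!
# The outer case, and the key step
-/

set_option autoImplicit false
set_option linter.unusedSectionVars false
open Filter Topology
open scoped ComplexOrder InnerProductSpace
universe u v w

namespace Pool.Agent.Results.MP_07e70b_an.FiniteIndex

section OuterCase

variable {H : Type u} [NormedAddCommGroup H] [InnerProductSpace ℂ H] [CompleteSpace H]
variable {N : VonNeumannAlgebra H}
variable {Γ : Type v} [Group Γ] {E : Type w} [Group E]

theorem Ext.act_pow_iterate {A : Type u} [Ring A] [StarRing A] [Algebra ℂ A]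
    (X : Ext Γ A E) (s : E) (n : ℕ) (x : A) :
    (⇑(X.act s))^[n] x = X.act (s ^ n) x := by
  induction n with
  | zero => rw [pow_zero, map_one]; rfl
  | succ n ih => rw [Function.iterate_succ_apply', ih, pow_succ', map_mul]; rfl

/-- The case in which no lift of the central element `c` of prime order acts by an inner
automorphism. -/
theorem Ext.splits_outer (hN : IsII1Factor N) (X : Ext Γ (Alg N) E) {p : ℕ} [hp : Fact p.Prime]
    {c : Γ} (hcen : ∀ γ : Γ, γ * c = c * γ) (hord : orderOf c = p)
    (C : Subgroup Γ) [C.Normal] (hC : C = Subgroup.zpowers c) (hQ : VC.{u} (Γ ⧸ C))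
    (hout : ∀ g, X.pr g = c →
      ¬ ∃ k : unitary (Alg N), ∀ a, X.act g a = (k : Alg N) * a * star (k : Alg N)) :
    X.Splits := by
  classical
  have hcp : c ^ p = 1 := by rw [← hord]; exact pow_orderOf_eq_one c
  obtain ⟨τ, hτ, hn⟩ := hN.trace
  have hd : HasContinuousDimension τ :=
    ⟨fun p q hp hq h => mvn_of_trace_eq hN.center hτ hp hq h,
      exists_sub_of_trace hτ hn hN.diffuse⟩
  obtain ⟨e, he⟩ := exists_matrixUnits hτ hd (ZMod p)
  obtain ⟨g0, hg0, hfix0⟩ := X.exists_lift_fix hτ hd he c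
  obtain ⟨s, hs, hsp, hact⟩ := X.exists_regular_lift hcp he g0 hg0 hfix0
  let f : ZMod p → Alg N := fun k => e k k
  have hf : ∀ k, IsStarProjection (f k) := fun k => he.proj k
  have hort : ∀ k l, k ≠ l → f k * f l = 0 := fun k l hkl => he.mul_ne _ _ _ _ hkl
  have hsum : ∑ k, f k = 1 := he.sum_eq
  have hiter : ∀ x, (⇑(X.act s))^[p] x = x := by
    intro x
    rw [X.act_pow_iterate, hsp, map_one]; rfl
  obtain ⟨M, hMmem⟩ := exists_fixedVN hτ hn (X.act s) (trace_aut hτ hd (X.act s))
    hp.out.pos hiter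
  have hle : M.toStarSubalgebra ≤ N.toStarSubalgebra := by
    intro x hx
    exact ((hMmem x).1 hx).1
  have hι : Function.Injective (incl hle) := incl_injective hle
  have hM : ∀ x : Alg N, X.act s x = x ↔ ∃ b, incl hle b = x := by
    intro x
    constructor
    · intro hx
      have h1 : x.val ∈ M := (hMmem x.val).2 ⟨x.2, hx⟩
      exact ⟨Alg.mk x.val h1, Alg.val_injective rfl⟩
    · rintro ⟨b, rfl⟩
      obtain ⟨h1, h2⟩ := (hMmem b.val).1 b.2
      exact h2
  have hMf : IsII1Factor M := isII1Factor_fixed hN hle (X.act s) hiter hM hf hort hsum hact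
    (hout s hs)
  let E₁ : Subgroup E :=
    { carrier := {g | g * s = s * g}
      one_mem' := by show (1 : E) * s = s * 1; group
      mul_mem' := by
        intro a b ha hb
        show a * b * s = s * (a * b)
        have ha' : a * s = s * a := ha
        have hb' : b * s = s * b := hb
        rw [mul_assoc, hb', ← mul_assoc, ha', mul_assoc]
      inv_mem' := by
        intro a ha
        show a⁻¹ * s = s * a⁻¹
        have ha' : a * s = s * a := ha
        rw [inv_mul_eq_iff_eq_mul, ← mul_assoc, ha', mul_assoc, mul_inv_cancel, mul_one] }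
  have hE : ∀ g, g ∈ E₁ ↔ g * s = s * g := fun g => Iff.rfl
  have hτact : ∀ g x, τ (X.act g x) = τ x := fun g x => trace_aut hτ hd (X.act g) x
  have hsurj : Function.Surjective (X.pr.comp E₁.subtype) := by
    intro γ
    obtain ⟨g, hg⟩ := X.pr_surj γ
    let s' : E := g * s * g⁻¹
    have hs' : X.pr s' = c := by
      show X.pr (g * s * g⁻¹) = c
      rw [map_mul, map_mul, map_inv, hs, hg, hcen]; group
    have hsp' : s' ^ p = 1 := by
      show (g * s * g⁻¹) ^ p = 1
      rw [conj_pow, hsp]; group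
    let f' : ZMod p → Alg N := fun k => X.act g (f k)
    have hf' : ∀ k, IsStarProjection (f' k) := by
      intro k
      refine ⟨?_, ?_⟩
      · show X.act g (f k) * X.act g (f k) = X.act g (f k)
        rw [← map_mul, (hf k).isIdempotentElem.eq]
      · show star (X.act g (f k)) = X.act g (f k)
        rw [← map_star, (hf k).isSelfAdjoint.star_eq]
    have hort' : ∀ k l, k ≠ l → f' k * f' l = 0 := by
      intro k l hkl
      show X.act g (f k) * X.act g (f l) = 0
      rw [← map_mul, hort k l hkl, map_zero]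
    have hsum' : ∑ k, f' k = 1 := by
      show ∑ k, X.act g (f k) = 1
      rw [← map_sum, hsum, map_one]
    have hact' : ∀ k, X.act s' (f' k) = f' (k + 1) := by
      intro k
      show X.act (g * s * g⁻¹) (X.act g (f k)) = X.act g (f (k + 1))
      have h1 : X.act (g * s * g⁻¹) (X.act g (f k)) = X.act (g * s * g⁻¹ * g) (f k) := by
        rw [map_mul X.act (g * s * g⁻¹) g]; rfl
      have h2 : g * s * g⁻¹ * g = g * s := by group
      rw [h1, h2, map_mul]
      show X.act g (X.act s (f k)) = _
      rw [hact]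
    obtain ⟨y, hy1, hy2⟩ := hd.equiv_of_eq (f' 0) (f 0) (hf' 0) (hf 0) (hτact g (f 0))
    obtain ⟨V, hV⟩ := X.conj_lifts s s' (by rw [hs, hs']) hsp hsp' hf hf' hort hort' hsum hsum'
      hact hact' y hy1 hy2 (hτ.mul_left_eq (hf 0) hy2) (hτ.mul_right_eq (hf' 0) hy1)
    have h1 : (X.inc V * g) * s * (X.inc V * g)⁻¹ = s := by
      refine Eq.trans ?_ hV
      show X.inc V * g * s * (X.inc V * g)⁻¹ = X.inc V * (g * s * g⁻¹) * (X.inc V)⁻¹
      group
    refine ⟨⟨X.inc V * g, (hE _).2 (mul_inv_eq_iff_eq_mul.1 h1)⟩, ?_⟩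
    show X.pr (X.inc V * g) = γ
    rw [map_mul, X.pr_inc, hg, one_mul]
  obtain ⟨Y, hY1, hY2, hY3⟩ := X.exists_restrict (incl hle) hι E₁ (MonoidHom.id Γ)
    Function.injective_id (X.pr.comp E₁.subtype) (fun g => rfl) hsurj
    (by
      intro g hg b
      have h1 : X.act s (X.act g (incl hle b)) = X.act g (incl hle b) := by
        have h2 : X.act s (X.act g (incl hle b)) = X.act (s * g) (incl hle b) := by
          rw [map_mul X.act]; rfl
        have h3 : X.act (g * s) (incl hle b) = X.act g (X.act s (incl hle b)) := by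
          rw [map_mul X.act]; rfl
        rw [h2, ← (hE g).1 hg, h3, (hM _).2 ⟨b, rfl⟩]
      exact (hM _).1 h1)
    (by
      intro x
      rw [hE, ← hM]
      have h1 := X.conj s x
      constructor
      · intro h
        have h2 : X.inc (autU (X.act s) x) = X.inc x := by
          rw [← h1, ← h]; group
        exact congrArg Subtype.val (X.inc_inj h2)
      · intro h
        have h2 : autU (X.act s) x = x := Subtype.ext h
        rw [h2] at h1
        exact (mul_inv_eq_iff_eq_mul.1 h1).symm)
  let s₁ : E₁ := ⟨s, rfl⟩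
  have hprs : Y.pr s₁ = c := by rw [hY1]; exact hs
  have hact1 : Y.act s₁ = 1 := by
    ext b
    apply hι
    rw [hY2]
    exact (hM _).2 ⟨b, rfl⟩
  have hsc : ∀ g' : E₁, g' * s₁ = s₁ * g' := fun g' => Subtype.ext g'.2
  have hinj : ∀ k : ℤ, Y.pr (s₁ ^ k) = 1 → s₁ ^ k = 1 := by
    intro k hk
    rw [map_zpow, hprs, ← orderOf_dvd_iff_zpow_eq_one, hord] at hk
    obtain ⟨m, rfl⟩ := hk
    apply Subtype.ext
    show s ^ ((p : ℤ) * m) = 1
    rw [zpow_mul, zpow_natCast, hsp, one_zpow]
  have hnorm : (Subgroup.zpowers s₁).Normal := zpowers_normal_of_central s₁ hsc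
  obtain ⟨t, ht⟩ := Y.splits_of_central s₁ hact1 hinj C (by rw [hprs]; exact hC)
    (Subgroup.zpowers s₁) rfl (fun Y' => hQ.splits hMf Y')
  refine ⟨E₁.subtype.comp t, fun γ => ?_⟩
  have := ht γ
  rw [hY1] at this
  exact this

/-- The key step: quotients by a central subgroup of prime order. -/
theorem Ext.splits_of_prime (hN : IsII1Factor N) (X : Ext Γ (Alg N) E) {p : ℕ}
    (hp : p.Prime)
    {c : Γ} (hcen : ∀ γ : Γ, γ * c = c * γ) (hord : orderOf c = p)
    (C : Subgroup Γ) [C.Normal] (hC : C = Subgroup.zpowers c) (hQ : HVC.{u} (Γ ⧸ C)) :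
    X.Splits := by
  by_cases hin : ∃ g, X.pr g = c ∧
      ∃ k : unitary (Alg N), ∀ a, X.act g a = (k : Alg N) * a * star (k : Alg N)
  · obtain ⟨g, hg, k, hk⟩ := hin
    exact X.splits_inner hN hp hcen hord C hC hQ g hg k hk
  · push Not at hin
    have : Fact p.Prime := ⟨hp⟩
    refine X.splits_outer hN hcen hord C hC hQ.vc (fun g hg => ?_)
    rintro ⟨k, hk⟩
    obtain ⟨a, ha⟩ := hin g hg k
    exact ha (hk a)

end OuterCase

end Pool.Agent.Results.MP_07e70b_an.FiniteIndex
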