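import Pool.Agent.Helper28.VC.Ext11

/-!
# Group theory: from a central subgroup of prime order to a finite normal subgroup
-/

set_option autoImplicit false
set_option linter.unusedSectionVars false
open Filter Topology
open scoped ComplexOrder InnerProductSpace
universe u v w

namespace Pool.Agent.Results.MP_07e70b_an.FiniteIndex

/-- If a subgroup `Λ` of finite index of `Γ` belongs to `VC`, then `Γ` belongs to `VC`. -/
theorem vc_of_finiteIndex {Γ : Type v} [Group Γ] (Λ : Subgroup Γ) [Λ.FiniteIndex] (h : VC.{u} Λ) :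
    VC.{u} Γ := by
  classical
  intro H _ _ _ N hN c
  let _ : Fintype (Γ ⧸ Λ) := Subgroup.fintypeQuotientOfFiniteIndex
  obtain ⟨τ, hτ, hd⟩ := hN.alg.trace
  obtain ⟨e, he⟩ := exists_matrixUnits hτ hd (Γ ⧸ Λ)
  -- perturb so that the matrix units are fixed
  have hv : ∀ g : Γ, ∃ v : unitary (Alg N), (g = 1 → v = 1) ∧
      ∀ i j, (v : Alg N) * c.aut g (e i j) * star (v : Alg N) = e i j := by
    intro g
    by_cases hg : g = 1
    · subst hg
      refine ⟨1, fun _ => rfl, fun i j => ?_⟩
      rw [c.aut_one]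
      simp
    · obtain ⟨v, hv⟩ := exists_conj hτ hd he (c.aut g)
      exact ⟨v, fun h => absurd h hg, hv⟩
  choose v hv1 hv2 using hv
  apply c.untwists_of_perturb v (hv1 1 rfl)
  have hfix : ∀ g q r, (c.perturb v (hv1 1 rfl)).aut g (e q r) = e q r := fun g q r => hv2 g q r
  -- the relative commutant
  let X : Set (H →L[ℂ] H) := {x | ∃ i j, x = (e i j).val}
  have hX : ∀ x ∈ X, star x ∈ X := by
    rintro x ⟨i, j, rfl⟩
    exact ⟨j, i, by rw [← he.star_eq i j]; rfl⟩
  let P : VonNeumannAlgebra H := relComm N X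
  have hPN : P.toStarSubalgebra ≤ N.toStarSubalgebra := by
    intro z hz
    exact ((mem_relComm N X hX z).1 hz).1
  have hc : ∀ b i j, incl hPN b * e i j = e i j * incl hPN b := by
    intro b i j
    apply Alg.val_injective
    exact ((mem_relComm N X hX b.val).1 b.2).2 _ ⟨i, j, rfl⟩
  have hr : ∀ x : Alg N, (∀ i j, x * e i j = e i j * x) → ∃ b, incl hPN b = x := by
    intro x hx
    refine ⟨⟨x.val, (mem_relComm N X hX x.val).2 ⟨x.2, ?_⟩⟩, rfl⟩
    rintro y ⟨i, j, rfl⟩
    exact congrArg Alg.val (hx i j)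
  have hP : IsII1Factor P := isII1Factor_relComm hN hPN he hc hr
  obtain ⟨s, hs, hs'⟩ := exists_splitting Λ (c.perturb v (hv1 1 rfl)) hfix (incl hPN)
    (incl_injective hPN) hc hr (fun cB => h H P hP cB)
  exact core Λ e he _ hfix s hs hs'

theorem range_finiteIndex' {G G' : Type v} [Group G] [Group G'] (φ : G →* G')
    (hφ : Function.Surjective φ) (Λ : Subgroup G) [Λ.FiniteIndex] :
    ((φ.comp Λ.subtype).range).FiniteIndex := by
  rw [MonoidHom.range_comp, Subgroup.range_subtype]
  refine ⟨?_⟩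
  rw [Subgroup.index_map]
  refine mul_ne_zero ?_ ?_
  · exact (Subgroup.finiteIndex_of_le (le_sup_left : Λ ≤ Λ ⊔ φ.ker)).index_ne_zero
  · rw [MonoidHom.range_eq_top.2 hφ, Subgroup.index_top]
    exact one_ne_zero

/-- The case of a central finite subgroup. -/
theorem vc_of_central (n : ℕ) : ∀ (Γ : Type v) [Group Γ] (F : Subgroup Γ) [F.Normal],
    Finite F → (∀ x ∈ F, ∀ γ : Γ, γ * x = x * γ) → Nat.card F ≤ n → HVC.{u} (Γ ⧸ F) →
    VC.{u} Γ := by
  induction n with
  | zero =>
    intro Γ _ F _ hfin _ hn _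
    exact absurd hn (not_le.2 Nat.card_pos)
  | succ n ih =>
    intro Γ _ F _ hfin hcen hn h
    by_cases hF : F = ⊥
    · subst hF
      exact h.vc.congr QuotientGroup.quotientBot
    · have hcard : Nat.card F ≠ 1 := fun h1 => hF (Subgroup.card_eq_one.1 h1)
      obtain ⟨p, hp, hpd⟩ := Nat.exists_prime_and_dvd hcard
      have : Fact p.Prime := ⟨hp⟩
      obtain ⟨c0, hc0⟩ := exists_prime_orderOf_dvd_card' p hpd
      have hord : orderOf (c0 : Γ) = p := by rw [Subgroup.orderOf_coe]; exact hc0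
      have hcc : ∀ γ : Γ, γ * (c0 : Γ) = (c0 : Γ) * γ := hcen _ c0.2
      let C : Subgroup Γ := Subgroup.zpowers (c0 : Γ)
      have hCn : C.Normal := zpowers_normal_of_central _ hcc
      have hCF : C ≤ F := by
        show Subgroup.zpowers (c0 : Γ) ≤ F
        rw [Subgroup.zpowers_le]; exact c0.2
      have hHVC : HVC.{u} (Γ ⧸ C) := by
        intro Δ hΔ
        let θ0 : Γ ⧸ C →* Γ ⧸ F := QuotientGroup.map C F (MonoidHom.id Γ) hCF
        have hθ0 : Function.Surjective θ0 := by
          intro y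
          obtain ⟨y, rfl⟩ := QuotientGroup.mk_surjective y
          exact ⟨(y : Γ ⧸ C), rfl⟩
        let θ : Δ →* Γ ⧸ F := θ0.comp Δ.subtype
        have hrange : θ.range.FiniteIndex := range_finiteIndex' θ0 hθ0 Δ
        let φ : F → θ0.ker := fun f => ⟨((f : Γ) : Γ ⧸ C), by
          rw [MonoidHom.mem_ker]
          show (((f : Γ) : Γ) : Γ ⧸ F) = 1
          rw [QuotientGroup.eq_one_iff]; exact f.2⟩
        have hφs : Function.Surjective φ := by
          rintro ⟨y, hy⟩
          obtain ⟨y, rfl⟩ := QuotientGroup.mk_surjective y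
          rw [MonoidHom.mem_ker] at hy
          have hy' : ((y : Γ) : Γ ⧸ F) = 1 := hy
          rw [QuotientGroup.eq_one_iff] at hy'
          exact ⟨⟨y, hy'⟩, rfl⟩
        have hφi : ¬ Function.Injective φ := by
          intro hi
          have h1 : φ c0 = φ 1 := by
            apply Subtype.ext
            show ((c0 : Γ) : Γ ⧸ C) = (((1 : F) : Γ) : Γ ⧸ C)
            rw [Subgroup.coe_one, QuotientGroup.mk_one, QuotientGroup.eq_one_iff]
            exact Subgroup.mem_zpowers _
          have h2 := hi h1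
          rw [h2, orderOf_one] at hc0
          exact hp.one_lt.ne hc0
        have hfin0 : Finite θ0.ker := Finite.of_surjective φ hφs
        have hlt : Nat.card θ0.ker < Nat.card F := by
          have := Fintype.ofFinite F
          have := Fintype.ofFinite θ0.ker
          rw [Nat.card_eq_fintype_card, Nat.card_eq_fintype_card]
          exact Fintype.card_lt_of_surjective_not_injective φ hφs hφi
        let ψ : θ.ker → θ0.ker := fun x => ⟨(x : Δ), x.2⟩
        have hψ : Function.Injective ψ := by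
          intro x y hxy
          exact Subtype.ext (Subtype.ext (congrArg (fun t : θ0.ker => (t : Γ ⧸ C)) hxy))
        have hfinK : Finite θ.ker := Finite.of_injective ψ hψ
        have hleK : Nat.card θ.ker ≤ Nat.card θ0.ker := Nat.card_le_card_of_injective ψ hψ
        refine ih Δ θ.ker hfinK ?_ (by omega) (h.quot_of_hom θ hrange θ.ker rfl)
        intro x hx γ
        apply Subtype.ext
        show (γ : Γ ⧸ C) * (x : Γ ⧸ C) = (x : Γ ⧸ C) * (γ : Γ ⧸ C)
        obtain ⟨f, hf⟩ := hφs (ψ ⟨x, hx⟩)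
        have hfx : ((f : Γ) : Γ ⧸ C) = (x : Γ ⧸ C) :=
          congrArg (fun t : θ0.ker => (t : Γ ⧸ C)) hf
        obtain ⟨g, hg⟩ := QuotientGroup.mk_surjective (γ : Γ ⧸ C)
        rw [← hfx, ← hg]
        show ((g * (f : Γ) : Γ) : Γ ⧸ C) = (((f : Γ) * g : Γ) : Γ ⧸ C)
        rw [hcen f f.2 g]
      apply VC.of_splits
      intro H _ _ _ N hN E _ X
      exact X.splits_of_prime hN hp hcc hord C rfl hHVC

/-- Finite normal subgroups. -/
theorem vc_of_finite_kernel {Γ : Type v} [Group Γ] (F : Subgroup Γ) [F.Normal] [Finite F]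
    (h : HVC.{u} (Γ ⧸ F)) : VC.{u} Γ := by
  let Z : Subgroup Γ := Subgroup.centralizer (F : Set Γ)
  have hZ : Z.FiniteIndex := by
    have h1 : (MulAut.conjNormal : Γ →* MulAut F).ker.FiniteIndex := Subgroup.finiteIndex_ker _
    refine Subgroup.finiteIndex_of_le (H := (MulAut.conjNormal : Γ →* MulAut F).ker) ?_
    intro g hg
    rw [MonoidHom.mem_ker] at hg
    show g ∈ Subgroup.centralizer (F : Set Γ)
    rw [Subgroup.mem_centralizer_iff]
    intro x hx
    have h2 := congrArg (fun f : MulAut F => ((f ⟨x, hx⟩ : F) : Γ)) hg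
    have h3 : g * x * g⁻¹ = x := by
      have h4 : ((MulAut.conjNormal g ⟨x, hx⟩ : F) : Γ) = g * x * g⁻¹ :=
        MulAut.conjNormal_apply g ⟨x, hx⟩
      rw [← h4]; exact h2
    exact (mul_inv_eq_iff_eq_mul.1 h3).symm
  let θ : Z →* Γ ⧸ F := (QuotientGroup.mk' F).comp Z.subtype
  have hrange : θ.range.FiniteIndex := range_finiteIndex' _ (QuotientGroup.mk'_surjective F) Z
  have hmem : ∀ x : θ.ker, ((x : Z) : Γ) ∈ F := by
    intro x
    have h1 : (((x : Z) : Γ) : Γ ⧸ F) = 1 := x.2
    rwa [QuotientGroup.eq_one_iff] at h1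
  have hfinK : Finite θ.ker := by
    let ψ : θ.ker → F := fun x => ⟨((x : Z) : Γ), hmem x⟩
    refine Finite.of_injective ψ fun x y hxy => ?_
    exact Subtype.ext (Subtype.ext (congrArg (fun t : F => (t : Γ)) hxy))
  have hVC : VC.{u} Z := by
    refine vc_of_central (Nat.card θ.ker) Z θ.ker hfinK (fun x hx γ => ?_) le_rfl
      (h.quot_of_hom θ hrange θ.ker rfl)
    apply Subtype.ext
    show (γ : Γ) * (x : Γ) = (x : Γ) * (γ : Γ)
    have h1 := Subgroup.mem_centralizer_iff.1 γ.2 (x : Γ) (hmem ⟨x, hx⟩)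
    exact h1.symm
  exact vc_of_finiteIndex Z hVC

end Pool.Agent.Results.MP_07e70b_an.FiniteIndex
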