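import Pool.Agent.Helper28.VC.Ext

/-!
# Restriction of an extension, and division by a central subgroup that acts trivially
-/

set_option autoImplicit false
set_option linter.unusedSectionVars false
open Filter Topology
open scoped ComplexOrder InnerProductSpace
universe u v w

namespace Pool.Agent.Results.MP_07e70b_an.FiniteIndex

section RestrictExt

variable {A : Type u} [Ring A] [StarRing A] [Algebra ℂ A]
variable {B : Type u} [Ring B] [StarRing B] [Algebra ℂ B]

/-- The homomorphism on unitaries given by a `*`-homomorphism. -/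
def mapU (ι : B →⋆ₐ[ℂ] A) : unitary B →* unitary A where
  toFun x := ⟨ι x, by
    rw [Unitary.mem_iff, ← map_star, ← map_mul, ← map_mul,
      Unitary.star_mul_self_of_mem x.2, Unitary.mul_star_self_of_mem x.2, map_one]
    exact ⟨rfl, rfl⟩⟩
  map_one' := by ext; simp
  map_mul' x y := by ext; simp

theorem mapU_coe (ι : B →⋆ₐ[ℂ] A) (x : unitary B) : (mapU ι x : A) = ι x := rfl

theorem exists_restrict' (ι : B →⋆ₐ[ℂ] A) (hι : Function.Injective ι) (f : A ≃⋆ₐ[ℂ] A)
    (h1 : ∀ b, ∃ b', ι b' = f (ι b)) (h2 : ∀ b, ∃ b', ι b' = f.symm (ι b)) :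
    ∃ f' : B ≃⋆ₐ[ℂ] B, ∀ b, ι (f' b) = f (ι b) := by
  choose F hF using h1
  choose G hG using h2
  let φ : B →⋆ₐ[ℂ] B :=
    { toFun := F
      map_one' := by apply hι; rw [hF, map_one, map_one]
      map_mul' := by intro x y; apply hι; rw [hF, map_mul, map_mul, map_mul, hF, hF]
      map_zero' := by apply hι; rw [hF, map_zero, map_zero]
      map_add' := by intro x y; apply hι; rw [hF, map_add, map_add, map_add, hF, hF]
      commutes' := by
        intro r; apply hι; rw [hF]
        have := ι.toAlgHom.commutes r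
        have h3 : ι (algebraMap ℂ B r) = algebraMap ℂ A r := this
        rw [h3, Algebra.algebraMap_eq_smul_one, map_smul, map_one]
      map_star' := by intro x; apply hι; rw [hF, map_star, map_star, map_star, hF] }
  have hφ : Function.Bijective φ := by
    constructor
    · intro x y hxy
      have : F x = F y := hxy
      have h3 := congrArg ι this
      rw [hF, hF] at h3
      exact hι (f.injective h3)
    · intro y
      refine ⟨G y, ?_⟩
      show F (G y) = y
      apply hι
      rw [hF, hG, StarAlgEquiv.apply_symm_apply]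
  exact ⟨StarAlgEquiv.ofBijective φ hφ, fun b => hF b⟩

variable {Γ : Type v} [Group Γ] {E : Type w} [Group E]

/-- Restriction of an extension to a subgroup `E₁` and a subalgebra `B`. -/
theorem Ext.exists_restrict (X : Ext Γ A E) (ι : B →⋆ₐ[ℂ] A) (hι : Function.Injective ι)
    (E₁ : Subgroup E) {Γ₁ : Type v} [Group Γ₁] (κ : Γ₁ →* Γ) (hκ : Function.Injective κ)
    (pr₁ : E₁ →* Γ₁) (hpr : ∀ g, κ (pr₁ g) = X.pr g) (hsurj : Function.Surjective pr₁)
    (hact : ∀ g ∈ E₁, ∀ b, ∃ b', ι b' = X.act g (ι b))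
    (hinc : ∀ x : unitary A, X.inc x ∈ E₁ ↔ ∃ b, ι b = (x : A)) :
    ∃ Y : Ext Γ₁ B E₁, Y.pr = pr₁ ∧ (∀ g b, ι (Y.act g b) = X.act g (ι b)) ∧
      ∀ x, ((Y.inc x : E₁) : E) = X.inc (mapU ι x) := by
  have h1 : ∀ g : E₁, ∃ f' : B ≃⋆ₐ[ℂ] B, ∀ b, ι (f' b) = X.act g (ι b) := by
    intro g
    refine exists_restrict' ι hι (X.act g) (hact g g.2) (fun b => ?_)
    obtain ⟨b', hb'⟩ := hact (g⁻¹ : E₁) (g⁻¹ : E₁).2 b
    refine ⟨b', ?_⟩
    rw [hb']
    have : X.act ((g⁻¹ : E₁) : E) = (X.act g)⁻¹ := by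
      rw [Subgroup.coe_inv, map_inv]
    rw [this]
    rfl
  choose F hF using h1
  have hmem : ∀ x : unitary B, X.inc (mapU ι x) ∈ E₁ := by
    intro x
    rw [hinc]
    exact ⟨x, rfl⟩
  have hkey : ∀ (g : E₁) (x : unitary B), autU (X.act g) (mapU ι x) =
      mapU ι (autU (F g) x) := by
    intro g x
    ext
    exact (hF g x).symm
  let Y : Ext Γ₁ B E₁ :=
    { pr := pr₁
      act :=
        { toFun := F
          map_one' := by
            ext b; apply hι
            rw [hF]
            show X.act ((1 : E₁) : E) (ι b) = ι b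
            rw [Subgroup.coe_one, map_one]; rfl
          map_mul' := by
            intro g h
            ext b; apply hι
            rw [hF]
            show X.act ((g * h : E₁) : E) (ι b) = ι (F g (F h b))
            rw [hF, hF, Subgroup.coe_mul, map_mul]; rfl }
      inc :=
        { toFun := fun x => ⟨X.inc (mapU ι x), hmem x⟩
          map_one' := by ext; simp
          map_mul' := fun x y => by ext; simp }
      pr_surj := hsurj
      inc_inj := by
        intro x y hxy
        have h1 : X.inc (mapU ι x) = X.inc (mapU ι y) :=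
          congrArg Subtype.val hxy
        have h2 := congrArg Subtype.val (X.inc_inj h1)
        exact Subtype.ext (hι h2)
      pr_inc := by
        intro x
        apply hκ
        exact ((hpr _).trans (X.pr_inc _)).trans (map_one κ).symm
      exists_inc := by
        intro g hg
        have h1 : X.pr g = 1 := by rw [← hpr, hg, map_one]
        obtain ⟨x, hx⟩ := X.exists_inc _ h1
        obtain ⟨b, hb⟩ := (hinc x).1 (by rw [hx]; exact g.2)
        have hbu : b ∈ unitary B := by
          rw [Unitary.mem_iff]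
          constructor
          · apply hι
            rw [map_mul, map_star, hb, map_one]
            exact Unitary.star_mul_self_of_mem x.2
          · apply hι
            rw [map_mul, map_star, hb, map_one]
            exact Unitary.mul_star_self_of_mem x.2
        refine ⟨⟨b, hbu⟩, ?_⟩
        ext
        show X.inc (mapU ι ⟨b, hbu⟩) = g
        rw [← hx]
        congr 1
        ext
        exact hb
      act_inc := by
        intro x b
        apply hι
        show ι (F _ b) = ι ((x : B) * b * star (x : B))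
        rw [hF, map_mul, map_mul, map_star]
        exact X.act_inc _ _
      conj := by
        intro g x
        ext
        show (g : E) * X.inc (mapU ι x) * ((g⁻¹ : E₁) : E) = _
        rw [Subgroup.coe_inv, X.conj, hkey]
        rfl }
  exact ⟨Y, rfl, hF, fun x => rfl⟩

end RestrictExt

section CentralQuotient

variable {A : Type u} [Ring A] [StarRing A] [Algebra ℂ A]
variable {Γ : Type v} [Group Γ] {E : Type w} [Group E]

/-- If `s` generates a normal subgroup of `E`, acts trivially and `pr` is injective on the powers of `s`,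
and extensions of `Γ / ⟨pr s⟩` by `A` split, then `E` splits. -/
theorem Ext.splits_of_central (X : Ext Γ A E) (s : E) (hact : X.act s = 1) (hinj : ∀ k : ℤ, X.pr (s ^ k) = 1 → s ^ k = 1)
    (C : Subgroup Γ) [C.Normal] (hC : C = Subgroup.zpowers (X.pr s))
    (Z : Subgroup E) [Z.Normal] (hZ : Z = Subgroup.zpowers s)
    (hsp : ∀ Y : Ext (Γ ⧸ C) A (E ⧸ Z), Y.Splits) : X.Splits := by
  have hZact : ∀ z ∈ Z, X.act z = 1 := by
    intro z hz
    rw [hZ, Subgroup.mem_zpowers_iff] at hz
    obtain ⟨k, rfl⟩ := hz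
    rw [map_zpow, hact, one_zpow]
  have hZpr : ∀ z ∈ Z, X.pr z ∈ C := by
    intro z hz
    rw [hZ, Subgroup.mem_zpowers_iff] at hz
    obtain ⟨k, rfl⟩ := hz
    rw [map_zpow, hC]
    exact Subgroup.zpow_mem_zpowers _ _
  have hZ1 : ∀ z ∈ Z, X.pr z = 1 → z = 1 := by
    intro z hz h
    rw [hZ, Subgroup.mem_zpowers_iff] at hz
    obtain ⟨k, rfl⟩ := hz
    exact hinj k h
  have hCex : ∀ c ∈ C, ∃ z ∈ Z, X.pr z = c := by
    intro c hc
    rw [hC, Subgroup.mem_zpowers_iff] at hc
    obtain ⟨k, rfl⟩ := hc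
    exact ⟨s ^ k, by rw [hZ]; exact Subgroup.zpow_mem_zpowers _ _, map_zpow _ _ _⟩
  let prq : E ⧸ Z →* Γ ⧸ C := QuotientGroup.map Z C X.pr (fun z hz => hZpr z hz)
  let actq : E ⧸ Z →* (A ≃⋆ₐ[ℂ] A) := QuotientGroup.lift Z X.act hZact
  let incq : unitary A →* E ⧸ Z := (QuotientGroup.mk' Z).comp X.inc
  have hprq : ∀ g : E, prq (g : E ⧸ Z) = ((X.pr g : Γ) : Γ ⧸ C) := fun g => rfl
  have hactq : ∀ g : E, actq (g : E ⧸ Z) = X.act g := fun g => rfl
  let Y : Ext (Γ ⧸ C) A (E ⧸ Z) :=
    { pr := prq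
      act := actq
      inc := incq
      pr_surj := by
        intro γ
        obtain ⟨γ, rfl⟩ := QuotientGroup.mk_surjective γ
        obtain ⟨g, rfl⟩ := X.pr_surj γ
        exact ⟨(g : E ⧸ Z), rfl⟩
      inc_inj := by
        intro x y hxy
        have h1 : ((X.inc x : E) : E ⧸ Z) = ((X.inc y : E) : E ⧸ Z) := hxy
        rw [QuotientGroup.eq] at h1
        have h2 : (X.inc x)⁻¹ * X.inc y = 1 := by
          apply hZ1 _ h1
          rw [map_mul, map_inv, X.pr_inc, X.pr_inc, inv_one, one_mul]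
        exact X.inc_inj (inv_mul_eq_one.1 h2)
      pr_inc := by
        intro x
        show ((X.pr (X.inc x) : Γ) : Γ ⧸ C) = 1
        rw [X.pr_inc]; rfl
      exists_inc := by
        intro g hg
        obtain ⟨g, rfl⟩ := QuotientGroup.mk_surjective g
        have h1 : ((X.pr g : Γ) : Γ ⧸ C) = 1 := hg
        rw [QuotientGroup.eq_one_iff] at h1
        obtain ⟨z, hz, hzg⟩ := hCex _ h1
        obtain ⟨x, hx⟩ := X.exists_inc (g * z⁻¹) (by rw [map_mul, map_inv, hzg, mul_inv_cancel])
        refine ⟨x, ?_⟩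
        show ((X.inc x : E) : E ⧸ Z) = (g : E ⧸ Z)
        rw [QuotientGroup.eq, hx]
        have h3 : (g * z⁻¹)⁻¹ * g = z := by group
        rw [h3]; exact hz
      act_inc := fun x a => X.act_inc x a
      conj := by
        intro g x
        obtain ⟨g, rfl⟩ := QuotientGroup.mk_surjective g
        show ((g * X.inc x * g⁻¹ : E) : E ⧸ Z) = ((X.inc (autU (X.act g) x) : E) : E ⧸ Z)
        rw [X.conj] }
  obtain ⟨t, ht⟩ := hsp Y
  have hex : ∀ γ : Γ, ∃ g : E, X.pr g = γ ∧ (g : E ⧸ Z) = t (γ : Γ ⧸ C) := by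
    intro γ
    obtain ⟨g0, hg0⟩ := X.pr_surj γ
    have h1 : Y.pr (t (γ : Γ ⧸ C) * (g0 : E ⧸ Z)⁻¹) = 1 := by
      rw [map_mul, map_inv, ht]
      show ((γ : Γ) : Γ ⧸ C) * ((X.pr g0 : Γ) : Γ ⧸ C)⁻¹ = 1
      rw [hg0, mul_inv_cancel]
    obtain ⟨x, hx⟩ := Y.exists_inc _ h1
    refine ⟨X.inc x * g0, ?_, ?_⟩
    · rw [map_mul, X.pr_inc, hg0, one_mul]
    · have h2 : ((X.inc x : E) : E ⧸ Z) = t (γ : Γ ⧸ C) * (g0 : E ⧸ Z)⁻¹ := hx
      show ((X.inc x : E) : E ⧸ Z) * (g0 : E ⧸ Z) = _
      rw [h2, inv_mul_cancel_right]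
  have huniq : ∀ g g' : E, X.pr g = X.pr g' → (g : E ⧸ Z) = (g' : E ⧸ Z) → g = g' := by
    intro g g' h1 h2
    rw [QuotientGroup.eq] at h2
    have h3 := hZ1 _ h2 (by rw [map_mul, map_inv, h1, inv_mul_cancel])
    exact inv_mul_eq_one.1 h3
  choose f hf1 hf2 using hex
  refine ⟨MonoidHom.mk' f (fun γ δ => huniq _ _ ?_ ?_), hf1⟩
  · rw [map_mul, hf1, hf1, hf1]
  · rw [hf2]
    show t ((γ : Γ ⧸ C) * (δ : Γ ⧸ C)) = ((f γ : E) : E ⧸ Z) * ((f δ : E) : E ⧸ Z)
    rw [map_mul, hf2, hf2]

end CentralQuotient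

end Pool.Agent.Results.MP_07e70b_an.FiniteIndex
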