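import Pool.Agent.Helper28.VC.Ext2

/-!
# The stabiliser of matrix units
-/

set_option autoImplicit false
set_option linter.unusedSectionVars false
open Filter Topology
open scoped ComplexOrder InnerProductSpace
universe u v w

namespace Pool.Agent.Results.MP_07e70b_an.FiniteIndex

section Stab

variable {A : Type u} [Ring A] [StarRing A] [Algebra ℂ A]
variable {Γ : Type v} [Group Γ] {E : Type w} [Group E] {I : Type*}

/-- The elements of `E` over `Λ` that fix the family `e`. -/
def Ext.stab (X : Ext Γ A E) (Λ : Subgroup Γ) (e : I → I → A) : Subgroup E where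
  carrier := {g | X.pr g ∈ Λ ∧ ∀ i j, X.act g (e i j) = e i j}
  mul_mem' := by
    rintro g h ⟨hg, hg'⟩ ⟨hh, hh'⟩
    refine ⟨by rw [map_mul]; exact Λ.mul_mem hg hh, fun i j => ?_⟩
    rw [map_mul]
    show X.act g (X.act h (e i j)) = e i j
    rw [hh', hg']
  one_mem' := ⟨by rw [map_one]; exact Λ.one_mem, fun i j => by rw [map_one]; rfl⟩
  inv_mem' := by
    rintro g ⟨hg, hg'⟩
    refine ⟨by rw [map_inv]; exact Λ.inv_mem hg, fun i j => ?_⟩
    rw [map_inv]
    conv_lhs => rw [← hg' i j]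
    show (X.act g)⁻¹ (X.act g (e i j)) = e i j
    have : ((X.act g)⁻¹ * X.act g) (e i j) = e i j := by rw [inv_mul_cancel]; rfl
    exact this

theorem Ext.mem_stab (X : Ext Γ A E) (Λ : Subgroup Γ) (e : I → I → A) (g : E) :
    g ∈ X.stab Λ e ↔ X.pr g ∈ Λ ∧ ∀ i j, X.act g (e i j) = e i j := Iff.rfl

/-- Every element of `Γ` has a lift that fixes the matrix units. -/
theorem Ext.exists_lift_fix [Fintype I] [Nonempty I] (X : Ext Γ A E) {τ : A →ₗ[ℂ] ℂ}
    (hτ : IsFaithfulTracialState τ) (hd : HasContinuousDimension τ) {e : I → I → A}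
    (he : IsMatrixUnits e) (γ : Γ) : ∃ g, X.pr g = γ ∧ ∀ i j, X.act g (e i j) = e i j := by
  obtain ⟨g, hg⟩ := X.pr_surj γ
  obtain ⟨V, hV⟩ := exists_conj hτ hd he (X.act g)
  refine ⟨X.inc V * g, by rw [map_mul, X.pr_inc, hg, one_mul], fun i j => ?_⟩
  rw [map_mul]
  show X.act (X.inc V) (X.act g (e i j)) = e i j
  rw [X.act_inc]
  exact hV i j

/-- The induction step: a splitting over a subgroup of finite index with values in the
stabiliser of matrix units gives a splitting. -/
theorem Ext.splits_of_stab (X : Ext Γ A E) (Λ : Subgroup Γ) [Fintype (Γ ⧸ Λ)]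
    {τ : A →ₗ[ℂ] ℂ} (hτ : IsFaithfulTracialState τ) (hd : HasContinuousDimension τ)
    {e : Γ ⧸ Λ → Γ ⧸ Λ → A} (he : IsMatrixUnits e)
    (s : Λ →* E) (hs : ∀ x : Λ, X.pr (s x) = x)
    (hse : ∀ (x : Λ) i j, X.act (s x) (e i j) = e i j) : X.Splits := by
  classical
  obtain ⟨σ, hσ, h1, hfix⟩ := X.exists_section (fun g => ∀ i j, X.act g (e i j) = e i j)
    (fun i j => by rw [map_one]; rfl) (X.exists_lift_fix hτ hd he)
  apply X.splits_of_untwists σ hσ h1
  have hex : ∀ x : Λ, ∃ y, X.inc y = s x * (σ x)⁻¹ := fun x => X.exists_inc _ (by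
    rw [map_mul, map_inv, hs, hσ, mul_inv_cancel])
  choose t ht using hex
  refine core Λ e he (X.toCocycle σ hσ h1) (fun g q r => hfix g q r) t ?_ ?_
  · intro x q r
    have h2 : X.act (X.inc (t x)) (e q r) = e q r := by
      rw [ht, map_mul, map_inv]
      show X.act (s x) ((X.act (σ x))⁻¹ (e q r)) = e q r
      have h3 : (X.act (σ x))⁻¹ (e q r) = e q r := by
        conv_lhs => rw [← hfix x q r]
        have : ((X.act (σ x))⁻¹ * X.act (σ x)) (e q r) = e q r := by rw [inv_mul_cancel]; rfl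
        exact this
      rw [h3, hse]
    rw [X.act_inc] at h2
    calc (t x : A) * e q r = (t x : A) * e q r * (star (t x : A) * (t x : A)) := by
          rw [Unitary.star_mul_self_of_mem (t x).2, mul_one]
      _ = (t x : A) * e q r * star (t x : A) * (t x : A) := by rw [← mul_assoc]
      _ = e q r * (t x : A) := by rw [h2]
  · intro x y
    have key : t x * autU (X.act (σ x)) (t y) * (X.toCocycle σ hσ h1).cocycle x y =
        t (x * y) := by
      apply X.inc_inj
      rw [map_mul, map_mul, X.inc_cocycle, ← X.conj, ht, ht, ht, map_mul]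
      rw [Subgroup.coe_mul]
      group
    exact congrArg Subtype.val key

end Stab

section PExt

variable {H : Type u} [NormedAddCommGroup H] [InnerProductSpace ℂ H] [CompleteSpace H]

/-- The relative commutant of matrix units. -/
theorem exists_relComm {N : VonNeumannAlgebra H} (hN : IsII1Factor N) {I : Type*} [Fintype I]
    [Nonempty I] {e : I → I → Alg N} (he : IsMatrixUnits e) :
    ∃ (P : VonNeumannAlgebra H) (ι : Alg P →⋆ₐ[ℂ] Alg N), Function.Injective ι ∧
      (∀ b i j, ι b * e i j = e i j * ι b) ∧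
      (∀ x : Alg N, (∀ i j, x * e i j = e i j * x) → ∃ b, ι b = x) ∧ IsII1Factor P := by
  let X : Set (H →L[ℂ] H) := {x | ∃ i j, x = (e i j).val}
  have hX : ∀ x ∈ X, star x ∈ X := by
    rintro x ⟨i, j, rfl⟩
    exact ⟨j, i, by rw [← he.star_eq i j]; rfl⟩
  let P : VonNeumannAlgebra H := relComm N X
  have hPN : P.toStarSubalgebra ≤ N.toStarSubalgebra := by
    intro z hz
    exact ((mem_relComm N X hX z).1 hz).1
  have hc : ∀ b i j, incl hPN b * e i j = e i j * incl hPN b := by
    intro b i j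
    apply Alg.val_injective
    exact ((mem_relComm N X hX b.val).1 b.2).2 _ ⟨i, j, rfl⟩
  have hr : ∀ x : Alg N, (∀ i j, x * e i j = e i j * x) → ∃ b, incl hPN b = x := by
    intro x hx
    refine ⟨⟨x.val, (mem_relComm N X hX x.val).2 ⟨x.2, ?_⟩⟩, rfl⟩
    rintro y ⟨i, j, rfl⟩
    exact congrArg Alg.val (hx i j)
  exact ⟨P, incl hPN, incl_injective hPN, hc, hr, isII1Factor_relComm hN hPN he hc hr⟩

variable {Γ : Type v} [Group Γ] {E : Type w} [Group E]

/-- The extension of `Λ` by the relative commutant of matrix units. -/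
theorem Ext.exists_stabExt {N : VonNeumannAlgebra H} (hN : IsII1Factor N)
    (X : Ext Γ (Alg N) E) (Λ : Subgroup Γ) {I : Type*} [Fintype I] [Nonempty I]
    {e : I → I → Alg N} (he : IsMatrixUnits e) {P : VonNeumannAlgebra H}
    (ι : Alg P →⋆ₐ[ℂ] Alg N) (hι : Function.Injective ι)
    (hc : ∀ b i j, ι b * e i j = e i j * ι b)
    (hr : ∀ x : Alg N, (∀ i j, x * e i j = e i j * x) → ∃ b, ι b = x) :
    ∃ Y : Ext Λ (Alg P) (X.stab Λ e), (∀ g, ((Y.pr g : Λ) : Γ) = X.pr g) ∧
      (∀ g b, ι (Y.act g b) = X.act g (ι b)) := by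
  obtain ⟨τ, hτ, hd⟩ := hN.alg.trace
  let pr₁ : X.stab Λ e →* Λ :=
    { toFun := fun g => ⟨X.pr g, g.2.1⟩
      map_one' := by ext; simp
      map_mul' := fun g h => by ext; simp }
  obtain ⟨Y, hY1, hY2, -⟩ := X.exists_restrict ι hι (X.stab Λ e) (Γ₁ := Λ) Λ.subtype
    Subtype.val_injective pr₁ (fun g => rfl)
    (by
      intro x
      obtain ⟨g, hg, hg'⟩ := X.exists_lift_fix hτ hd he (x : Γ)
      exact ⟨⟨g, by rw [X.mem_stab, hg]; exact ⟨x.2, hg'⟩⟩, Subtype.ext hg⟩)
    (by
      intro g hg b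
      obtain ⟨-, hg'⟩ := (X.mem_stab Λ e g).1 hg
      obtain ⟨b', hb'⟩ := hr (X.act g (ι b)) (fun i j => by
        have := congrArg (X.act g) (hc b i j)
        rw [map_mul, map_mul, hg'] at this
        exact this)
      exact ⟨b', hb'⟩)
    (by
      intro x
      rw [X.mem_stab, X.pr_inc]
      constructor
      · rintro ⟨-, h⟩
        apply hr
        intro i j
        have h2 := h i j
        rw [X.act_inc] at h2
        calc (x : Alg N) * e i j = (x : Alg N) * e i j * (star (x : Alg N) * (x : Alg N)) := by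
              rw [Unitary.star_mul_self_of_mem x.2, mul_one]
          _ = (x : Alg N) * e i j * star (x : Alg N) * (x : Alg N) := by rw [← mul_assoc]
          _ = e i j * (x : Alg N) := by rw [h2]
      · rintro ⟨b, hb⟩
        refine ⟨Λ.one_mem, fun i j => ?_⟩
        rw [X.act_inc, ← hb, hc, hb, mul_assoc, Unitary.mul_star_self_of_mem x.2, mul_one])
  refine ⟨Y, fun g => ?_, hY2⟩
  rw [hY1]; rfl

end PExt

end Pool.Agent.Results.MP_07e70b_an.FiniteIndex
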