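import Pool.Agent.Helper28.VC.Ext3

/-!
# Hereditary `VC` groups, scalars, and the elements commuting with a lift that acts trivially
-/

set_option autoImplicit false
set_option linter.unusedSectionVars false
open Filter Topology
open scoped ComplexOrder InnerProductSpace
universe u v w

namespace Pool.Agent.Results.MP_07e70b_an.FiniteIndex

section Pull

variable {Γ Δ : Type v} [Group Γ] [Group Δ] {A : Type u} [Ring A] [StarRing A] [Algebra ℂ A]

/-- Pull back a cocycle action along a homomorphism. -/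
def CocycleAction.pull (c : CocycleAction Γ A) (φ : Δ →* Γ) : CocycleAction Δ A where
  aut g := c.aut (φ g)
  cocycle g h := c.cocycle (φ g) (φ h)
  aut_rel g h x := by
    have := c.aut_rel (φ g) (φ h) x
    rw [← map_mul] at this
    exact this
  cocycle_rel g h k := by
    have := c.cocycle_rel (φ g) (φ h) (φ k)
    rw [← map_mul, ← map_mul] at this
    exact this
  cocycle_right_one g := by
    have := c.cocycle_right_one (φ g)
    rw [← map_one φ] at this
    exact this
  cocycle_left_one g := by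
    have := c.cocycle_left_one (φ g)
    rw [← map_one φ] at this
    exact this

theorem VC.congr (h : VC.{u} Δ) (f : Δ ≃* Γ) : VC.{u} Γ := by
  intro H _ _ _ N hN c
  obtain ⟨w, hw⟩ := h H N hN (c.pull f.toMonoidHom)
  refine ⟨fun g => w (f.symm g), fun g h => ?_⟩
  have := hw (f.symm g) (f.symm h)
  simp only [CocycleAction.pull, MulEquiv.toMonoidHom_eq_coe, MonoidHom.coe_coe,
    MulEquiv.apply_symm_apply] at this
  rw [← map_mul f.symm] at this
  exact this

/-- All subgroups of finite index are in `VC`. -/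
def HVC (Γ : Type v) [Group Γ] : Prop := ∀ Λ : Subgroup Γ, Λ.FiniteIndex → VC.{u} Λ

theorem HVC.vc (h : HVC.{u} Γ) : VC.{u} Γ :=
  (h ⊤ inferInstance).congr Subgroup.topEquiv

/-- Transfer along a homomorphism with range of finite index. -/
theorem HVC.quot_of_hom (h : HVC.{u} Γ) (θ : Δ →* Γ) (hθ : θ.range.FiniteIndex)
    (K : Subgroup Δ) [K.Normal] (hK : K = θ.ker) : HVC.{u} (Δ ⧸ K) := by
  subst hK
  intro Λ hΛ
  let f : Δ ⧸ θ.ker →* Γ := QuotientGroup.kerLift θ
  have hf : Function.Injective f := QuotientGroup.kerLift_injective θ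
  have hrange : f.range = θ.range := by
    ext x
    constructor
    · rintro ⟨y, rfl⟩
      obtain ⟨y, rfl⟩ := QuotientGroup.mk_surjective y
      exact ⟨y, rfl⟩
    · rintro ⟨y, rfl⟩
      exact ⟨(y : Δ ⧸ θ.ker), rfl⟩
  have hfi : (Λ.map f).FiniteIndex := by
    refine ⟨?_⟩
    rw [Subgroup.index_map, (MonoidHom.ker_eq_bot_iff f).2 hf, sup_bot_eq, hrange]
    exact mul_ne_zero hΛ.index_ne_zero hθ.index_ne_zero
  exact (h (Λ.map f) hfi).congr (Λ.equivMapOfInjective f hf).symm

end Pull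

section Inner

instance instStarModuleAlg {H : Type u} [NormedAddCommGroup H] [InnerProductSpace ℂ H]
    [CompleteSpace H] (N : VonNeumannAlgebra H) : StarModule ℂ (Alg N) :=
  (inferInstance : StarModule ℂ N.toStarSubalgebra)

variable {A : Type u} [Ring A] [StarRing A] [Algebra ℂ A] [StarModule ℂ A]

/-- The scalar unitary. -/
noncomputable def scal (A : Type u) [Ring A] [StarRing A] [Algebra ℂ A] [StarModule ℂ A]
    (ζ : ℂ) : unitary A := by
  classical
  exact if h : ‖ζ‖ = 1 then ⟨algebraMap ℂ A ζ, by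
    have h1 : star (algebraMap ℂ A ζ) = algebraMap ℂ A (star ζ) := by
      rw [Algebra.algebraMap_eq_smul_one, Algebra.algebraMap_eq_smul_one, star_smul, star_one]
    have h2 : star ζ * ζ = 1 := by
      have := Complex.conj_mul' ζ
      rw [h] at this
      simpa using this
    rw [Unitary.mem_iff, h1, ← map_mul, ← map_mul, h2, mul_comm ζ, h2, map_one]
    exact ⟨rfl, rfl⟩⟩ else 1

theorem scal_coe {ζ : ℂ} (h : ‖ζ‖ = 1) : (scal A ζ : A) = algebraMap ℂ A ζ := by
  simp [scal, h]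

theorem scal_comm {ζ : ℂ} (h : ‖ζ‖ = 1) (a : A) : (scal A ζ : A) * a = a * (scal A ζ : A) := by
  rw [scal_coe h]; exact Algebra.commutes ζ a

theorem scal_act {ζ : ℂ} (h : ‖ζ‖ = 1) (a : A) :
    (scal A ζ : A) * a * star (scal A ζ : A) = a := by
  rw [scal_comm h, mul_assoc, Unitary.mul_star_self_of_mem (scal A ζ).2, mul_one]

theorem autU_scal {ζ : ℂ} (h : ‖ζ‖ = 1) (f : A ≃⋆ₐ[ℂ] A) : autU f (scal A ζ) = scal A ζ := by
  ext
  rw [autU_coe, scal_coe h, Algebra.algebraMap_eq_smul_one, map_smul, map_one]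

theorem scal_pow {ζ : ℂ} (h : ‖ζ‖ = 1) (n : ℕ) : ((scal A ζ ^ n : unitary A) : A) =
    algebraMap ℂ A (ζ ^ n) := by
  rw [SubmonoidClass.coe_pow, scal_coe h, map_pow]

end Inner

section InnerCase

variable {H : Type u} [NormedAddCommGroup H] [InnerProductSpace ℂ H] [CompleteSpace H]
variable {N : VonNeumannAlgebra H}

/-- A unitary that acts trivially is scalar. -/
theorem exists_scalar (hN : IsII1Factor N) (x : unitary (Alg N))
    (hx : ∀ a : Alg N, (x : Alg N) * a * star (x : Alg N) = a) :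
    ∃ ζ : ℂ, ‖ζ‖ = 1 ∧ x = scal (Alg N) ζ := by
  obtain ⟨ζ, hζ⟩ := hN.center x (fun a => by
    calc (x : Alg N) * a = (x : Alg N) * a * (star (x : Alg N) * (x : Alg N)) := by
          rw [Unitary.star_mul_self_of_mem x.2, mul_one]
      _ = (x : Alg N) * a * star (x : Alg N) * (x : Alg N) := by rw [← mul_assoc]
      _ = a * (x : Alg N) := by rw [hx])
  have hnorm : ‖ζ‖ = 1 := by
    obtain ⟨τ, hτ, -⟩ := hN.trace
    have h1 : star (x : Alg N) * (x : Alg N) = 1 := Unitary.star_mul_self_of_mem x.2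
    have h2 : star (algebraMap ℂ (Alg N) ζ) = algebraMap ℂ (Alg N) (star ζ) := by
      rw [Algebra.algebraMap_eq_smul_one, Algebra.algebraMap_eq_smul_one, star_smul, star_one]
    rw [hζ, h2, ← map_mul] at h1
    have h3 := congrArg τ h1
    rw [Algebra.algebraMap_eq_smul_one, map_smul, hτ.map_one, smul_eq_mul, mul_one] at h3
    have h4 : (star ζ * ζ : ℂ) = ((‖ζ‖ ^ 2 : ℝ) : ℂ) := by
      rw [Complex.ofReal_pow]; exact Complex.conj_mul' ζ
    rw [h4] at h3
    have h5 : ‖ζ‖ ^ 2 = 1 := by exact_mod_cast h3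
    have h6 := norm_nonneg ζ
    nlinarith
  exact ⟨ζ, hnorm, Subtype.ext (by rw [scal_coe hnorm]; exact hζ)⟩

variable {Γ : Type v} [Group Γ] {E : Type w} [Group E]

theorem Ext.inc_scal_comm (X : Ext Γ (Alg N) E) {ζ : ℂ} (h : ‖ζ‖ = 1) (g : E) :
    g * X.inc (scal (Alg N) ζ) = X.inc (scal (Alg N) ζ) * g := by
  have := X.conj g (scal (Alg N) ζ)
  rw [autU_scal h] at this
  exact mul_inv_eq_iff_eq_mul.1 this

/-- If some lift of `c` acts by an inner automorphism, there is a lift `z` of `c` that acts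
trivially, of the same order `p`. -/
theorem Ext.exists_trivial_lift (hN : IsII1Factor N) (X : Ext Γ (Alg N) E) {p : ℕ} (hp : 0 < p)
    {c : Γ} (hc : c ^ p = 1) (g : E) (hg : X.pr g = c) (k : unitary (Alg N))
    (hk : ∀ a, X.act g a = (k : Alg N) * a * star (k : Alg N)) :
    ∃ z, X.pr z = c ∧ X.act z = 1 ∧ z ^ p = 1 := by
  set z₀ : E := X.inc k⁻¹ * g with hz₀
  have h1 : X.pr z₀ = c := by rw [hz₀, map_mul, X.pr_inc, hg, one_mul]
  have h2 : X.act z₀ = 1 := by
    ext a
    rw [hz₀, map_mul]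
    show X.act (X.inc k⁻¹) (X.act g a) = a
    rw [X.act_inc, hk, ← Unitary.star_eq_inv, Unitary.coe_star, star_star]
    have e1 : star (k : Alg N) * (k : Alg N) = 1 := Unitary.star_mul_self_of_mem k.2
    calc star (k : Alg N) * ((k : Alg N) * a * star (k : Alg N)) * (k : Alg N) =
        (star (k : Alg N) * (k : Alg N)) * a * (star (k : Alg N) * (k : Alg N)) := by
          noncomm_ring
      _ = a := by rw [e1, one_mul, mul_one]
  obtain ⟨y, hy⟩ := X.exists_inc (z₀ ^ p) (by rw [map_pow, h1, hc])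
  obtain ⟨μ, hμ, hyμ⟩ := exists_scalar hN y (fun a => by
    rw [← X.act_inc, hy, map_pow, h2, one_pow]; rfl)
  obtain ⟨ν, hν⟩ := IsAlgClosed.exists_pow_nat_eq (μ⁻¹) hp
  have hνn : ‖ν‖ = 1 := by
    have h3 : ‖ν‖ ^ p = 1 := by
      rw [← norm_pow, hν, norm_inv, hμ, inv_one]
    exact (pow_eq_one_iff_of_nonneg (norm_nonneg _) hp.ne').1 h3
  refine ⟨X.inc (scal (Alg N) ν) * z₀, ?_, ?_, ?_⟩
  · rw [map_mul, X.pr_inc, h1, one_mul]
  · ext a
    rw [map_mul, h2, mul_one, X.act_inc, scal_act hνn]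
    rfl
  · have hcm : Commute (X.inc (scal (Alg N) ν)) z₀ := (X.inc_scal_comm hνn z₀).symm
    rw [hcm.mul_pow, ← hy, ← map_pow, ← map_mul]
    have : scal (Alg N) ν ^ p * y = 1 := by
      ext
      rw [Submonoid.coe_mul, scal_pow hνn, hν, hyμ, scal_coe hμ, ← map_mul, inv_mul_cancel₀,
        map_one]
      · rfl
      · intro h; rw [h, norm_zero] at hμ; exact zero_ne_one hμ
    rw [this, map_one]

/-- The elements of `Γ` whose lifts commute with `z`. -/
def Ext.cent (X : Ext Γ (Alg N) E) (z : E) (hz : X.act z = 1) : Subgroup Γ where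
  carrier := {γ | ∀ g, X.pr g = γ → g * z = z * g}
  one_mem' := by
    intro g hg
    obtain ⟨x, rfl⟩ := X.exists_inc g hg
    have := X.conj z x
    rw [hz] at this
    have h2 : autU (1 : Alg N ≃⋆ₐ[ℂ] Alg N) x = x := by ext; rfl
    rw [h2] at this
    exact (mul_inv_eq_iff_eq_mul.1 this).symm
  mul_mem' := by
    intro γ δ hγ hδ g hg
    obtain ⟨g1, hg1⟩ := X.pr_surj γ
    have h1 := hγ g1 hg1
    have h2 := hδ (g1⁻¹ * g) (by rw [map_mul, map_inv, hg1, hg]; group)
    have h3 : g = g1 * (g1⁻¹ * g) := by group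
    rw [h3, mul_assoc, h2, ← mul_assoc, h1, mul_assoc]
  inv_mem' := by
    intro γ hγ g hg
    have h1 := hγ g⁻¹ (by rw [map_inv, hg, inv_inv])
    have h2 : g * (g⁻¹ * z) * g = g * (z * g⁻¹) * g := by rw [h1]
    have h3 : z * g = g * z := by
      calc z * g = g * (g⁻¹ * z) * g := by group
        _ = g * (z * g⁻¹) * g := h2
        _ = g * z := by group
    exact h3.symm

theorem Ext.cent_finiteIndex (hN : IsII1Factor N) (X : Ext Γ (Alg N) E) {p : ℕ} (hp : 0 < p)
    (z : E) (hz : X.act z = 1) (hzp : z ^ p = 1) (hcen : ∀ γ : Γ, γ * X.pr z = X.pr z * γ) :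
    (X.cent z hz).FiniteIndex := by
  classical
  obtain ⟨σ, hσ, -, -⟩ := X.exists_section (fun _ => True) trivial
    (fun γ => by obtain ⟨g, hg⟩ := X.pr_surj γ; exact ⟨g, hg, trivial⟩)
  let F0 : Set E := (fun ζ : ℂ => X.inc (scal (Alg N) ζ) * z) '' {ζ : ℂ | ζ ^ p = 1}
  have hF0 : F0.Finite := by
    apply Set.Finite.image
    have : {ζ : ℂ | ζ ^ p = 1} ⊆ ((Polynomial.nthRootsFinset p (1 : ℂ) : Finset ℂ) : Set ℂ) := by
      intro ζ hζ
      exact (Polynomial.mem_nthRootsFinset hp (1 : ℂ)).2 hζ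
    exact (Finset.finite_toSet _).subset this
  have hmem : ∀ g : E, g * z * g⁻¹ ∈ F0 := by
    intro g
    obtain ⟨x, hx⟩ := X.exists_inc (g * z * g⁻¹ * z⁻¹) (by
      rw [map_mul, map_mul, map_mul, map_inv, map_inv, hcen]; group)
    obtain ⟨ζ, hζ, hxζ⟩ := exists_scalar hN x (fun a => by
      rw [← X.act_inc, hx, map_mul, map_mul, map_mul, map_inv, map_inv, hz]
      have : (X.act g * 1 * (X.act g)⁻¹ * 1⁻¹ : Alg N ≃⋆ₐ[ℂ] Alg N) = 1 := by group
      rw [this]; rfl)
    refine ⟨ζ, ?_, ?_⟩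
    · show ζ ^ p = 1
      have h1 : (X.inc x * z) ^ p = 1 := by
        rw [hx]
        have : g * z * g⁻¹ * z⁻¹ * z = g * z * g⁻¹ := by group
        rw [this, conj_pow, hzp]; group
      have hcm : Commute (X.inc x) z := by
        rw [hxζ]; exact (X.inc_scal_comm hζ z).symm
      rw [hcm.mul_pow, hzp, mul_one, ← map_pow] at h1
      have h2 : x ^ p = 1 := X.inc_inj (by rw [h1, map_one])
      rw [hxζ] at h2
      have h3 := congrArg Subtype.val h2
      rw [scal_pow hζ] at h3
      have h3' : algebraMap ℂ (Alg N) (ζ ^ p) = 1 := h3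
      obtain ⟨τ, hτ, -⟩ := hN.trace
      have h4 := congrArg τ h3'
      rwa [Algebra.algebraMap_eq_smul_one, map_smul, hτ.map_one, smul_eq_mul, mul_one] at h4
    · show X.inc (scal (Alg N) ζ) * z = g * z * g⁻¹
      rw [← hxζ, hx]; group
  have hfin : Finite (Γ ⧸ X.cent z hz) := by
    have : Finite F0 := hF0
    refine Finite.of_injective
      (fun q : Γ ⧸ X.cent z hz => (⟨σ q.out * z * (σ q.out)⁻¹, hmem _⟩ : F0)) ?_
    intro q q' h
    have h1 : σ q.out * z * (σ q.out)⁻¹ = σ q'.out * z * (σ q'.out)⁻¹ := congrArg Subtype.val h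
    have h2 : q.out⁻¹ * q'.out ∈ X.cent z hz := by
      intro g hg
      have hg2 : X.pr (g⁻¹ * ((σ q.out)⁻¹ * σ q'.out)) = 1 := by
        rw [map_mul, map_inv, hg, map_mul, map_inv, hσ, hσ]; group
      have h3 := (X.cent z hz).one_mem _ hg2
      have h4 : ((σ q.out)⁻¹ * σ q'.out) * z = z * ((σ q.out)⁻¹ * σ q'.out) := by
        calc ((σ q.out)⁻¹ * σ q'.out) * z
            = (σ q.out)⁻¹ * (σ q'.out * z * (σ q'.out)⁻¹) * σ q'.out := by group
          _ = (σ q.out)⁻¹ * (σ q.out * z * (σ q.out)⁻¹) * σ q'.out := by rw [h1]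
          _ = z * ((σ q.out)⁻¹ * σ q'.out) := by group
      set m := (σ q.out)⁻¹ * σ q'.out with hm
      have h5 : g * (g⁻¹ * m * z) = g * (z * (g⁻¹ * m)) := by rw [h3]
      have h6 : m * z = g * z * g⁻¹ * m := by
        calc m * z = g * (g⁻¹ * m * z) := by group
          _ = g * (z * (g⁻¹ * m)) := h5
          _ = g * z * g⁻¹ * m := by group
      rw [h4] at h6
      have h7 : z = g * z * g⁻¹ := mul_right_cancel h6
      calc g * z = g * z * g⁻¹ * g := by group
        _ = z * g := by rw [← h7]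
    rw [← QuotientGroup.out_eq' q, ← QuotientGroup.out_eq' q']
    exact QuotientGroup.eq.2 h2
  exact Subgroup.finiteIndex_of_finite_quotient

end InnerCase

end Pool.Agent.Results.MP_07e70b_an.FiniteIndex
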