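import Pool.Agent.Helper28.VC.Ext4

/-!
# The inner case
-/

set_option autoImplicit false
set_option linter.unusedSectionVars false
open Filter Topology
open scoped ComplexOrder InnerProductSpace
universe u v w

namespace Pool.Agent.Results.MP_07e70b_an.FiniteIndex

section InnerCase2

variable {H : Type u} [NormedAddCommGroup H] [InnerProductSpace ℂ H] [CompleteSpace H]
variable {N : VonNeumannAlgebra H}
variable {Γ : Type v} [Group Γ] {E : Type w} [Group E]

theorem range_finiteIndex (Λ : Subgroup Γ) [hΛ : Λ.FiniteIndex] (C : Subgroup Γ) [C.Normal] :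
    (((QuotientGroup.mk' C).comp Λ.subtype).range).FiniteIndex := by
  have h1 : ((QuotientGroup.mk' C).comp Λ.subtype).range = Λ.map (QuotientGroup.mk' C) := by
    rw [MonoidHom.range_comp, Subgroup.range_subtype]
  rw [h1]
  refine ⟨?_⟩
  rw [Subgroup.index_map]
  refine mul_ne_zero ?_ ?_
  · exact (Subgroup.finiteIndex_of_le (le_sup_left : Λ ≤ Λ ⊔ (QuotientGroup.mk' C).ker)).index_ne_zero
  · rw [QuotientGroup.range_mk', Subgroup.index_top]
    exact one_ne_zero

theorem zpowers_normal_of_central {G : Type*} [Group G] (s : G) (hs : ∀ g, g * s = s * g) :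
    (Subgroup.zpowers s).Normal := by
  refine ⟨?_⟩
  intro x hx g
  rw [Subgroup.mem_zpowers_iff] at hx
  obtain ⟨k, rfl⟩ := hx
  have : g * s ^ k * g⁻¹ = s ^ k := by
    have h1 : Commute g s := hs g
    have h2 := h1.zpow_right k
    rw [h2.eq]; group
  rw [this]
  exact Subgroup.zpow_mem_zpowers _ _

/-- The case in which a lift of the central element `c` of prime order acts by an inner
automorphism. -/
theorem Ext.splits_inner (hN : IsII1Factor N) (X : Ext Γ (Alg N) E) {p : ℕ} (hp : p.Prime)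
    {c : Γ} (hcen : ∀ γ : Γ, γ * c = c * γ) (hord : orderOf c = p)
    (C : Subgroup Γ) [C.Normal] (hC : C = Subgroup.zpowers c) (hQ : HVC.{u} (Γ ⧸ C))
    (g : E) (hg : X.pr g = c) (k : unitary (Alg N))
    (hk : ∀ a, X.act g a = (k : Alg N) * a * star (k : Alg N)) : X.Splits := by
  classical
  have hcp : c ^ p = 1 := by rw [← hord]; exact pow_orderOf_eq_one c
  obtain ⟨z, hz1, hz2, hz3⟩ := X.exists_trivial_lift hN hp.pos hcp g hg k hk
  have hfi : (X.cent z hz2).FiniteIndex :=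
    X.cent_finiteIndex hN hp.pos z hz2 hz3 (by rw [hz1]; exact hcen)
  set Λ : Subgroup Γ := X.cent z hz2 with hΛ
  let _ : Fintype (Γ ⧸ Λ) := Subgroup.fintypeQuotientOfFiniteIndex
  obtain ⟨τ, hτ, hd⟩ := hN.alg.trace
  obtain ⟨e, he⟩ := exists_matrixUnits hτ hd (Γ ⧸ Λ)
  obtain ⟨P, ι, hι, hιc, hιr, hP⟩ := exists_relComm hN he
  obtain ⟨Y, hY1, hY2⟩ := X.exists_stabExt hN Λ he ι hι hιc hιr
  have hcΛ : c ∈ Λ := by
    intro g' hg'
    have h1 := Λ.one_mem (g' * z⁻¹) (by rw [map_mul, map_inv, hg', hz1, mul_inv_cancel])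
    have h2 : g' * z⁻¹ * z = g' := by group
    rw [h2] at h1
    calc g' * z = z * (g' * z⁻¹) * z := by rw [← h1]
      _ = z * g' := by group
  have hcomm : ∀ g' ∈ X.stab Λ e, g' * z = z * g' := fun g' hg' => hg'.1 g' rfl
  let s : X.stab Λ e := ⟨z, by
    rw [X.mem_stab, hz1, hz2]
    exact ⟨hcΛ, fun i j => rfl⟩⟩
  have hsc : ∀ g' : X.stab Λ e, g' * s = s * g' := fun g' => Subtype.ext (hcomm g' g'.2)
  have hact : Y.act s = 1 := by
    ext b
    apply hι
    rw [hY2]
    show X.act z (ι b) = ι b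
    rw [hz2]; rfl
  have hprs : ((Y.pr s : Λ) : Γ) = c := by rw [hY1]; exact hz1
  have hinj : ∀ k : ℤ, Y.pr (s ^ k) = 1 → s ^ k = 1 := by
    intro k hk
    have h1 : c ^ k = 1 := by
      have := congrArg (Subtype.val) hk
      rw [map_zpow] at this
      rw [← hprs]
      exact this
    rw [← orderOf_dvd_iff_zpow_eq_one, hord] at h1
    obtain ⟨m, rfl⟩ := h1
    apply Subtype.ext
    show z ^ ((p : ℤ) * m) = 1
    rw [zpow_mul, zpow_natCast, hz3, one_zpow]
  let θ : Λ →* Γ ⧸ C := (QuotientGroup.mk' C).comp Λ.subtype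
  have hker : θ.ker = Subgroup.zpowers (Y.pr s) := by
    ext γ
    rw [MonoidHom.mem_ker, Subgroup.mem_zpowers_iff]
    have h1 : θ γ = 1 ↔ (γ : Γ) ∈ C := by
      show ((γ : Γ) : Γ ⧸ C) = 1 ↔ _
      rw [QuotientGroup.eq_one_iff]
    rw [h1, hC, Subgroup.mem_zpowers_iff]
    constructor
    · rintro ⟨k, hk⟩
      refine ⟨k, Subtype.ext ?_⟩
      rw [← hk, ← hprs]; rfl
    · rintro ⟨k, hk⟩
      refine ⟨k, ?_⟩
      rw [← hk, ← hprs]; rfl
  have hnorm : (Subgroup.zpowers s).Normal := zpowers_normal_of_central s hsc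
  have hvc : HVC.{u} (Λ ⧸ θ.ker) :=
    hQ.quot_of_hom θ (range_finiteIndex Λ C) θ.ker rfl
  obtain ⟨t, ht⟩ := Y.splits_of_central s hact hinj θ.ker hker (Subgroup.zpowers s) rfl
    (fun Y' => hvc.vc.splits hP Y')
  refine X.splits_of_stab Λ hτ hd he ((X.stab Λ e).subtype.comp t) (fun x => ?_)
    (fun x i j => ?_)
  · show X.pr (t x : E) = x
    rw [← hY1, ht]
  · exact (t x).2.2 i j

end InnerCase2

end Pool.Agent.Results.MP_07e70b_an.FiniteIndex
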