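import Pool.Agent.Helper28.VC.Ext5

/-!
# Lifts of order `p` that permute a partition of unity, and their conjugacy
-/

set_option autoImplicit false
set_option linter.unusedSectionVars false
open Filter Topology
open scoped ComplexOrder InnerProductSpace
universe u v w

namespace Pool.Agent.Results.MP_07e70b_an.FiniteIndex

section Mono

variable {A : Type u} [Ring A] [StarRing A] {I : Type*} [Fintype I] {e : I → I → A}

theorem IsMatrixUnits.star_mono (he : IsMatrixUnits e) (x : I → A)
    (hx : ∀ r i j, star (x r) * e i j = e i j * star (x r)) (σ : Equiv.Perm I) :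
    star (∑ q, x q * e (σ q) q) = ∑ r, star (x (σ.symm r)) * e (σ.symm r) r := by
  rw [star_sum]
  refine Eq.trans ?_ (Equiv.sum_comp σ (fun r => star (x (σ.symm r)) * e (σ.symm r) r))
  refine Finset.sum_congr rfl fun q _ => ?_
  rw [star_mul, he.star_eq, Equiv.symm_apply_apply, hx]

end Mono

section Regular

variable {A : Type u} [Ring A] [StarRing A] [Algebra ℂ A]
variable {Γ : Type v} [Group Γ] {E : Type w} [Group E]

/-- A lift `s` of `c` with `s ^ p = 1` that permutes the projections `e k k` cyclically. -/
theorem Ext.exists_regular_lift (X : Ext Γ A E) {p : ℕ} [hp : Fact p.Prime] {c : Γ}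
    (hcp : c ^ p = 1) {e : ZMod p → ZMod p → A} (he : IsMatrixUnits e)
    (g : E) (hg : X.pr g = c) (hfix : ∀ i j, X.act g (e i j) = e i j) :
    ∃ s, X.pr s = c ∧ s ^ p = 1 ∧ ∀ k, X.act s (e k k) = e (k + 1) (k + 1) := by
  classical
  obtain ⟨y, hy⟩ := X.exists_inc (g ^ p) (by rw [map_pow, hg, hcp])
  have hfixn : ∀ (n : ℕ) i j, X.act (g ^ n) (e i j) = e i j := by
    intro n i j
    induction n with
    | zero => rw [pow_zero, map_one]; rfl
    | succ n ih =>
      rw [pow_succ, map_mul]
      show X.act (g ^ n) (X.act g (e i j)) = e i j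
      rw [hfix, ih]
  have hye : ∀ i j, (y : A) * e i j = e i j * (y : A) := by
    intro i j
    have h2 : X.act (X.inc y) (e i j) = e i j := by rw [hy, hfixn]
    rw [X.act_inc] at h2
    calc (y : A) * e i j = (y : A) * e i j * (star (y : A) * (y : A)) := by
          rw [Unitary.star_mul_self_of_mem y.2, mul_one]
      _ = (y : A) * e i j * star (y : A) * (y : A) := by rw [← mul_assoc]
      _ = e i j * (y : A) := by rw [h2]
  have hye' : ∀ i j, star (y : A) * e i j = e i j * star (y : A) := by
    intro i j
    have := congrArg star (hye j i)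
    rw [star_mul, star_mul, he.star_eq] at this
    exact this.symm
  have hgy : autU (X.act g) y = y := by
    apply X.inc_inj
    rw [← X.conj, hy]
    group
  have hgy' : X.act g (star (y : A)) = star (y : A) := by
    rw [map_star]
    exact congrArg star (congrArg Subtype.val hgy)
  let a : ZMod p → ℕ := fun k => if k + 1 = 0 then 1 else 0
  let x : ZMod p → A := fun k => star (y : A) ^ a k
  have hxc : ∀ (n : ℕ) i j, star (y : A) ^ n * e i j = e i j * star (y : A) ^ n := by
    intro n i j
    exact (Commute.pow_left (hye' i j) n)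
  have hxc2 : ∀ (n : ℕ) i j, star (star (y : A) ^ n) * e i j = e i j * star (star (y : A) ^ n) := by
    intro n i j
    rw [star_pow, star_star]
    exact (Commute.pow_left (hye i j) n)
  have hyy : ∀ n : ℕ, star (y : A) ^ n * star (star (y : A) ^ n) = 1 := by
    intro n
    have : star (y : A) ^ n ∈ unitary A := pow_mem (Unitary.star_mem y.2) n
    exact Unitary.mul_star_self_of_mem this
  have hyy' : ∀ n : ℕ, star (star (y : A) ^ n) * star (y : A) ^ n = 1 := by
    intro n
    have : star (y : A) ^ n ∈ unitary A := pow_mem (Unitary.star_mem y.2) n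
    exact Unitary.star_mul_self_of_mem this
  let σ : Equiv.Perm (ZMod p) := Equiv.addRight 1
  have hσ : ∀ k, σ k = k + 1 := fun k => rfl
  let W : A := ∑ k, x k * e (σ k) k
  have hWs : star W = ∑ r, star (x (σ.symm r)) * e (σ.symm r) r :=
    he.star_mono x (fun r i j => hxc2 _ _ _) σ
  have hW1 : W * star W = 1 := by
    rw [hWs]
    show (∑ k, x k * e (σ k) k) * _ = 1
    rw [he.mono_mul x (fun r => star (x (σ.symm r))) σ σ.symm (fun r i j => hxc2 _ _ _)]
    rw [← he.sum_eq]
    refine Finset.sum_congr rfl fun r _ => ?_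
    rw [Equiv.apply_symm_apply]
    show star (y : A) ^ a (σ.symm r) * star (star (y : A) ^ a (σ.symm r)) * e r r = e r r
    rw [hyy, one_mul]
  have hW2 : star W * W = 1 := by
    rw [hWs]
    show _ * (∑ k, x k * e (σ k) k) = 1
    rw [he.mono_mul (fun r => star (x (σ.symm r))) x σ.symm σ (fun r i j => hxc _ _ _)]
    rw [← he.sum_eq]
    refine Finset.sum_congr rfl fun r _ => ?_
    rw [Equiv.symm_apply_apply]
    show star (star (y : A) ^ a r) * star (y : A) ^ a r * e r r = e r r
    rw [hyy', one_mul]
  have hpow : ∀ n : ℕ, W ^ n = ∑ k, star (y : A) ^ (∑ i ∈ Finset.range n, a (k + i)) *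
      e (k + n) k := by
    intro n
    induction n with
    | zero => simp [he.sum_eq]
    | succ n ih =>
      rw [pow_succ', ih]
      show (∑ k, x k * e (σ k) k) * _ = _
      rw [he.mono_mul x (fun k => star (y : A) ^ (∑ i ∈ Finset.range n, a (k + i))) σ
        (fun k => k + n) (fun r i j => hxc _ _ _)]
      refine Finset.sum_congr rfl fun k _ => ?_
      rw [hσ]
      show star (y : A) ^ a (k + n) * star (y : A) ^ (∑ i ∈ Finset.range n, a (k + i)) * _ = _
      rw [← pow_add, Finset.sum_range_succ, add_comm (a (k + n)), Nat.cast_succ, add_assoc]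
  have hcnt : ∀ k : ZMod p, ∑ i ∈ Finset.range p, a (k + i) = 1 := by
    intro k
    have hlt : (-k - 1 : ZMod p).val < p := ZMod.val_lt _
    rw [Finset.sum_eq_single_of_mem (-k - 1 : ZMod p).val (Finset.mem_range.2 hlt)]
    · show (if _ then 1 else 0) = 1
      rw [if_pos]
      rw [ZMod.natCast_zmod_val]; ring
    · intro i hi hne
      show (if _ then 1 else 0) = 0
      rw [if_neg]
      intro h
      apply hne
      have h1 : (i : ZMod p) = -k - 1 := by
        have : (i : ZMod p) = (k + i + 1) - k - 1 := by ring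
        rw [this, h]; ring
      rw [← h1, ZMod.val_natCast_of_lt (Finset.mem_range.1 hi)]
  have hWp : W ^ p = star (y : A) := by
    rw [hpow]
    simp only [hcnt, pow_one, CharP.cast_eq_zero, add_zero]
    rw [← Finset.mul_sum, he.sum_eq, mul_one]
  let Wu : unitary A := ⟨W, by rw [Unitary.mem_iff]; exact ⟨hW2, hW1⟩⟩
  have hgW : autU (X.act g) Wu = Wu := by
    ext
    show X.act g (∑ k, x k * e (σ k) k) = ∑ k, x k * e (σ k) k
    rw [map_sum]
    refine Finset.sum_congr rfl fun k _ => ?_
    rw [map_mul, hfix]
    show X.act g (star (y : A) ^ a k) * _ = _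
    rw [map_pow, hgy']
  have hcm : Commute (X.inc Wu) g := by
    have := X.conj g Wu
    rw [hgW] at this
    exact (mul_inv_eq_iff_eq_mul.1 this).symm
  refine ⟨X.inc Wu * g, by rw [map_mul, X.pr_inc, hg, one_mul], ?_, fun k => ?_⟩
  · rw [hcm.mul_pow, ← hy, ← map_pow, ← map_mul]
    have : Wu ^ p * y = 1 := by
      ext
      show W ^ p * (y : A) = 1
      rw [hWp, Unitary.star_mul_self_of_mem y.2]
    rw [this, map_one]
  · rw [map_mul]
    show X.act (X.inc Wu) (X.act g (e k k)) = _
    rw [hfix, X.act_inc]
    show W * e k k * star W = _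
    have h1 : W * e k k = x k * e (σ k) k := by
      show (∑ k, x k * e (σ k) k) * e k k = _
      rw [Finset.sum_mul, Finset.sum_eq_single k]
      · rw [mul_assoc, he.mul_same]
      · intro b _ hb
        rw [mul_assoc, he.mul_ne _ _ _ _ hb, mul_zero]
      · intro h; exact absurd (Finset.mem_univ _) h
    have h2 : e k k * star W = e k (σ k) * star (x k) := by
      have := congrArg star h1
      rwa [star_mul, star_mul, he.star_eq, he.star_eq] at this
    calc W * e k k * star W = W * e k k * (e k k * star W) := by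
          have : W * e k k * (e k k * star W) = W * (e k k * e k k) * star W := by noncomm_ring
          rw [this, he.mul_same]
      _ = x k * e (σ k) k * (e k (σ k) * star (x k)) := by rw [h1, h2]
      _ = x k * (e (σ k) k * e k (σ k)) * star (x k) := by noncomm_ring
      _ = e (σ k) (σ k) * (x k * star (x k)) := by
          rw [he.mul_same]
          show star (y : A) ^ a k * e _ _ * star (star (y : A) ^ a k) =
            e _ _ * (star (y : A) ^ a k * star (star (y : A) ^ a k))
          rw [hxc, mul_assoc]
      _ = e (k + 1) (k + 1) := by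
          show e (σ k) (σ k) * (star (y : A) ^ a k * star (star (y : A) ^ a k)) = _
          rw [hyy, mul_one, hσ]

/-- Two lifts of order `p` of the same element that permute partitions of unity cyclically are
conjugate by a unitary. -/
theorem Ext.conj_lifts (X : Ext Γ A E) {p : ℕ} [hp : Fact p.Prime] (s s' : E)
    (hss : X.pr s = X.pr s') (hs : s ^ p = 1) (hs' : s' ^ p = 1)
    {f f' : ZMod p → A} (hf : ∀ k, IsStarProjection (f k)) (hf' : ∀ k, IsStarProjection (f' k))
    (hort : ∀ k l, k ≠ l → f k * f l = 0) (hort' : ∀ k l, k ≠ l → f' k * f' l = 0)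
    (hsum : ∑ k, f k = 1) (hsum' : ∑ k, f' k = 1)
    (hact : ∀ k, X.act s (f k) = f (k + 1)) (hact' : ∀ k, X.act s' (f' k) = f' (k + 1))
    (y : A) (hy : star y * y = f' 0) (hy' : y * star y = f 0)
    (hyl : f 0 * y = y) (hyr : y * f' 0 = y) :
    ∃ V : unitary A, X.inc V * s' * (X.inc V)⁻¹ = s := by
  classical
  let S : ZMod p → E := fun k => s ^ k.val
  let S' : ZMod p → E := fun k => s' ^ k.val
  have hSgen : ∀ (t : E), t ^ p = 1 → ∀ k : ZMod p, t ^ (k + 1).val = t * t ^ k.val := by
    intro t ht k
    rw [← pow_succ', ZMod.val_add, ← pow_eq_pow_mod _ ht]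
    have h1 : (1 : ZMod p).val = 1 := ZMod.val_one p
    rw [h1]
  have hS : ∀ k, S (k + 1) = s * S k := hSgen s hs
  have hS' : ∀ k, S' (k + 1) = s' * S' k := hSgen s' hs'
  have hact2 : ∀ n : ℕ, X.act (s ^ n) (f 0) = f n := by
    intro n
    induction n with
    | zero => rw [pow_zero, map_one, Nat.cast_zero]; rfl
    | succ n ih =>
      rw [pow_succ', map_mul]
      show X.act s (X.act (s ^ n) (f 0)) = _
      rw [ih, hact, Nat.cast_succ]
  have hact2' : ∀ n : ℕ, X.act (s' ^ n) (f' 0) = f' n := by
    intro n
    induction n with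
    | zero => rw [pow_zero, map_one, Nat.cast_zero]; rfl
    | succ n ih =>
      rw [pow_succ', map_mul]
      show X.act s' (X.act (s' ^ n) (f' 0)) = _
      rw [ih, hact', Nat.cast_succ]
  have hf0 : ∀ k, X.act (S k) (f 0) = f k := by
    intro k; rw [hact2, ZMod.natCast_zmod_val]
  have hf0' : ∀ k, X.act (S' k) (f' 0) = f' k := by
    intro k; rw [hact2', ZMod.natCast_zmod_val]
  have hex : ∀ k, ∃ x, X.inc x = S k * (S' k)⁻¹ := fun k => X.exists_inc _ (by
    show X.pr (s ^ k.val * (s' ^ k.val)⁻¹) = 1
    rw [map_mul, map_inv, map_pow, map_pow, hss, mul_inv_cancel])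
  choose x hx using hex
  obtain ⟨d, hd⟩ := X.exists_inc (s' * s⁻¹) (by rw [map_mul, map_inv, hss, mul_inv_cancel])
  let b : ZMod p → A := fun k => X.act (S k) y * (x k : A)
  -- `x k` moves `f' k` to `act (S k) (f' 0)`
  have hxf : ∀ k, (x k : A) * f' k = X.act (S k) (f' 0) * (x k : A) := by
    intro k
    have h1 : X.act (X.inc (x k)) (f' k) = X.act (S k) (f' 0) := by
      rw [hx, ← hf0' k, map_mul]
      show X.act (S k) (X.act (S' k)⁻¹ (X.act (S' k) (f' 0))) = _
      have : X.act (S' k)⁻¹ (X.act (S' k) (f' 0)) = f' 0 := by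
        have h2 : (X.act (S' k)⁻¹ * X.act (S' k)) (f' 0) = f' 0 := by
          rw [← map_mul, inv_mul_cancel, map_one]; rfl
        exact h2
      rw [this]
    rw [X.act_inc] at h1
    rw [← h1, mul_assoc, Unitary.star_mul_self_of_mem (x k).2, mul_one]
  have hbr : ∀ k, b k * f' k = b k := by
    intro k
    show X.act (S k) y * (x k : A) * f' k = X.act (S k) y * (x k : A)
    rw [mul_assoc, hxf, ← mul_assoc, ← map_mul, hyr]
  have hbl : ∀ k, f k * b k = b k := by
    intro k
    show f k * (X.act (S k) y * (x k : A)) = X.act (S k) y * (x k : A)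
    rw [← mul_assoc]
    conv_lhs => rw [← hf0 k]
    rw [← map_mul, hyl]
  have hbb : ∀ k, b k * star (b k) = f k := by
    intro k
    show X.act (S k) y * (x k : A) * star (X.act (S k) y * (x k : A)) = f k
    rw [star_mul, ← hf0 k, ← hy', map_mul, map_star]
    have h1 := Unitary.mul_star_self_of_mem (x k).2
    calc X.act (S k) y * (x k : A) * (star (x k : A) * star (X.act (S k) y)) =
        X.act (S k) y * ((x k : A) * star (x k : A)) * star (X.act (S k) y) := by noncomm_ring
      _ = _ := by rw [h1, mul_one]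
  have hbb' : ∀ k, star (b k) * b k = f' k := by
    intro k
    show star (X.act (S k) y * (x k : A)) * (X.act (S k) y * (x k : A)) = f' k
    have h1 : star (X.act (S k) y) * X.act (S k) y = X.act (S k) (f' 0) := by
      rw [← hy, map_mul, map_star]
    have h2 := Unitary.star_mul_self_of_mem (x k).2
    rw [star_mul]
    calc star (x k : A) * star (X.act (S k) y) * (X.act (S k) y * (x k : A)) =
        star (x k : A) * ((star (X.act (S k) y) * X.act (S k) y) * (x k : A)) := by noncomm_ring
      _ = star (x k : A) * ((x k : A) * f' k) := by rw [h1, hxf]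
      _ = f' k := by rw [← mul_assoc, h2, one_mul]
  let V : A := ∑ k, b k
  have hVs : star V = ∑ k, star (b k) := star_sum _ _
  have hsb : ∀ k, f' k * star (b k) = star (b k) := by
    intro k
    have := congrArg star (hbr k)
    rwa [star_mul, (hf' k).isSelfAdjoint.star_eq] at this
  have hsb2 : ∀ k, star (b k) * f k = star (b k) := by
    intro k
    have := congrArg star (hbl k)
    rwa [star_mul, (hf k).isSelfAdjoint.star_eq] at this
  have hV1 : V * star V = 1 := by
    rw [hVs, Finset.sum_mul_sum, ← hsum]
    refine Finset.sum_congr rfl fun k _ => ?_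
    rw [Finset.sum_eq_single k]
    · exact hbb k
    · intro l _ hl
      rw [← hbr k, ← hsb l, mul_assoc, ← mul_assoc (f' k), hort' _ _ (Ne.symm hl), zero_mul,
        mul_zero]
    · intro h; exact absurd (Finset.mem_univ _) h
  have hV2 : star V * V = 1 := by
    rw [hVs, Finset.sum_mul_sum, ← hsum']
    refine Finset.sum_congr rfl fun k _ => ?_
    rw [Finset.sum_eq_single k]
    · exact hbb' k
    · intro l _ hl
      rw [← hbl l, ← hsb2 k, mul_assoc, ← mul_assoc (f k), hort _ _ (Ne.symm hl), zero_mul,
        mul_zero]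
    · intro h; exact absurd (Finset.mem_univ _) h
  let Vu : unitary A := ⟨V, by rw [Unitary.mem_iff]; exact ⟨hV2, hV1⟩⟩
  have hsV : autU (X.act s) Vu = Vu * d := by
    ext
    show X.act s (∑ k, b k) = (∑ k, b k) * (d : A)
    rw [map_sum, Finset.sum_mul, ← Equiv.sum_comp (Equiv.addRight (1 : ZMod p))
      (fun k => b k * (d : A))]
    refine Finset.sum_congr rfl fun k _ => ?_
    have h3 : autU (X.act s) (x k) = x (k + 1) * d := by
      apply X.inc_inj
      rw [← X.conj, map_mul, hx, hx, hd, hS, hS']
      group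
    have h4 : X.act s (x k : A) = (x (k + 1) : A) * (d : A) := congrArg Subtype.val h3
    show X.act s (X.act (S k) y * (x k : A)) = X.act (S (k + 1)) y * (x (k + 1) : A) * (d : A)
    rw [map_mul, h4, hS, map_mul X.act, ← mul_assoc]
    rfl
  refine ⟨Vu, ?_⟩
  have h1 : s * X.inc Vu = X.inc Vu * s' := by
    have := X.conj s Vu
    rw [hsV, map_mul, hd] at this
    have h2 : s * X.inc Vu = X.inc Vu * (s' * s⁻¹) * s := by
      rw [← this]; group
    rw [h2]; group
  rw [← h1]; group

end Regular

end Pool.Agent.Results.MP_07e70b_an.FiniteIndex
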