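import Pool.Agent.Helper28.VC.Ext6

/-!
# Uniqueness of the trace of a II₁ factor; automorphisms preserve it
-/

set_option autoImplicit false
set_option linter.unusedSectionVars false
open Filter Topology
open scoped ComplexOrder InnerProductSpace
universe u v w

namespace Pool.Agent.Results.MP_07e70b_an.FiniteIndex

section TraceUnique

variable {A : Type u} [Ring A] [StarRing A] [Algebra ℂ A] {τ τ' : A →ₗ[ℂ] ℂ}

theorem IsFaithfulTracialState.eq_of_mvn (hτ : IsFaithfulTracialState τ) {p q : A}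
    (h : MvN p q) : τ p = τ q := by
  obtain ⟨v, rfl, rfl⟩ := h
  exact hτ.comm _ _

theorem trace_eq_inv (hτ : IsFaithfulTracialState τ) (hd : HasContinuousDimension τ)
    (hτ' : IsFaithfulTracialState τ') {n : ℕ} (hn : 0 < n) {q : A} (hq : IsStarProjection q)
    (h : τ q = ((1 / (n : ℝ) : ℝ) : ℂ)) : τ' q = ((1 / (n : ℝ) : ℝ) : ℂ) := by
  obtain ⟨p, hp, -, hsum, htr⟩ := hd.split hτ (1 / (n : ℝ)) (by positivity) n 1
    (IsStarProjection.one _) (by
      rw [hτ.map_one]; push_cast
      have : (n : ℂ) ≠ 0 := by exact_mod_cast hn.ne'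
      field_simp)
  have h1 : ∀ i, τ' (p i) = τ' q := fun i =>
    hτ'.eq_of_mvn (hd.equiv_of_eq _ _ (hp i) hq (by rw [htr, h]))
  have h2 : τ' 1 = ∑ i, τ' (p i) := by rw [← hsum, map_sum]
  rw [hτ'.map_one] at h2
  simp only [h1, Finset.sum_const, Finset.card_univ, Fintype.card_fin, nsmul_eq_mul] at h2
  have h3 : (n : ℂ) ≠ 0 := by exact_mod_cast hn.ne'
  push_cast
  field_simp
  rw [mul_comm]; exact h2.symm

theorem trace_eq_rat (hτ : IsFaithfulTracialState τ) (hd : HasContinuousDimension τ)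
    (hτ' : IsFaithfulTracialState τ') {n : ℕ} (hn : 0 < n) (m : ℕ) {q : A}
    (hq : IsStarProjection q)
    (h : τ q = (m : ℂ) * ((1 / (n : ℝ) : ℝ) : ℂ)) :
    τ' q = (m : ℂ) * ((1 / (n : ℝ) : ℝ) : ℂ) := by
  obtain ⟨p, hp, -, hsum, htr⟩ := hd.split hτ (1 / (n : ℝ)) (by positivity) m q hq h
  rw [← hsum, map_sum]
  simp only [trace_eq_inv hτ hd hτ' hn (hp _) (htr _)]
  simp

theorem trace_lower (hτ : IsFaithfulTracialState τ) (hd : HasContinuousDimension τ)
    (hτ' : IsFaithfulTracialState τ') {n : ℕ} (hn : 0 < n) {q : A} (hq : IsStarProjection q) :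
    (τ q).re - 1 / (n : ℝ) ≤ (τ' q).re := by
  have h0 := hτ.proj_nonneg hq
  rw [Complex.le_def] at h0
  have h0' : 0 ≤ (τ q).re := h0.1
  have hn' : (0 : ℝ) < n := by exact_mod_cast hn
  set m := ⌊(n : ℝ) * (τ q).re⌋₊ with hm
  have h1 : (m : ℝ) ≤ n * (τ q).re := Nat.floor_le (by positivity)
  have h2 : (n : ℝ) * (τ q).re < m + 1 := Nat.lt_floor_add_one _
  obtain ⟨r, hr, hrq, hrt⟩ := hd.exists_sub q hq ((m : ℝ) * (1 / (n : ℝ))) (by positivity) (by
    rw [Complex.le_def]
    refine ⟨?_, ?_⟩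
    · rw [Complex.ofReal_re, mul_one_div, div_le_iff₀ hn']; linarith
    · rw [Complex.ofReal_im]; exact h0.2)
  have h3 : τ' r = (m : ℂ) * ((1 / (n : ℝ) : ℝ) : ℂ) :=
    trace_eq_rat hτ hd hτ' hn m hr (by rw [hrt]; push_cast; ring)
  have hqr : q * r = r := by
    have := congrArg star hrq
    rwa [star_mul, hq.isSelfAdjoint.star_eq, hr.isSelfAdjoint.star_eq] at this
  have h4 := hτ'.proj_mono hr hq hqr
  have h5 : (τ' r).re = (m : ℝ) * (1 / (n : ℝ)) := by
    rw [h3]
    have : ((m : ℂ) * ((1 / (n : ℝ) : ℝ) : ℂ)) = (((m : ℝ) * (1 / (n : ℝ)) : ℝ) : ℂ) := by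
      push_cast; ring
    rw [this, Complex.ofReal_re]
  rw [h5] at h4
  have h6 : (τ q).re - 1 / (n : ℝ) ≤ (m : ℝ) * (1 / (n : ℝ)) := by
    rw [mul_one_div, le_div_iff₀ hn', sub_mul, one_div, inv_mul_cancel₀ hn'.ne']
    linarith
  linarith

theorem trace_proj_eq (hτ : IsFaithfulTracialState τ) (hd : HasContinuousDimension τ)
    (hτ' : IsFaithfulTracialState τ') {q : A} (hq : IsStarProjection q) : τ q = τ' q := by
  have h1 : ∀ {q : A}, IsStarProjection q → (τ q).re ≤ (τ' q).re := by
    intro q hq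
    refine le_of_forall_pos_le_add fun ε hε => ?_
    obtain ⟨n, hn⟩ := exists_nat_one_div_lt hε
    have h2 := trace_lower hτ hd hτ' (Nat.succ_pos n) hq
    push_cast at h2
    linarith
  have h2 := h1 hq
  have hq' : IsStarProjection (1 - q) :=
    proj_sub hq (IsStarProjection.one A) (one_mul q)
  have h3 := h1 hq'
  rw [map_sub, map_sub, hτ.map_one, hτ'.map_one, Complex.sub_re, Complex.sub_re] at h3
  have h4 := hτ.proj_nonneg hq
  have h5 := hτ'.proj_nonneg hq
  rw [Complex.le_def] at h4 h5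
  apply Complex.ext
  · linarith
  · have h6 : (0 : ℝ) = (τ q).im := h4.2
    have h7 : (0 : ℝ) = (τ' q).im := h5.2
    rw [← h6, ← h7]

end TraceUnique

section TraceUnique2

variable {H : Type u} [NormedAddCommGroup H] [InnerProductSpace ℂ H] [CompleteSpace H]
variable {N : VonNeumannAlgebra H}

theorem Alg.cfc_mem {h : H →L[ℂ] H} (hh : h ∈ N) (f : ℝ → ℝ) : cfc f h ∈ N := by
  rw [← VonNeumannAlgebra.commutant_commutant N, VonNeumannAlgebra.mem_commutant_iff]
  intro y hy
  rw [VonNeumannAlgebra.mem_commutant_iff] at hy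
  have hc : Commute h y := hy _ hh
  exact (hc.cfc_real f).symm

/-- Binary expansion: for `0 ≤ h ≤ 1` in `N` there is a projection `e ∈ N` with
`0 ≤ 2 h - e ≤ 1`. -/
theorem exists_binary {h : H →L[ℂ] H} (hh : h ∈ N) (h0 : 0 ≤ h) (h1 : h ≤ 1) :
    ∃ e ∈ N, IsStarProjection e ∧ 0 ≤ h + h - e ∧ h + h - e ≤ 1 := by
  have hsa : IsSelfAdjoint h := IsSelfAdjoint.of_nonneg h0
  let kf : ℝ → ℝ := fun t => max (t - 1 / 2) 0
  let lf : ℝ → ℝ := fun t => max (1 / 2 - t) 0
  have hkc : Continuous kf := by fun_prop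
  have hlc : Continuous lf := by fun_prop
  set K := cfc kf h with hK
  set L := cfc lf h with hL
  have haid : cfc (id : ℝ → ℝ) h = h := cfc_id ℝ h
  have hK0 : 0 ≤ K := cfc_nonneg (fun t _ => le_max_right _ _)
  have hL0 : 0 ≤ L := cfc_nonneg (fun t _ => le_max_right _ _)
  have hKL : K - L = h - algebraMap ℝ _ (1 / 2) := by
    have e1 : (fun t : ℝ => kf t - lf t) = fun t => id t - 1 / 2 := by
      funext t
      show max (t - 1 / 2) 0 - max (1 / 2 - t) 0 = t - 1 / 2
      rcases le_total t (1 / 2) with h | h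
      · rw [max_eq_right (by linarith), max_eq_left (by linarith)]; ring
      · rw [max_eq_left (by linarith), max_eq_right (by linarith)]; ring
    rw [hK, hL, ← cfc_sub kf lf h hkc.continuousOn hlc.continuousOn, e1,
      cfc_sub id (fun _ => (1 / 2 : ℝ)) h continuous_id.continuousOn continuous_const.continuousOn,
      haid, cfc_const _ h]
  have hLK : L * K = 0 := by
    rw [hK, hL, ← cfc_mul lf kf h hlc.continuousOn hkc.continuousOn]
    have e1 : (fun t : ℝ => lf t * kf t) = fun _ => 0 := by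
      funext t
      show max (1 / 2 - t) 0 * max (t - 1 / 2) 0 = 0
      rcases le_total t (1 / 2) with h | h
      · rw [max_eq_right (by linarith : t - 1 / 2 ≤ 0), mul_zero]
      · rw [max_eq_right (by linarith : 1 / 2 - t ≤ 0), zero_mul]
    rw [e1, cfc_const _ h, map_zero]
  let S : Submodule ℂ H := LinearMap.range (K : H →ₗ[ℂ] H)
  set e := closProj S with he
  have hep : IsStarProjection e := closProj_proj S
  have he1 : e * e = e := hep.isIdempotentElem
  have he2 : star e = e := hep.isSelfAdjoint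
  have heK : e * K = K := by
    ext ξ
    exact closProj_apply S ⟨ξ, rfl⟩
  have hKsa : star K = K := (IsSelfAdjoint.of_nonneg hK0).star_eq
  have hLsa : star L = L := (IsSelfAdjoint.of_nonneg hL0).star_eq
  have hKe : K * e = K := by
    have := congrArg star heK
    rwa [star_mul, hKsa, he2] at this
  have hLe : L * e = 0 := by
    apply closProj_mul_eq_zero
    rintro x ⟨ξ, rfl⟩
    exact congrArg (fun T : H →L[ℂ] H => T ξ) hLK
  have heL : e * L = 0 := by
    have := congrArg star hLe
    rwa [star_mul, hLsa, he2, star_zero] at this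
  have heN : e ∈ N := by
    refine closProj_mem N S ?_
    rintro y hy x ⟨ξ, rfl⟩
    rw [VonNeumannAlgebra.mem_commutant_iff] at hy
    have hc : Commute h y := hy _ hh
    have h1 : K * y = y * K := hc.cfc_real kf
    have h2 := congrArg (fun T : H →L[ℂ] H => T ξ) h1
    exact ⟨y ξ, h2⟩
  have hhe : h = K - L + (1 / 2 : ℝ) • (1 : H →L[ℂ] H) := by
    rw [hKL, Algebra.algebraMap_eq_smul_one]; abel
  -- `h e = e h e`
  have hcomm : h * e = e * h := by
    rw [hhe, add_mul, mul_add, sub_mul, mul_sub, hKe, hLe, heK, heL]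
    simp
  have hpos1 : 0 ≤ (1 - e) * h * (1 - e) := by
    have : star (1 - e) = 1 - e := by rw [star_sub, star_one, he2]
    have h2 := star_left_conjugate_nonneg h0 (1 - e)
    rwa [this] at h2
  have hpos2 : 0 ≤ e * (1 - h) * e := by
    have h2 := star_left_conjugate_nonneg (sub_nonneg.2 h1) e
    rwa [he2] at h2
  have hq1 : (1 - e) * h * (1 - e) = h - h * e := by
    have : (1 - e) * h * (1 - e) = h - h * e - e * h + e * (h * e) := by noncomm_ring
    rw [this, hcomm, ← mul_assoc, he1]; abel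
  have hq2 : e * (1 - h) * e = e - h * e := by
    have : e * (1 - h) * e = e * e - e * (h * e) := by noncomm_ring
    rw [this, hcomm, ← mul_assoc, he1]
  have hhee : h * e = K + (1 / 2 : ℝ) • e := by
    conv_lhs => rw [hhe]
    rw [add_mul, sub_mul, hKe, hLe, sub_zero, smul_mul_assoc, one_mul]
  refine ⟨e, heN, hep, ?_, ?_⟩
  · have e1 : h + h - e = (K + K) + ((1 - e) * h * (1 - e) + (1 - e) * h * (1 - e)) := by
      rw [hq1]
      have : e = (1 / 2 : ℝ) • e + (1 / 2 : ℝ) • e := by rw [← add_smul]; norm_num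
      have h3 : h * e + h * e - e = K + K := by
        rw [hhee]
        have h4 : K + (1 / 2 : ℝ) • e + (K + (1 / 2 : ℝ) • e) - e =
            K + K + (((1 / 2 : ℝ) • e + (1 / 2 : ℝ) • e) - e) := by abel
        rw [h4, ← this, sub_self, add_zero]
      rw [← h3]; abel
    rw [e1]
    exact add_nonneg (add_nonneg hK0 hK0) (add_nonneg hpos1 hpos1)
  · rw [← sub_nonneg]
    have hhe' : h - h * e = (1 / 2 : ℝ) • (1 - e) - L := by
      rw [hhee]
      conv_lhs => rw [hhe]
      rw [smul_sub]; abel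
    have e1 : 1 - (h + h - e) = (e * (1 - h) * e + e * (1 - h) * e) + (L + L) := by
      rw [hq2]
      have h4 : (1 : H →L[ℂ] H) - e = (1 / 2 : ℝ) • (1 - e) + (1 / 2 : ℝ) • (1 - e) := by
        rw [← add_smul]; norm_num
      have h5 : (1 : H →L[ℂ] H) - e - ((h - h * e) + (h - h * e)) = L + L := by
        rw [hhe']; nth_rewrite 1 [h4]; abel
      rw [← h5]; abel
    rw [e1]
    exact add_nonneg (add_nonneg hpos2 hpos2) (add_nonneg hL0 hL0)

theorem IsFaithfulTracialState.nonneg_of_nonneg {τ : Alg N →ₗ[ℂ] ℂ}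
    (hτ : IsFaithfulTracialState τ) (h : Alg N) (h0 : 0 ≤ h.val) : 0 ≤ τ h := by
  set y : H →L[ℂ] H := cfc Real.sqrt h.val with hy
  have hyN : y ∈ N := Alg.cfc_mem h.2 _
  have hysa : star y = y := (cfc_predicate Real.sqrt h.val : IsSelfAdjoint _).star_eq
  have hyy : y * y = h.val := by
    rw [hy, ← cfc_mul Real.sqrt Real.sqrt h.val Real.continuous_sqrt.continuousOn
      Real.continuous_sqrt.continuousOn]
    have e1 : cfc (fun t => Real.sqrt t * Real.sqrt t) h.val = cfc (id : ℝ → ℝ) h.val := by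
      apply cfc_congr
      intro t ht
      exact Real.mul_self_sqrt (spectrum_nonneg_of_nonneg h0 ht)
    rw [e1, cfc_id ℝ h.val]
  have h1 := hτ.nonneg (Alg.mk y hyN)
  have h2 : star (Alg.mk y hyN) * Alg.mk y hyN = h := by
    apply Alg.val_injective
    show star y * y = h.val
    rw [hysa, hyy]
  rwa [h2] at h1

theorem trace_unique {τ τ' : Alg N →ₗ[ℂ] ℂ} (hτ : IsFaithfulTracialState τ)
    (hd : HasContinuousDimension τ) (hτ' : IsFaithfulTracialState τ') (x : Alg N) :
    τ x = τ' x := by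
  have h1 : ∀ (n : ℕ) (h : Alg N), 0 ≤ h.val → h.val ≤ 1 → ‖τ h - τ' h‖ ≤ (1 / 2) ^ n := by
    intro n
    induction n with
    | zero =>
      intro h h0 h1
      have a1 := hτ.nonneg_of_nonneg h h0
      have a2 := hτ'.nonneg_of_nonneg h h0
      have a3 := hτ.nonneg_of_nonneg (1 - h) (sub_nonneg.2 h1)
      have a4 := hτ'.nonneg_of_nonneg (1 - h) (sub_nonneg.2 h1)
      rw [map_sub, hτ.map_one] at a3
      rw [map_sub, hτ'.map_one] at a4
      rw [Complex.le_def] at a1 a2 a3 a4
      simp at a1 a2 a3 a4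
      have : τ h - τ' h = (((τ h).re - (τ' h).re : ℝ) : ℂ) := by
        apply Complex.ext
        · simp
        · simp [← a1.2, ← a2.2]
      rw [this, Complex.norm_real, Real.norm_eq_abs, pow_zero, abs_le]
      constructor <;> linarith [a1.1, a2.1, a3.1, a4.1]
    | succ n ih =>
      intro h h0 h1
      obtain ⟨e, he, hep, hl, hu⟩ := exists_binary h.2 h0 h1
      have hep' : IsStarProjection (Alg.mk e he) := by
        refine ⟨?_, ?_⟩
        · exact Alg.val_injective hep.isIdempotentElem.eq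
        · exact Alg.val_injective hep.isSelfAdjoint.star_eq
      have h2 := ih (h + h - Alg.mk e he) hl hu
      have h3 := trace_proj_eq hτ hd hτ' hep'
      have h4 : τ (h + h - Alg.mk e he) - τ' (h + h - Alg.mk e he) = 2 * (τ h - τ' h) := by
        rw [map_sub, map_sub, map_add, map_add, h3]; ring
      rw [h4, norm_mul] at h2
      have h5 : ‖(2 : ℂ)‖ = 2 := by simp
      rw [h5] at h2
      rw [pow_succ]
      linarith
  have h2 : ∀ h : Alg N, 0 ≤ h.val → h.val ≤ 1 → τ h = τ' h := by
    intro h h0 h1'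
    have h3 : ‖τ h - τ' h‖ ≤ 0 := by
      refine ge_of_tendsto' (tendsto_pow_atTop_nhds_zero_of_lt_one (by norm_num)
        (by norm_num : (1 / 2 : ℝ) < 1)) fun n => h1 n h h0 h1'
    exact sub_eq_zero.1 (norm_le_zero_iff.1 h3)
  have hnt : Nontrivial (H →L[ℂ] H) := by
    by_contra hn
    rw [not_nontrivial_iff_subsingleton] at hn
    have h4 : (1 : Alg N) = 0 := Alg.val_injective (Subsingleton.elim _ _)
    have h5 := hτ.map_one
    rw [h4, map_zero] at h5
    exact zero_ne_one h5
  have h3 : ∀ a : Alg N, star a = a → τ a = τ' a := by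
    intro a ha
    have hsa : IsSelfAdjoint a.val := congrArg Alg.val ha
    set r : ℝ := ‖a.val‖ + 1 with hr
    have hrpos : 0 < r := by positivity
    have hle : a.val ≤ algebraMap ℝ _ r :=
      (hsa.le_algebraMap_norm_self).trans (by
        rw [algebraMap_le_algebraMap]; linarith)
    have hge : -algebraMap ℝ (H →L[ℂ] H) r ≤ a.val :=
      le_trans (by
        rw [neg_le_neg_iff, algebraMap_le_algebraMap]; linarith)
        hsa.neg_algebraMap_norm_le_self
    set h : Alg N := ((1 / 2 : ℝ) : ℂ) • (1 + ((r⁻¹ : ℝ) : ℂ) • a) with hh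
    have hval : h.val = (1 / 2 : ℝ) • ((1 : H →L[ℂ] H) + (r⁻¹ : ℝ) • a.val) := rfl
    have e1 : (r⁻¹ : ℝ) • algebraMap ℝ (H →L[ℂ] H) r = 1 := by
      rw [Algebra.algebraMap_eq_smul_one, smul_smul, inv_mul_cancel₀ hrpos.ne', one_smul]
    have hu : (r⁻¹ : ℝ) • a.val ≤ 1 := by
      rw [← e1]; exact smul_le_smul_of_nonneg_left hle (by positivity)
    have hl : -1 ≤ (r⁻¹ : ℝ) • a.val := by
      rw [← e1, ← smul_neg]; exact smul_le_smul_of_nonneg_left hge (by positivity)
    have h0 : 0 ≤ h.val := by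
      rw [hval]
      apply smul_nonneg (by norm_num)
      have h4 := add_le_add_left hl 1
      rw [neg_add_cancel, add_comm] at h4
      exact h4
    have h1' : h.val ≤ 1 := by
      rw [hval]
      have h4 : (1 : H →L[ℂ] H) + (r⁻¹ : ℝ) • a.val ≤ (2 : ℝ) • (1 : H →L[ℂ] H) := by
        rw [two_smul, add_comm]; exact add_le_add_left hu 1
      have h5 := smul_le_smul_of_nonneg_left h4 (by norm_num : (0 : ℝ) ≤ 1 / 2)
      rw [smul_smul] at h5
      norm_num at h5
      simpa using h5
    have h6 := h2 h h0 h1'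
    rw [hh, map_smul, map_smul, map_add, map_add, map_smul, map_smul, hτ.map_one,
      hτ'.map_one] at h6
    have h7 : ((1 / 2 : ℝ) : ℂ) ≠ 0 := by norm_num
    have h8 : ((r⁻¹ : ℝ) : ℂ) ≠ 0 := by exact_mod_cast (inv_pos.2 hrpos).ne'
    simp only [smul_eq_mul] at h6
    have h9 := mul_left_cancel₀ h7 h6
    exact mul_left_cancel₀ h8 (add_left_cancel h9)
  have h4 := h3 (x + star x) (by rw [star_add, star_star, add_comm])
  have h5 := h3 (Complex.I • (x - star x)) (by
    rw [star_smul, star_sub, star_star]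
    have : star Complex.I = -Complex.I := Complex.conj_I
    rw [this]
    rw [show (-Complex.I) • (star x - x) = Complex.I • (x - star x) from by
      rw [Algebra.smul_def, Algebra.smul_def, map_neg, neg_mul, ← mul_neg, neg_sub]])
  rw [map_smul, map_smul, smul_eq_mul, smul_eq_mul] at h5
  have h6 := mul_left_cancel₀ Complex.I_ne_zero h5
  have h7 : x + x = (x + star x) + (x - star x) := by abel
  have h8 : τ (x + x) = τ' (x + x) := by
    rw [h7, map_add, map_add τ', h4, h6]
  rw [map_add, map_add, ← two_mul, ← two_mul] at h8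
  exact mul_left_cancel₀ two_ne_zero h8

/-- Automorphisms of a II₁ factor preserve the trace. -/
theorem trace_aut {τ : Alg N →ₗ[ℂ] ℂ} (hτ : IsFaithfulTracialState τ)
    (hd : HasContinuousDimension τ) (β : Alg N ≃⋆ₐ[ℂ] Alg N) (x : Alg N) : τ (β x) = τ x := by
  let τ' : Alg N →ₗ[ℂ] ℂ :=
    { toFun := fun x => τ (β x)
      map_add' := fun x y => by rw [map_add, map_add]
      map_smul' := fun c x => by rw [map_smul, map_smul]; rfl }
  have hτ' : IsFaithfulTracialState τ' :=
    { map_one := by show τ (β 1) = 1; rw [map_one, hτ.map_one]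
      nonneg := fun x => by
        show 0 ≤ τ (β (star x * x))
        rw [map_mul, map_star]; exact hτ.nonneg _
      faithful := fun x hx => by
        have h1 : τ (star (β x) * β x) = 0 := by rw [← map_star, ← map_mul]; exact hx
        have h2 := hτ.faithful _ h1
        have h3 : β x = β 0 := by rw [h2, map_zero]
        exact β.injective h3
      comm := fun x y => by
        show τ (β (x * y)) = τ (β (y * x))
        rw [map_mul β, map_mul β, hτ.comm] }
  exact (trace_unique hτ hd hτ' x).symm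

end TraceUnique2

end Pool.Agent.Results.MP_07e70b_an.FiniteIndex
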