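import Pool.Agent.Helper28.VC.Ext7

/-!
# The fixed points of an automorphism of finite order form a von Neumann algebra
-/

set_option autoImplicit false
set_option linter.unusedSectionVars false
open Filter Topology
open scoped ComplexOrder InnerProductSpace
universe u v w

namespace Pool.Agent.Results.MP_07e70b_an.FiniteIndex

section Amp

variable {H : Type u} [NormedAddCommGroup H] [InnerProductSpace ℂ H] [CompleteSpace H]

/-- The Hilbert space `ℓ²(ℕ, H)`. -/
abbrev L2H (H : Type u) [NormedAddCommGroup H] : Type u := lp (fun _ : ℕ => H) 2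

noncomputable def ampFun (x : H →L[ℂ] H) (f : L2H H) : L2H H :=
  ⟨fun n => x (f n), by
    have h2 := (lp.memℓp f).summable (by norm_num : 0 < (2 : ENNReal).toReal)
    refine memℓp_gen ((h2.mul_left (‖x‖ ^ (2 : ENNReal).toReal)).of_nonneg_of_le
      (fun n => by positivity) (fun n => ?_))
    rw [← Real.mul_rpow (norm_nonneg _) (norm_nonneg _)]
    exact Real.rpow_le_rpow (norm_nonneg _) (x.le_opNorm _) (by norm_num)⟩

theorem ampFun_apply (x : H →L[ℂ] H) (f : L2H H) (n : ℕ) : ampFun x f n = x (f n) := rfl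

noncomputable def amp (x : H →L[ℂ] H) : L2H H →L[ℂ] L2H H :=
  LinearMap.mkContinuous
    { toFun := ampFun x
      map_add' := fun f g => by
        apply lp.ext; funext n
        show x ((f + g) n) = x (f n) + x (g n)
        rw [lp.coeFn_add, Pi.add_apply, map_add]
      map_smul' := fun c f => by
        apply lp.ext; funext n
        show x ((c • f) n) = c • x (f n)
        rw [lp.coeFn_smul, Pi.smul_apply, map_smul] } ‖x‖ (fun f => by
    show ‖ampFun x f‖ ≤ ‖x‖ * ‖f‖
    have h0 : 0 < (2 : ENNReal).toReal := by norm_num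
    refine lp.norm_le_of_forall_sum_le h0 (by positivity) fun s => ?_
    calc ∑ i ∈ s, ‖ampFun x f i‖ ^ (2 : ENNReal).toReal
        ≤ ∑ i ∈ s, ‖x‖ ^ (2 : ENNReal).toReal * ‖f i‖ ^ (2 : ENNReal).toReal := by
          refine Finset.sum_le_sum fun i _ => ?_
          rw [← Real.mul_rpow (norm_nonneg _) (norm_nonneg _)]
          exact Real.rpow_le_rpow (norm_nonneg _) (x.le_opNorm _) (by norm_num)
      _ = ‖x‖ ^ (2 : ENNReal).toReal * ∑ i ∈ s, ‖f i‖ ^ (2 : ENNReal).toReal := by
          rw [Finset.mul_sum]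
      _ ≤ ‖x‖ ^ (2 : ENNReal).toReal * ‖f‖ ^ (2 : ENNReal).toReal := by
          gcongr
          exact lp.sum_rpow_le_norm_rpow h0 f s
      _ = (‖x‖ * ‖f‖) ^ (2 : ENNReal).toReal := by
          rw [← Real.mul_rpow (norm_nonneg _) (norm_nonneg _)])

theorem amp_apply (x : H →L[ℂ] H) (f : L2H H) (n : ℕ) : amp x f n = x (f n) := rfl

theorem amp_inner (x : H →L[ℂ] H) (f g : L2H H) :
    inner ℂ (amp x f) g = inner ℂ f (amp (star x) g) := by
  rw [lp.inner_eq_tsum, lp.inner_eq_tsum]
  congr 1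
  funext n
  rw [amp_apply, amp_apply]
  exact (ContinuousLinearMap.adjoint_inner_right x (f n) (g n)).symm

/-- An element of `S''` orthogonal to `S` is zero. -/
theorem eq_zero_of_mem_centralizer {N : VonNeumannAlgebra H} {τ : Alg N →ₗ[ℂ] ℂ}
    (hτ : IsFaithfulTracialState τ) (hn : IsNormalState τ)
    (S : StarSubalgebra ℂ (H →L[ℂ] H)) (hSN : ∀ m ∈ S, m ∈ N) (d : Alg N)
    (hd : ∀ t : H →L[ℂ] H, (∀ m ∈ S, m * t = t * m) → t * d.val = d.val * t)
    (hS : ∀ m (hm : m ∈ S), τ (star (Alg.mk m (hSN m hm)) * d) = 0) : d = 0 := by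
  obtain ⟨ξ, hξ, hsum⟩ := hn
  -- the vector
  let Ξ : L2H H := ⟨ξ, memℓp_gen (by
    have : (2 : ENNReal).toReal = ((2 : ℕ) : ℝ) := by norm_num
    simpa [this, Real.rpow_natCast] using hξ)⟩
  have hΞ : ∀ n, Ξ n = ξ n := fun _ => rfl
  let L0 : Submodule ℂ (L2H H) :=
    { carrier := {f | ∃ m ∈ S, f = amp m Ξ}
      zero_mem' := ⟨0, zero_mem _, by
        apply lp.ext; funext n
        rw [amp_apply]; rfl⟩
      add_mem' := by
        rintro _ _ ⟨m, hm, rfl⟩ ⟨m', hm', rfl⟩
        refine ⟨m + m', add_mem hm hm', ?_⟩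
        apply lp.ext; funext n
        rw [lp.coeFn_add, Pi.add_apply, amp_apply, amp_apply, amp_apply]; rfl
      smul_mem' := by
        rintro c _ ⟨m, hm, rfl⟩
        refine ⟨c • m, S.smul_mem hm c, ?_⟩
        apply lp.ext; funext n
        rw [lp.coeFn_smul, Pi.smul_apply, amp_apply, amp_apply]; rfl }
  let L : Submodule ℂ (L2H H) := L0.topologicalClosure
  have : CompleteSpace L := (L0.isClosed_topologicalClosure).completeSpace_coe
  let T : L2H H →L[ℂ] L2H H := L.starProjection
  -- invariance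
  have hinv : ∀ m ∈ S, ∀ f ∈ L, amp m f ∈ L := by
    intro m hm f hf
    have h1 : Set.MapsTo (amp m) (L0 : Set (L2H H)) (L0 : Set (L2H H)) := by
      rintro _ ⟨m', hm', rfl⟩
      refine ⟨m * m', mul_mem hm hm', ?_⟩
      apply lp.ext; funext n
      rw [amp_apply, amp_apply, amp_apply]; rfl
    exact (h1.closure (amp m).continuous) hf
  have hcomm : ∀ m ∈ S, ∀ f, T (amp m f) = amp m (T f) := by
    intro m hm f
    refine Submodule.eq_starProjection_of_mem_of_inner_eq_zero
      (hinv m hm _ (L.starProjection_apply_mem f)) fun w hw => ?_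
    rw [← map_sub, amp_inner]
    exact L.starProjection_inner_eq_zero f _ (hinv (star m) (star_mem hm) w hw)
  -- entries of `T`
  have hdT : T (amp d.val Ξ) = amp d.val (T Ξ) := by
    classical
    apply lp.ext; funext i
    have h1 : ∀ f : L2H H, HasSum (fun j => T (lp.single 2 j (f j)) i) (T f i) := by
      intro f
      have h2 := lp.hasSum_single (E := fun _ : ℕ => H) (by norm_num : (2 : ENNReal) ≠ ⊤) f
      have h3 := h2.mapL ((lp.evalCLM ℂ (fun _ : ℕ => H) 2 i).comp T)
      exact h3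
    have h2 := h1 (amp d.val Ξ)
    have h3 := (h1 Ξ).mapL d.val
    have h4 : ∀ j, T (lp.single 2 j (amp d.val Ξ j)) i = d.val (T (lp.single 2 j (Ξ j)) i) := by
      intro j
      let t : H →L[ℂ] H := ((lp.evalCLM ℂ (fun _ : ℕ => H) 2 i).comp T).comp
        (lp.singleContinuousLinearMap ℂ (fun _ : ℕ => H) 2 j)
      have h5 : t * d.val = d.val * t := by
        apply hd
        intro m hm
        ext v
        show m (T (lp.single 2 j v) i) = T (lp.single 2 j (m v)) i
        have h6 : (lp.single 2 j (m v) : L2H H) = amp m (lp.single 2 j v) := by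
          apply lp.ext; funext k
          rw [amp_apply, lp.single_apply, lp.single_apply]
          by_cases hk : k = j
          · subst hk; simp
          · rw [Pi.single_eq_of_ne hk, Pi.single_eq_of_ne hk, map_zero]
        rw [h6, hcomm m hm]; rfl
      exact congrArg (fun s : H →L[ℂ] H => s (Ξ j)) h5
    rw [amp_apply]
    simp only [h4] at h2
    exact h2.unique h3
  have hΞL : Ξ ∈ L := L0.le_topologicalClosure ⟨1, one_mem _, by
    apply lp.ext; funext n
    rw [amp_apply]; rfl⟩
  have hTΞ : T Ξ = Ξ := Submodule.starProjection_eq_self_iff.2 hΞL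
  rw [hTΞ] at hdT
  have hdL : amp d.val Ξ ∈ L := Submodule.starProjection_eq_self_iff.1 hdT
  -- orthogonality
  have horth : ∀ f ∈ L, inner ℂ f (amp d.val Ξ) = 0 := by
    intro f hf
    have hcl : IsClosed {f : L2H H | inner ℂ f (amp d.val Ξ) = 0} :=
      isClosed_eq (by fun_prop) continuous_const
    refine (closure_minimal (t := {f : L2H H | inner ℂ f (amp d.val Ξ) = 0}) ?_ hcl) hf
    rintro _ ⟨m, hm, rfl⟩
    show inner ℂ (amp m Ξ) (amp d.val Ξ) = 0
    rw [amp_inner, lp.inner_eq_tsum]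
    have h5 := (hsum (star (Alg.mk m (hSN m hm)) * d)).tsum_eq
    rw [hS m hm] at h5
    exact h5
  have h0 : amp d.val Ξ = 0 := inner_self_eq_zero.1 (horth _ hdL)
  have h1 : ∀ n, d.val (ξ n) = 0 := fun n => by
    have := congrArg (fun f : L2H H => f n) h0
    exact this
  apply hτ.faithful
  have h2 := hsum (star d * d)
  have h3 : ∀ n, inner ℂ (ξ n) ((star d * d).val (ξ n)) = 0 := by
    intro n
    show inner ℂ (ξ n) (star d.val (d.val (ξ n))) = 0
    rw [h1, map_zero, inner_zero_right]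
  simp only [h3] at h2
  exact h2.unique hasSum_zero

end Amp

section Fixed

theorem sum_sub_const_aux {A : Type u} [Ring A] (f : ℕ → A) (P : A) (p : ℕ) :
    ∑ k ∈ Finset.range p, (f k - P) = ∑ k ∈ Finset.range p, f k - p • P := by
  rw [Finset.sum_sub_distrib, Finset.sum_const, Finset.card_range]

variable {H : Type u} [NormedAddCommGroup H] [InnerProductSpace ℂ H] [CompleteSpace H]
variable {N : VonNeumannAlgebra H}

/-- The averaging map. -/
noncomputable def avg (β : Alg N ≃⋆ₐ[ℂ] Alg N) (p : ℕ) (x : Alg N) : Alg N :=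
  ∑ k ∈ Finset.range p, (⇑β)^[k] x

theorem avg_fixed (β : Alg N ≃⋆ₐ[ℂ] Alg N) (p : ℕ) (hβ : ∀ x, (⇑β)^[p] x = x) (x : Alg N) :
    β (avg β p x) = avg β p x := by
  have h1 : β (avg β p x) = ∑ k ∈ Finset.range p, (⇑β)^[k + 1] x := by
    rw [avg, map_sum]
    refine Finset.sum_congr rfl fun k _ => ?_
    rw [Function.iterate_succ_apply']
  rw [h1, avg]
  have h2 := Finset.sum_range_succ (fun k => (⇑β)^[k] x) p
  have h3 := Finset.sum_range_succ' (fun k => (⇑β)^[k] x) p
  rw [h2, hβ] at h3
  simp only [Function.iterate_zero, id] at h3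
  exact (add_right_cancel h3).symm

theorem iter_fixed (β : Alg N ≃⋆ₐ[ℂ] Alg N) {x : Alg N} (hx : β x = x) (k : ℕ) :
    (⇑β)^[k] x = x := by
  induction k with
  | zero => rfl
  | succ k ih => rw [Function.iterate_succ_apply, hx, ih]

theorem iter_mul (β : Alg N ≃⋆ₐ[ℂ] Alg N) (x y : Alg N) (k : ℕ) :
    (⇑β)^[k] (x * y) = (⇑β)^[k] x * (⇑β)^[k] y := by
  induction k with
  | zero => rfl
  | succ k ih =>
    rw [Function.iterate_succ_apply', ih, map_mul, Function.iterate_succ_apply',
      Function.iterate_succ_apply']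

theorem iter_sub (β : Alg N ≃⋆ₐ[ℂ] Alg N) (x y : Alg N) (k : ℕ) :
    (⇑β)^[k] (x - y) = (⇑β)^[k] x - (⇑β)^[k] y := by
  induction k with
  | zero => rfl
  | succ k ih =>
    rw [Function.iterate_succ_apply', ih, map_sub, Function.iterate_succ_apply',
      Function.iterate_succ_apply']

/-- The fixed points of an automorphism. -/
noncomputable def fixedSub (β : Alg N ≃⋆ₐ[ℂ] Alg N) : StarSubalgebra ℂ (H →L[ℂ] H) where
  carrier := {x | ∃ h : x ∈ N, β (Alg.mk x h) = Alg.mk x h}
  mul_mem' := by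
    rintro x y ⟨hx, hx'⟩ ⟨hy, hy'⟩
    refine ⟨mul_mem hx hy, ?_⟩
    show β (Alg.mk x hx * Alg.mk y hy) = Alg.mk x hx * Alg.mk y hy
    rw [map_mul, hx', hy']
  add_mem' := by
    rintro x y ⟨hx, hx'⟩ ⟨hy, hy'⟩
    refine ⟨add_mem hx hy, ?_⟩
    show β (Alg.mk x hx + Alg.mk y hy) = Alg.mk x hx + Alg.mk y hy
    rw [map_add, hx', hy']
  algebraMap_mem' := by
    intro r
    refine ⟨(algebraMap ℂ (Alg N) r).2, ?_⟩
    show β (algebraMap ℂ (Alg N) r) = algebraMap ℂ (Alg N) r
    exact AlgHomClass.commutes β r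
  star_mem' := by
    rintro x ⟨hx, hx'⟩
    refine ⟨star_mem hx, ?_⟩
    show β (star (Alg.mk x hx)) = star (Alg.mk x hx)
    rw [map_star, hx']

theorem mem_fixedSub (β : Alg N ≃⋆ₐ[ℂ] Alg N) (x : H →L[ℂ] H) :
    x ∈ fixedSub β ↔ ∃ h : x ∈ N, β (Alg.mk x h) = Alg.mk x h := Iff.rfl

/-- The fixed points of an automorphism of finite order form a von Neumann algebra. -/
theorem exists_fixedVN {τ : Alg N →ₗ[ℂ] ℂ} (hτ : IsFaithfulTracialState τ)
    (hn : IsNormalState τ) (β : Alg N ≃⋆ₐ[ℂ] Alg N) (hβτ : ∀ x, τ (β x) = τ x) {p : ℕ}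
    (hp : 0 < p) (hβ : ∀ x, (⇑β)^[p] x = x) :
    ∃ M : VonNeumannAlgebra H, ∀ x : H →L[ℂ] H,
      x ∈ M ↔ ∃ h : x ∈ N, β (Alg.mk x h) = Alg.mk x h := by
  refine ⟨⟨fixedSub β, ?_⟩, fun x => Iff.rfl⟩
  apply Set.Subset.antisymm
  · intro x hx
    rw [Set.mem_centralizer_iff] at hx
    have hxN : x ∈ N := by
      rw [← VonNeumannAlgebra.commutant_commutant N, VonNeumannAlgebra.mem_commutant_iff]
      intro y hy
      apply hx
      rw [Set.mem_centralizer_iff]
      rintro m ⟨hm, -⟩
      rw [VonNeumannAlgebra.mem_commutant_iff] at hy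
      exact hy m hm
    set X : Alg N := Alg.mk x hxN with hX
    set P : Alg N := ((p : ℂ)⁻¹) • avg β p X with hP
    have hp0 : (p : ℂ) ≠ 0 := by exact_mod_cast hp.ne'
    have hPfix : β P = P := by rw [hP, map_smul, avg_fixed β p hβ]
    have hd0 : X - P = 0 := by
      refine eq_zero_of_mem_centralizer hτ hn (fixedSub β) (fun m hm => hm.1) (X - P) ?_ ?_
      · intro t ht
        have h1 : t * x = x * t := hx t ((Set.mem_centralizer_iff).2 fun m hm => ht m hm)
        have h2 : P.val * t = t * P.val := ht P.val ⟨P.2, hPfix⟩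
        show t * (x - P.val) = (x - P.val) * t
        rw [mul_sub, sub_mul, h1, h2]
      · intro m hm
        set m' : Alg N := Alg.mk m hm.1 with hm'
        have hmf : β (star m') = star m' := by rw [map_star, hm.2]
        have hk : ∀ k y, τ ((⇑β)^[k] y) = τ y := by
          intro k y
          induction k with
          | zero => rfl
          | succ k ih => rw [Function.iterate_succ_apply', hβτ, ih]
        have h1 : ∑ k ∈ Finset.range p, (⇑β)^[k] (star m' * (X - P)) = 0 := by
          have h2 : ∀ k, (⇑β)^[k] (star m' * (X - P)) = star m' * ((⇑β)^[k] X - P) := by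
            intro k
            rw [iter_mul, iter_sub, iter_fixed β hmf, iter_fixed β hPfix]
          simp only [h2]
          have h3 : (p : ℕ) • P = avg β p X := by
            rw [hP, ← Nat.cast_smul_eq_nsmul ℂ, smul_smul, mul_inv_cancel₀ hp0, one_smul]
          have h5 : ∑ k ∈ Finset.range p, ((⇑β)^[k] X - P) = 0 := by
            refine (sum_sub_const_aux (fun k => (⇑β)^[k] X) P p).trans ?_
            rw [h3]; exact sub_self _
          have h6 : star m' * ∑ k ∈ Finset.range p, ((⇑β)^[k] X - P) =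
              ∑ k ∈ Finset.range p, star m' * ((⇑β)^[k] X - P) := Finset.mul_sum _ _ _
          rw [← h6, h5, mul_zero]
        have h4 := congrArg τ h1
        rw [map_sum, map_zero] at h4
        simp only [hk] at h4
        rw [Finset.sum_const, Finset.card_range, nsmul_eq_mul] at h4
        exact (mul_eq_zero.1 h4).resolve_left hp0
    have h1 : X = P := sub_eq_zero.1 hd0
    refine ⟨hxN, ?_⟩
    show β X = X
    rw [h1, hPfix]
  · exact Set.subset_centralizer_centralizer

end Fixed

end Pool.Agent.Results.MP_07e70b_an.FiniteIndex
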