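import Pool.Agent.Helper28.VC.Ext8

/-!
# The fixed point algebra of an outer automorphism of prime order has trivial center
-/

set_option autoImplicit false
set_option linter.unusedSectionVars false
open Filter Topology
open scoped ComplexOrder InnerProductSpace
universe u v w

namespace Pool.Agent.Results.MP_07e70b_an.FiniteIndex

section Spectral

variable {V : Type*} [AddCommGroup V] [Module ℂ V]

theorem iterate_mem {W : Submodule ℂ V} {T : V →ₗ[ℂ] V} (hW : ∀ x ∈ W, T x ∈ W) {x : V}
    (hx : x ∈ W) (i : ℕ) : (⇑T)^[i] x ∈ W := by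
  induction i with
  | zero => exact hx
  | succ i ih => rw [Function.iterate_succ_apply']; exact hW _ ih

theorem spectral (T : V →ₗ[ℂ] V) {p : ℕ} (hp : p.Prime) {ω : ℂ} (hω : IsPrimitiveRoot ω p)
    (hT : ∀ x, (⇑T)^[p] x = x) (W : Submodule ℂ V) (hW : ∀ x ∈ W, T x ∈ W) (x : V)
    (hx : x ∈ W) : ∃ y : ℕ → V, (∀ k, y k ∈ W) ∧ (∀ k, T (y k) = ω ^ k • y k) ∧
      x = ∑ k ∈ Finset.range p, y k := by
  have hω0 : ω ≠ 0 := hω.ne_zero hp.ne_zero
  have hp0 : (p : ℂ) ≠ 0 := by exact_mod_cast hp.ne_zero
  refine ⟨fun k => (p : ℂ)⁻¹ • ∑ i ∈ Finset.range p, (ω⁻¹) ^ (i * k) • (⇑T)^[i] x, ?_, ?_, ?_⟩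
  · intro k
    exact W.smul_mem _ (W.sum_mem fun i _ => W.smul_mem _ (iterate_mem hW hx i))
  · intro k
    show T ((p : ℂ)⁻¹ • ∑ i ∈ Finset.range p, (ω⁻¹) ^ (i * k) • (⇑T)^[i] x) =
      ω ^ k • ((p : ℂ)⁻¹ • ∑ i ∈ Finset.range p, (ω⁻¹) ^ (i * k) • (⇑T)^[i] x)
    rw [map_smul, map_sum, smul_comm (ω ^ k) ((p : ℂ)⁻¹)]
    congr 1
    rw [Finset.smul_sum]
    set a : ℕ → V := fun i => ω ^ k • ((ω⁻¹) ^ (i * k) • (⇑T)^[i] x) with ha
    have h1 : ∀ i, T ((ω⁻¹) ^ (i * k) • (⇑T)^[i] x) = a (i + 1) := by
      intro i
      rw [ha, map_smul]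
      show _ = ω ^ k • ((ω⁻¹) ^ ((i + 1) * k) • (⇑T)^[i + 1] x)
      rw [Function.iterate_succ_apply', smul_smul, add_mul, one_mul, pow_add]
      congr 1
      have : ω ^ k * ((ω⁻¹) ^ (i * k) * (ω⁻¹) ^ k) = (ω⁻¹) ^ (i * k) * (ω * ω⁻¹) ^ k := by
        rw [mul_pow]; ring
      rw [this, mul_inv_cancel₀ hω0, one_pow, mul_one]
    simp only [h1]
    have h2 := Finset.sum_range_succ a p
    have h3 := Finset.sum_range_succ' a p
    have h4 : a p = a 0 := by
      rw [ha]
      show ω ^ k • ((ω⁻¹) ^ (p * k) • (⇑T)^[p] x) = ω ^ k • ((ω⁻¹) ^ (0 * k) • (⇑T)^[0] x)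
      rw [hT, pow_mul, inv_pow, hω.pow_eq_one, inv_one, one_pow, zero_mul, pow_zero]
      rfl
    rw [h2, h4] at h3
    exact (add_right_cancel h3).symm
  · rw [← Finset.smul_sum, Finset.sum_comm]
    have h1 : ∀ i ∈ Finset.range p, ∑ k ∈ Finset.range p, (ω⁻¹) ^ (i * k) • (⇑T)^[i] x =
        if i = 0 then (p : ℂ) • x else 0 := by
      intro i hi
      rw [← Finset.sum_smul]
      by_cases h0 : i = 0
      · subst h0
        simp
      · rw [if_neg h0]
        have h2 : (ω⁻¹) ^ i ≠ 1 := by
          intro h
          rw [inv_pow, inv_eq_one] at h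
          exact h0 (Nat.eq_zero_of_dvd_of_lt (hω.dvd_of_pow_eq_one i h) (Finset.mem_range.1 hi))
        have h3 : ∑ k ∈ Finset.range p, (ω⁻¹) ^ (i * k) = 0 := by
          simp only [pow_mul]
          rw [geom_sum_eq h2, ← pow_mul, mul_comm, pow_mul, inv_pow, hω.pow_eq_one, inv_one,
            one_pow, sub_self, zero_div]
        rw [h3, zero_smul]
    rw [Finset.sum_congr rfl h1, Finset.sum_ite_eq' (Finset.range p) 0 (fun _ => (p : ℂ) • x),
      if_pos (Finset.mem_range.2 hp.pos), smul_smul, inv_mul_cancel₀ hp0, one_smul]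

end Spectral

section Abstract

variable {A : Type u} [Ring A] [StarRing A] [Algebra ℂ A] [StarModule ℂ A]

theorem inner_iterate {φ : A → A} {k : unitary A}
    (h : ∀ a, φ a = (k : A) * a * star (k : A)) (n : ℕ) (a : A) :
    φ^[n] a = ((k ^ n : unitary A) : A) * a * star ((k ^ n : unitary A) : A) := by
  induction n generalizing a with
  | zero => simp
  | succ n ih =>
    rw [Function.iterate_succ_apply, ih, h, pow_succ]
    simp only [Submonoid.coe_mul, star_mul, mul_assoc]

/-- If a power of an automorphism of prime order is inner, the automorphism is inner. -/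
theorem inner_of_iterate {φ : A → A} {p : ℕ} (hp : p.Prime) (hφ : ∀ x, φ^[p] x = x) {j : ℕ}
    (hj0 : j ≠ 0) (hjp : j < p) {k : unitary A}
    (h : ∀ a, φ^[j] a = (k : A) * a * star (k : A)) :
    ∃ k : unitary A, ∀ a, φ a = (k : A) * a * star (k : A) := by
  have hcop : Nat.Coprime j p := by
    rw [Nat.coprime_comm]
    exact (Nat.Prime.coprime_iff_not_dvd hp).2 fun hd =>
      hj0 (Nat.eq_zero_of_dvd_of_lt hd hjp)
  obtain ⟨n, -, hn⟩ := Nat.exists_mul_mod_eq_one_of_coprime hcop hp.one_lt
  refine ⟨k ^ n, fun a => ?_⟩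
  have hφm : ∀ (m : ℕ) (x : A), φ^[p * m] x = x := by
    intro m x
    induction m generalizing x with
    | zero => rfl
    | succ m ih => rw [Nat.mul_succ, Function.iterate_add_apply, hφ, ih]
  have h1 : φ^[j * n] a = φ a := by
    have h2 : j * n = 1 + p * (j * n / p) := by
      have := Nat.mod_add_div (j * n) p
      rw [hn] at this
      exact this.symm
    rw [h2, Function.iterate_add_apply, hφm]; rfl
  rw [← h1, Function.iterate_mul]
  exact inner_iterate h n a

/-- The data of the outer case. -/
structure OuterData (β : A ≃⋆ₐ[ℂ] A) (p : ℕ) (ω : ℂ) (v : A) : Prop where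
  prime : p.Prime
  prim : IsPrimitiveRoot ω p
  iter : ∀ x, (⇑β)^[p] x = x
  star_mul : star v * v = 1
  mul_star : v * star v = 1
  pow : v ^ p = 1
  map : β v = ω • v

variable {β : A ≃⋆ₐ[ℂ] A} {p : ℕ} {ω : ℂ} {v : A}

theorem OuterData.conj_mul (h : OuterData β p ω v) : star ω * ω = 1 := by
  have h1 : ‖ω‖ = 1 := h.prim.norm'_eq_one h.prime.ne_zero
  rw [mul_comm]
  show ω * (starRingEnd ℂ) ω = 1
  rw [Complex.mul_conj, Complex.normSq_eq_norm_sq, h1]; norm_num

theorem OuterData.map_pow (h : OuterData β p ω v) (k : ℕ) : β (v ^ k) = ω ^ k • v ^ k := by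
  rw [_root_.map_pow, h.map, smul_pow]

theorem OuterData.map_star_pow (h : OuterData β p ω v) (k : ℕ) :
    β (star v ^ k) = star ω ^ k • star v ^ k := by
  rw [_root_.map_pow, map_star, h.map, star_smul, smul_pow]

theorem OuterData.star_pow_mul (h : OuterData β p ω v) (k : ℕ) : star v ^ k * v ^ k = 1 := by
  induction k with
  | zero => simp
  | succ k ih =>
    rw [pow_succ, pow_succ', mul_assoc, ← mul_assoc (star v) v, h.star_mul, one_mul, ih]

theorem OuterData.gen (h : OuterData β p ω v) (x : A) :
    ∃ m : ℕ → A, (∀ k, β (m k) = m k) ∧ x = ∑ k ∈ Finset.range p, m k * v ^ k := by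
  let T : A →ₗ[ℂ] A := β.toAlgEquiv.toLinearMap
  have hT : ∀ x, T x = β x := fun _ => rfl
  obtain ⟨y, -, hy, hsum⟩ := spectral T h.prime h.prim h.iter ⊤ (fun _ _ => trivial) x trivial
  refine ⟨fun k => y k * star v ^ k, fun k => ?_, ?_⟩
  · rw [map_mul, h.map_star_pow, ← hT, hy, smul_mul_smul_comm, mul_comm (ω ^ k), ← mul_pow,
      h.conj_mul, one_pow, one_smul]
  · rw [hsum]
    refine Finset.sum_congr rfl fun k _ => ?_
    rw [mul_assoc, h.star_pow_mul, mul_one]

theorem OuterData.central (h : OuterData β p ω v) {z : A} (h1 : ∀ m, β m = m → z * m = m * z)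
    (h2 : z * v = v * z) (x : A) : z * x = x * z := by
  obtain ⟨m, hm, rfl⟩ := h.gen x
  rw [Finset.mul_sum, Finset.sum_mul]
  refine Finset.sum_congr rfl fun k _ => ?_
  have h3 : z * v ^ k = v ^ k * z := (Commute.pow_right (h2 : Commute z v) k)
  rw [← mul_assoc, h1 _ (hm k), mul_assoc, h3, mul_assoc]

/-- The center of the fixed point algebra is trivial. -/
theorem OuterData.scalar (h : OuterData β p ω v) {τ : A →ₗ[ℂ] ℂ}
    (hτ : IsFaithfulTracialState τ)
    (hcen : ∀ z : A, (∀ x : A, z * x = x * z) → ∃ c : ℂ, z = algebraMap ℂ A c)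
    (hout : ¬ ∃ k : unitary A, ∀ a, β a = (k : A) * a * star (k : A))
    (z : A) (hz : β z = z) (hzc : ∀ m, β m = m → z * m = m * z) :
    ∃ c : ℂ, z = algebraMap ℂ A c := by
  let W : Submodule ℂ A :=
    { carrier := {z | β z = z ∧ ∀ m, β m = m → z * m = m * z}
      zero_mem' := ⟨map_zero _, fun m _ => by rw [zero_mul, mul_zero]⟩
      add_mem' := by
        rintro a b ⟨ha, ha'⟩ ⟨hb, hb'⟩
        refine ⟨by rw [map_add, ha, hb], fun m hm => ?_⟩
        rw [add_mul, mul_add, ha' m hm, hb' m hm]
      smul_mem' := by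
        rintro c a ⟨ha, ha'⟩
        refine ⟨by rw [map_smul, ha], fun m hm => ?_⟩
        rw [smul_mul_assoc, mul_smul_comm, ha' m hm] }
  let T : A →ₗ[ℂ] A :=
    { toFun := fun x => v * x * star v
      map_add' := fun x y => by rw [mul_add, add_mul]
      map_smul' := fun c x => by simp }
  have hT : ∀ x, T x = v * x * star v := fun _ => rfl
  have hTk : ∀ (k : ℕ) x, (⇑T)^[k] x = v ^ k * x * star v ^ k := by
    intro k x
    induction k with
    | zero => simp
    | succ k ih =>
      rw [Function.iterate_succ_apply', ih, hT, pow_succ', pow_succ]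
      noncomm_ring
  have hTp : ∀ x, (⇑T)^[p] x = x := by
    intro x
    rw [hTk, ← star_pow, h.pow, star_one, one_mul, mul_one]
  have hfix : ∀ m, β m = m → β (star v * m * v) = star v * m * v := by
    intro m hm
    rw [map_mul, map_mul, map_star, h.map, hm, star_smul, smul_mul_assoc, smul_mul_smul_comm,
      h.conj_mul, one_smul]
  have hTW : ∀ x ∈ W, T x ∈ W := by
    rintro x ⟨hx, hx'⟩
    refine ⟨?_, fun m hm => ?_⟩
    · rw [hT, map_mul, map_mul, map_star, h.map, hx, star_smul, smul_mul_assoc,
        smul_mul_smul_comm, mul_comm ω, h.conj_mul, one_smul]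
    · have h1 := hx' _ (hfix m hm)
      rw [hT]
      calc v * x * star v * m = v * (x * (star v * m * (v * star v))) := by
            rw [h.mul_star]; noncomm_ring
        _ = v * (x * (star v * m * v)) * star v := by noncomm_ring
        _ = v * ((star v * m * v) * x) * star v := by rw [h1]
        _ = (v * star v) * m * (v * x * star v) := by noncomm_ring
        _ = m * (v * x * star v) := by rw [h.mul_star, one_mul]
  obtain ⟨y, hyW, hy, hsum⟩ := spectral T h.prime h.prim hTp W hTW z ⟨hz, hzc⟩
  have hstarfix : ∀ m, β m = m → β (star m) = star m := by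
    intro m hm; rw [map_star, hm]
  -- the products are central
  have hzero : ∀ j, j ≠ 0 → j < p → y j = 0 := by
    intro j hj0 hjp
    by_contra hne
    have hvy : v * y j * star v = ω ^ j • y j := hy j
    have hvys : v * star (y j) * star v = star ω ^ j • star (y j) := by
      have := congrArg star hvy
      rw [star_smul, StarMul.star_mul, StarMul.star_mul, star_star, star_pow] at this
      rw [← this]; noncomm_ring
    have hys : ∀ m, β m = m → star (y j) * m = m * star (y j) := by
      intro m hm
      have := congrArg star ((hyW j).2 (star m) (hstarfix m hm))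
      rw [StarMul.star_mul, StarMul.star_mul, star_star] at this
      exact this.symm
    have hone : star ω ^ j * ω ^ j = 1 := by rw [← mul_pow, h.conj_mul, one_pow]
    have hcomm1 : (star (y j) * y j) * v = v * (star (y j) * y j) := by
      have h1 : v * (star (y j) * y j) * star v = star (y j) * y j := by
        calc v * (star (y j) * y j) * star v =
            v * star (y j) * (star v * v) * y j * star v := by
              rw [h.star_mul]; noncomm_ring
          _ = (v * star (y j) * star v) * (v * y j * star v) := by noncomm_ring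
          _ = star (y j) * y j := by
              rw [hvy, hvys, smul_mul_smul_comm, hone, one_smul]
      calc (star (y j) * y j) * v = (v * (star (y j) * y j) * star v) * v := by rw [h1]
        _ = v * (star (y j) * y j) * (star v * v) := by noncomm_ring
        _ = _ := by rw [h.star_mul, mul_one]
    have hcomm2 : (y j * star (y j)) * v = v * (y j * star (y j)) := by
      have h1 : v * (y j * star (y j)) * star v = y j * star (y j) := by
        calc v * (y j * star (y j)) * star v =
            v * y j * (star v * v) * star (y j) * star v := by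
              rw [h.star_mul]; noncomm_ring
          _ = (v * y j * star v) * (v * star (y j) * star v) := by noncomm_ring
          _ = y j * star (y j) := by
              rw [hvy, hvys, smul_mul_smul_comm, mul_comm (ω ^ j), hone, one_smul]
      calc (y j * star (y j)) * v = (v * (y j * star (y j)) * star v) * v := by rw [h1]
        _ = v * (y j * star (y j)) * (star v * v) := by noncomm_ring
        _ = _ := by rw [h.star_mul, mul_one]
    obtain ⟨c, hc⟩ := hcen (star (y j) * y j) (h.central (fun m hm => by
      rw [mul_assoc, (hyW j).2 m hm, ← mul_assoc, hys m hm, mul_assoc]) hcomm1)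
    obtain ⟨c', hc'⟩ := hcen (y j * star (y j)) (h.central (fun m hm => by
      rw [mul_assoc, hys m hm, ← mul_assoc, (hyW j).2 m hm, mul_assoc]) hcomm2)
    have hτc : ∀ c : ℂ, τ (algebraMap ℂ A c) = c := by
      intro c
      rw [Algebra.algebraMap_eq_smul_one, map_smul, hτ.map_one, smul_eq_mul, mul_one]
    have hcc : c = c' := by
      rw [← hτc c, ← hτc c', ← hc, ← hc', hτ.comm]
    have hc0 : 0 ≤ c := by
      rw [← hτc c, ← hc]; exact hτ.nonneg _
    have hcne : c ≠ 0 := by
      intro h0
      apply hne
      apply hτ.faithful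
      rw [hc, h0, map_zero, map_zero]
    have hcre : (c.re : ℂ) = c := by
      rw [Complex.le_def] at hc0
      apply Complex.ext
      · simp
      · simpa using hc0.2
    have hcpos : 0 < c.re := by
      rw [Complex.le_def] at hc0
      have h1 : 0 ≤ c.re := hc0.1
      refine lt_of_le_of_ne h1 fun h2 => hcne ?_
      rw [← hcre, ← h2]; rfl
    set r : ℂ := (((Real.sqrt c.re)⁻¹ : ℝ) : ℂ) with hr
    have hrr : r * r * c = 1 := by
      have h1 : Real.sqrt c.re * Real.sqrt c.re = c.re := Real.mul_self_sqrt hcpos.le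
      have h2 : Real.sqrt c.re ≠ 0 := (Real.sqrt_pos.2 hcpos).ne'
      have h3 : (Real.sqrt c.re)⁻¹ * (Real.sqrt c.re)⁻¹ * c.re = 1 := by
        nth_rewrite 3 [← h1]
        field_simp
      have h4 := congrArg (fun t : ℝ => (t : ℂ)) h3
      simp only [Complex.ofReal_mul, Complex.ofReal_one] at h4
      rw [hcre] at h4
      exact h4
    have hrs : star r = r := Complex.conj_ofReal _
    let u : A := r • star (y j)
    have hus : star u = r • y j := by
      show star (r • star (y j)) = _
      rw [star_smul, star_star, hrs]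
    have hu1 : star u * u = 1 := by
      rw [hus]
      show r • y j * r • star (y j) = 1
      rw [smul_mul_smul_comm, hc', ← hcc, Algebra.algebraMap_eq_smul_one, smul_smul, hrr, one_smul]
    have hu2 : u * star u = 1 := by
      rw [hus]
      show r • star (y j) * r • y j = 1
      rw [smul_mul_smul_comm, hc, Algebra.algebraMap_eq_smul_one, smul_smul, hrr, one_smul]
    have hum : ∀ m, β m = m → u * m * star u = m := by
      intro m hm
      have h1 : u * m = m * u := by
        show r • star (y j) * m = m * r • star (y j)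
        rw [smul_mul_assoc, mul_smul_comm, hys m hm]
      rw [h1, mul_assoc, hu2, mul_one]
    have huv : u * v * star u = ω ^ j • v := by
      have h1 : v * y j = ω ^ j • (y j * v) := by
        calc v * y j = v * y j * (star v * v) := by rw [h.star_mul, mul_one]
          _ = (v * y j * star v) * v := by noncomm_ring
          _ = _ := by rw [hvy, smul_mul_assoc]
      have h2 : v * star u = ω ^ j • (star u * v) := by
        rw [hus, mul_smul_comm, h1, smul_mul_assoc, smul_comm]
      rw [mul_assoc, h2, mul_smul_comm, ← mul_assoc, hu2, one_mul]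
    let U : unitary A := ⟨u, by rw [Unitary.mem_iff]; exact ⟨hu1, hu2⟩⟩
    have hinner : ∀ a, (⇑β)^[j] a = (U : A) * a * star (U : A) := by
      intro a
      obtain ⟨m, hm, rfl⟩ := h.gen a
      have e1 : ∀ a : A, (⇑β)^[j] a = (β ^ j) a := by
        intro a
        have : ∀ n : ℕ, (⇑β)^[n] a = (β ^ n) a := by
          intro n
          induction n with
          | zero => rw [pow_zero]; rfl
          | succ n ih => rw [Function.iterate_succ_apply', ih, pow_succ']; rfl
        exact this j
      have e2 : ∀ k, (⇑β)^[j] (m k * v ^ k) = (U : A) * (m k * v ^ k) * star (U : A) := by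
        intro k
        have e3 : (⇑β)^[j] (m k) = m k := by
          exact Function.iterate_fixed (hm k) j
        have e4 : ∀ i, (⇑β)^[i] v = ω ^ i • v := by
          intro i
          induction i with
          | zero => simp
          | succ i ih =>
            rw [Function.iterate_succ_apply', ih, map_smul, h.map, smul_smul, pow_succ]
        have e5 : ∀ i : ℕ, u * v ^ i * star u = (u * v * star u) ^ i := by
          intro i
          induction i with
          | zero => rw [pow_zero, pow_zero, mul_one, hu2]
          | succ i ih =>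
            rw [pow_succ (u * v * star u), ← ih, pow_succ]
            calc u * (v ^ i * v) * star u = u * v ^ i * 1 * v * star u := by noncomm_ring
              _ = u * v ^ i * (star u * u) * v * star u := by rw [hu1]
              _ = _ := by noncomm_ring
        rw [e1, map_mul, _root_.map_pow, ← e1, ← e1, e3, e4]
        show _ = u * (m k * v ^ k) * star u
        calc m k * (ω ^ j • v) ^ k = (u * m k * star u) * (u * v ^ k * star u) := by
              rw [hum _ (hm k), e5, huv]
          _ = u * m k * (star u * u) * v ^ k * star u := by noncomm_ring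
          _ = _ := by rw [hu1]; noncomm_ring
      rw [e1, map_sum, Finset.mul_sum, Finset.sum_mul]
      refine Finset.sum_congr rfl fun k _ => ?_
      rw [← e1]; exact e2 k
    exact hout (inner_of_iterate h.prime h.iter hj0 hjp hinner)
  have hz0 : z = y 0 := by
    rw [hsum, Finset.sum_eq_single_of_mem 0 (Finset.mem_range.2 h.prime.pos)]
    intro j hj hj0
    exact hzero j hj0 (Finset.mem_range.1 hj)
  rw [hz0]
  apply hcen
  apply h.central (hyW 0).2
  have h0 : v * y 0 * star v = ω ^ 0 • y 0 := hy 0
  rw [pow_zero, one_smul] at h0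
  calc y 0 * v = (v * y 0 * star v) * v := by rw [h0]
    _ = v * y 0 * (star v * v) := by noncomm_ring
    _ = _ := by rw [h.star_mul, mul_one]

end Abstract

end Pool.Agent.Results.MP_07e70b_an.FiniteIndex
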