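import Pool.Agent.Helper28.VC.Defs

/-!
# Lemmas for `Pool.Agent.Results.MP_07e70b_an.FiniteIndex.result`

The comparison theory of projections of a II₁ factor (projections of the same trace are
equivalent, and there are subprojections of every smaller trace: `IsII1Factor.alg`), matrix
units, relative commutants, and the induction of a splitting from a subgroup of finite index.
-/

set_option autoImplicit false
set_option linter.unusedSectionVars false

open Filter Topology
open scoped ComplexOrder InnerProductSpace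

universe u v

namespace Pool.Agent.Results.MP_07e70b_an.FiniteIndex

section Cocycle

variable {Γ : Type v} [Group Γ] {A : Type u} [Ring A] [StarRing A] [Algebra ℂ A]

theorem CocycleAction.aut_aut (c : CocycleAction Γ A) (g h : Γ) (x : A) :
    c.aut g (c.aut h x) = (c.cocycle g h : A) * c.aut (g * h) x * star (c.cocycle g h : A) :=
  c.aut_rel g h x

theorem CocycleAction.cocycle_mul (c : CocycleAction Γ A) (g h k : Γ) :
    (c.cocycle g h : A) * (c.cocycle (g * h) k : A)
      = c.aut g (c.cocycle h k : A) * (c.cocycle g (h * k) : A) :=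
  c.cocycle_rel g h k

end Cocycle

/-! ## Inducing a splitting from a subgroup -/

section GroupPart

variable {Γ G : Type*} [Group Γ] [Group G] (a : Γ → G →* G) (u : Γ → Γ → G)

def Tt (S : Γ → G) (g γ : Γ) : G := S (g * γ) * (a g (S γ) * u g γ)⁻¹

theorem Tt_mul (h1 : ∀ g h x, a g (a h x) = u g h * a (g * h) x * (u g h)⁻¹)
    (h2 : ∀ g h k, u g h * u (g * h) k = a g (u h k) * u g (h * k))
    (S : Γ → G) (g h γ : Γ) :
    Tt a u S g (h * γ) * a g (Tt a u S h γ) * u g h = Tt a u S (g * h) γ := by
  have e1 : a g (u h γ) = u g h * u (g * h) γ * (u g (h * γ))⁻¹ := by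
    rw [h2]; group
  unfold Tt
  simp only [map_mul, map_inv, h1, e1, mul_assoc g h γ]
  group

theorem Tt_inv (h1 : ∀ g h x, a g (a h x) = u g h * a (g * h) x * (u g h)⁻¹)
    (h2 : ∀ g h k, u g h * u (g * h) k = a g (u h k) * u g (h * k))
    (S : Γ → G) (t : G) (μ : Γ) (hS : ∀ γ, S (γ * μ) = S γ * a γ t * u γ μ) (g γ : Γ) :
    Tt a u S g (γ * μ) = Tt a u S g γ := by
  have e1 : a g (u γ μ) = u g γ * u (g * γ) μ * (u g (γ * μ))⁻¹ := by
    rw [h2]; group
  unfold Tt
  rw [← mul_assoc g γ μ, hS, hS]
  simp only [map_mul, h1, e1]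
  group

variable (Λ : Subgroup Γ)

theorem out_mem (γ : Γ) : ((γ : Γ ⧸ Λ)).out⁻¹ * γ ∈ Λ := by
  rw [← QuotientGroup.eq]
  exact Quotient.out_eq' _

noncomputable def Ss (s : Λ → G) (γ : Γ) : G :=
  a ((γ : Γ ⧸ Λ)).out (s ⟨((γ : Γ ⧸ Λ)).out⁻¹ * γ, out_mem Λ γ⟩) *
    u ((γ : Γ ⧸ Λ)).out (((γ : Γ ⧸ Λ)).out⁻¹ * γ)

theorem Ss_aux (h1 : ∀ g h x, a g (a h x) = u g h * a (g * h) x * (u g h)⁻¹)
    (h2 : ∀ g h k, u g h * u (g * h) k = a g (u h k) * u g (h * k))
    (s : Λ → G) (hs : ∀ x y : Λ, s x * a x (s y) * u x y = s (x * y))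
    (r γ : Γ) (μ : Λ) (hr : r⁻¹ * γ ∈ Λ) (hr' : r⁻¹ * (γ * μ) ∈ Λ) :
    a r (s ⟨r⁻¹ * (γ * μ), hr'⟩) * u r (r⁻¹ * (γ * μ)) =
      a r (s ⟨r⁻¹ * γ, hr⟩) * u r (r⁻¹ * γ) * a γ (s μ) * u γ μ := by
  have e0 : (⟨r⁻¹ * (γ * μ), hr'⟩ : Λ) = ⟨r⁻¹ * γ, hr⟩ * μ := by
    ext; simp [mul_assoc]
  have e2 : r * (r⁻¹ * γ) = γ := by group
  have e1 : a r (u (r⁻¹ * γ) μ) = u r (r⁻¹ * γ) * u γ μ *
      (u r (r⁻¹ * (γ * μ)))⁻¹ := by
    have := h2 r (r⁻¹ * γ) μ
    rw [e2, mul_assoc r⁻¹ γ (μ : Γ)] at this
    rw [this]; group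
  rw [e0, ← hs, map_mul, map_mul, h1]
  simp only [e1, e2]
  generalize u r (r⁻¹ * (γ * μ)) = y1
  generalize a r (s ⟨r⁻¹ * γ, hr⟩) = y2
  generalize u r (r⁻¹ * γ) = y3
  group

theorem Ss_mul (h1 : ∀ g h x, a g (a h x) = u g h * a (g * h) x * (u g h)⁻¹)
    (h2 : ∀ g h k, u g h * u (g * h) k = a g (u h k) * u g (h * k))
    (s : Λ → G) (hs : ∀ x y : Λ, s x * a x (s y) * u x y = s (x * y))
    (γ : Γ) (μ : Λ) :
    Ss a u Λ s (γ * μ) = Ss a u Λ s γ * a γ (s μ) * u γ μ := by
  have hq : ((γ * (μ : Γ) : Γ) : Γ ⧸ Λ) = ((γ : Γ) : Γ ⧸ Λ) := by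
    rw [QuotientGroup.eq]
    simp
  unfold Ss
  have hcongr : ∀ (q q' : Γ ⧸ Λ) (hqq : q = q') (x : Γ) (hx : q.out⁻¹ * x ∈ Λ)
      (hx' : q'.out⁻¹ * x ∈ Λ),
      a q.out (s ⟨q.out⁻¹ * x, hx⟩) * u q.out (q.out⁻¹ * x) =
      a q'.out (s ⟨q'.out⁻¹ * x, hx'⟩) * u q'.out (q'.out⁻¹ * x) := by
    intro q q' hqq x hx hx'
    subst hqq
    rfl
  have hx' : ((γ : Γ ⧸ Λ)).out⁻¹ * (γ * μ) ∈ Λ := by
    rw [← mul_assoc]; exact Λ.mul_mem (out_mem Λ γ) μ.2
  rw [hcongr _ _ hq (γ * μ) (out_mem Λ _) hx']
  exact Ss_aux a u Λ h1 h2 s hs _ γ μ _ _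

end GroupPart

section MatrixUnits

variable {A : Type u} [Ring A] [StarRing A]

/-- A system of matrix units indexed by the finite set `I`. -/
structure IsMatrixUnits {I : Type*} [Fintype I] (e : I → I → A) : Prop where
  mul_same : ∀ i j k, e i j * e j k = e i k
  mul_ne : ∀ i j k l, j ≠ k → e i j * e k l = 0
  star_eq : ∀ i j, star (e i j) = e j i
  sum_eq : ∑ i, e i i = 1

variable {I : Type*} [Fintype I] {e : I → I → A}

theorem IsMatrixUnits.mono_mul (he : IsMatrixUnits e) (x y : I → A) (σ τ : I → I)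
    (hy : ∀ r i j, y r * e i j = e i j * y r) :
    (∑ q, x q * e (σ q) q) * (∑ r, y r * e (τ r) r) =
      ∑ r, x (τ r) * y r * e (σ (τ r)) r := by
  classical
  rw [Finset.sum_mul_sum, Finset.sum_comm]
  refine Finset.sum_congr rfl fun r _ => ?_
  rw [Finset.sum_eq_single (τ r)]
  · rw [mul_assoc, ← mul_assoc (e _ _) (y r), ← hy, mul_assoc (y r), he.mul_same, ← mul_assoc]
  · intro q _ hq
    rw [mul_assoc, ← mul_assoc (e _ _) (y r), ← hy, mul_assoc (y r), he.mul_ne _ _ _ _ hq,
      mul_zero, mul_zero]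
  · intro h; exact absurd (Finset.mem_univ _) h

end MatrixUnits

section Core

variable {Γ : Type v} [Group Γ] (Λ : Subgroup Γ) [Fintype (Γ ⧸ Λ)]
variable {A : Type u} [Ring A] [StarRing A] [Algebra ℂ A]

/-- The group homomorphism on unitaries given by a star algebra automorphism. -/
def autU (f : A ≃⋆ₐ[ℂ] A) : unitary A →* unitary A where
  toFun x := ⟨f x, by
    rw [Unitary.mem_iff, ← map_star, ← map_mul, ← map_mul]
    simp⟩
  map_one' := by ext; simp
  map_mul' x y := by ext; simp

@[simp] theorem autU_coe (f : A ≃⋆ₐ[ℂ] A) (x : unitary A) : (autU f x : A) = f x := rfl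

theorem core (e : Γ ⧸ Λ → Γ ⧸ Λ → A) (he : IsMatrixUnits e) (c : CocycleAction Γ A)
    (hfix : ∀ g q r, c.aut g (e q r) = e q r) (s : Λ → unitary A)
    (hs : ∀ x q r, (s x : A) * e q r = e q r * (s x : A))
    (hs' : ∀ x y : Λ, (s x : A) * c.aut x (s y : A) * (c.cocycle x y : A) = (s (x * y) : A)) :
    Untwists c := by
  classical
  set a : Γ → unitary A →* unitary A := fun g => autU (c.aut g) with ha
  set u : Γ → Γ → unitary A := c.cocycle with hu
  have h1 : ∀ g h x, a g (a h x) = u g h * a (g * h) x * (u g h)⁻¹ := by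
    intro g h x
    ext
    rw [← Unitary.star_eq_inv]
    simp [ha, hu, c.aut_aut]
  have h2 : ∀ g h k, u g h * u (g * h) k = a g (u h k) * u g (h * k) := by
    intro g h k
    ext
    simp [ha, hu, c.cocycle_mul]
  have hsu : ∀ x y : Λ, s x * a x (s y) * u x y = s (x * y) := by
    intro x y
    ext
    simpa [ha, hu] using hs' x y
  -- the commutant
  let K : Subgroup (unitary A) :=
    { carrier := {x | ∀ q r, (x : A) * e q r = e q r * (x : A)}
      mul_mem' := by
        intro x y hx hy q r
        simp only [Set.mem_ofPred_eq] at hx hy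
        rw [Submonoid.coe_mul, mul_assoc, hy, ← mul_assoc, hx, mul_assoc]
      one_mem' := by intro q r; simp
      inv_mem' := by
        intro x hx q r
        simp only [Set.mem_ofPred_eq] at hx
        rw [← Unitary.star_eq_inv, Unitary.coe_star]
        have := congrArg star (hx r q)
        rw [star_mul, star_mul, he.star_eq] at this
        exact this.symm }
  have hK : ∀ x : unitary A, x ∈ K ↔ ∀ q r, (x : A) * e q r = e q r * (x : A) := fun x => Iff.rfl
  have hKa : ∀ g x, x ∈ K → a g x ∈ K := by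
    intro g x hx q r
    have := congrArg (c.aut g) ((hK x).1 hx q r)
    rw [map_mul, map_mul, hfix] at this
    exact this
  have hKu : ∀ g h, u g h ∈ K := by
    intro g h q r
    have := c.aut_aut g h (e q r)
    rw [hfix, hfix, hfix] at this
    have h3 : (star (c.cocycle g h : A)) * (c.cocycle g h : A) = 1 := Unitary.coe_star_mul_self _
    calc (u g h : A) * e q r = (u g h : A) * e q r * (star (c.cocycle g h : A) *
          (c.cocycle g h : A)) := by rw [h3, mul_one]
      _ = (c.cocycle g h : A) * e q r * star (c.cocycle g h : A) * (c.cocycle g h : A) := by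
          rw [← mul_assoc]
      _ = e q r * (u g h : A) := by rw [← this]
  have hKs : ∀ x, s x ∈ K := fun x => hs x
  set S : Γ → unitary A := Ss a u Λ s with hS
  have hKS : ∀ γ, S γ ∈ K := by
    intro γ
    exact K.mul_mem (hKa _ _ (hKs _)) (hKu _ _)
  have hSm : ∀ (γ : Γ) (μ : Λ), S (γ * μ) = S γ * a γ (s μ) * u γ μ :=
    fun γ μ => Ss_mul a u Λ h1 h2 s hsu γ μ
  have hKT : ∀ g γ, Tt a u S g γ ∈ K := by
    intro g γ
    exact K.mul_mem (hKS _) (K.inv_mem (K.mul_mem (hKa _ _ (hKS _)) (hKu _ _)))
  have hTinv : ∀ (g γ : Γ) (μ : Λ), Tt a u S g (γ * μ) = Tt a u S g γ := by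
    intro g γ μ
    exact Tt_inv a u h1 h2 S (s μ) μ (fun γ => hSm γ μ) g γ
  have hTq : ∀ (g γ : Γ), Tt a u S g ((γ : Γ ⧸ Λ)).out = Tt a u S g γ := by
    intro g γ
    have := hTinv g ((γ : Γ ⧸ Λ)).out ⟨_, out_mem Λ γ⟩
    rw [← this]
    congr 1
    simp
  let T : Γ → Γ ⧸ Λ → unitary A := fun g q => Tt a u S g q.out
  have hTcomm : ∀ g q i j, (T g q : A) * e i j = e i j * (T g q : A) := fun g q => hKT g q.out
  have hTstar : ∀ g q i j, star (T g q : A) * e i j = e i j * star (T g q : A) := by
    intro g q i j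
    have := K.inv_mem (hKT g q.out) i j
    rw [← Unitary.star_eq_inv, Unitary.coe_star] at this
    exact this
  have hTmul : ∀ g h q, T g (h • q) * a g (T h q) * u g h = T (g * h) q := by
    intro g h q
    have e1 : T g (h • q) = Tt a u S g (h * q.out) := by
      have : h • q = ((h * q.out : Γ) : Γ ⧸ Λ) := by
        conv_lhs => rw [← QuotientGroup.out_eq' q]
        rfl
      show Tt a u S g (h • q).out = _
      rw [this, hTq]
    rw [e1]
    exact Tt_mul a u h1 h2 S g h q.out
  let W : Γ → A := fun g => ∑ q, (T g q : A) * e (g • q) q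
  have hWstar : ∀ g, star (W g) = ∑ r, star (T g (g⁻¹ • r) : A) * e (g⁻¹ • r) r := by
    intro g
    show star (∑ q, (T g q : A) * e (g • q) q) = _
    rw [star_sum]
    refine Eq.trans ?_ (Equiv.sum_comp (MulAction.toPerm g)
      (fun r => star (T g (g⁻¹ • r) : A) * e (g⁻¹ • r) r))
    refine Finset.sum_congr rfl fun q _ => ?_
    simp only [MulAction.toPerm_apply, inv_smul_smul]
    rw [star_mul, he.star_eq, hTstar]
  have hW1 : ∀ g, W g * star (W g) = 1 := by
    intro g
    rw [hWstar, he.mono_mul _ _ _ _ (fun r i j => hTstar _ _ _ _)]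
    simp only [smul_inv_smul]
    rw [← he.sum_eq]
    refine Finset.sum_congr rfl fun r _ => ?_
    rw [Unitary.mul_star_self_of_mem (T g _).2, one_mul]
  have hW2 : ∀ g, star (W g) * W g = 1 := by
    intro g
    rw [hWstar, he.mono_mul _ _ _ _ (fun r i j => hTcomm _ _ _ _)]
    simp only [inv_smul_smul]
    rw [← he.sum_eq]
    refine Finset.sum_congr rfl fun r _ => ?_
    rw [Unitary.star_mul_self_of_mem (T g _).2, one_mul]
  have hW3 : ∀ g h, W g * c.aut g (W h) * (c.cocycle g h : A) = W (g * h) := by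
    intro g h
    have e1 : c.aut g (W h) = ∑ q, c.aut g (T h q : A) * e (h • q) q := by
      show c.aut g (∑ q, (T h q : A) * e (h • q) q) = _
      rw [map_sum]
      refine Finset.sum_congr rfl fun q _ => ?_
      rw [map_mul, hfix]
    rw [e1]
    show (∑ q, (T g q : A) * e (g • q) q) * (∑ q, c.aut g (T h q : A) * e (h • q) q) *
      (c.cocycle g h : A) = _
    rw [he.mono_mul (fun q => (T g q : A)) (fun q => c.aut g (T h q : A)) (fun q => g • q)
      (fun q => h • q) (fun r i j => hKa g _ (hKT h r.out) i j), Finset.sum_mul]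
    refine Finset.sum_congr rfl fun q _ => ?_
    rw [mul_assoc, ← hKu g h, ← mul_assoc, smul_smul]
    congr 1
    exact congrArg (Subtype.val) (hTmul g h q)
  refine ⟨fun g => ⟨W g, by rw [Unitary.mem_iff]; exact ⟨hW2 g, hW1 g⟩⟩, fun g h => ?_⟩
  show W g * c.aut g (W h) * (c.cocycle g h : A) * star (W (g * h)) = 1
  rw [hW3, hW1]

end Core

/-! ## Matrix units and relative commutants -/

section TraceDefs

variable {A : Type u} [Ring A] [StarRing A] [Algebra ℂ A]

/-- Murray-von Neumann equivalence of `p` and `q`. -/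
def MvN (p q : A) : Prop := ∃ v : A, star v * v = p ∧ v * star v = q

/-- Projections with the same trace are equivalent, and every projection has subprojections of
every smaller trace. -/
structure HasContinuousDimension (τ : A →ₗ[ℂ] ℂ) : Prop where
  equiv_of_eq : ∀ p q : A, IsStarProjection p → IsStarProjection q → τ p = τ q → MvN p q
  exists_sub : ∀ p : A, IsStarProjection p → ∀ t : ℝ, 0 ≤ t → (t : ℂ) ≤ τ p →
    ∃ q : A, IsStarProjection q ∧ q * p = q ∧ τ q = t

end TraceDefs

section Trace

variable {A : Type u} [Ring A] [StarRing A] [Algebra ℂ A] {τ : A →ₗ[ℂ] ℂ}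

theorem IsFaithfulTracialState.mul_right_eq (hτ : IsFaithfulTracialState τ) {v p : A}
    (hp : IsStarProjection p) (h : star v * v = p) : v * p = v := by
  have h0 : star (v - v * p) * (v - v * p) = 0 := by
    have h1 : p * p = p := hp.isIdempotentElem
    have h2 : star p = p := hp.isSelfAdjoint
    rw [star_sub, star_mul, h2]
    have : (star v - p * star v) * (v - v * p) =
        star v * v - star v * v * p - p * (star v * v) + p * (star v * v) * p := by
      noncomm_ring
    rw [this, h, h1, h1]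
    simp
  have := hτ.faithful _ (by rw [h0, map_zero])
  exact (sub_eq_zero.1 this).symm

theorem IsFaithfulTracialState.mul_left_eq (hτ : IsFaithfulTracialState τ) {v q : A}
    (hq : IsStarProjection q) (h : v * star v = q) : q * v = v := by
  have h1 := hτ.mul_right_eq (v := star v) hq (by rw [star_star, h])
  have h2 := congrArg star h1
  rwa [star_mul, star_star, hq.isSelfAdjoint.star_eq] at h2

theorem HasContinuousDimension.split (hd : HasContinuousDimension τ)
    (hτ : IsFaithfulTracialState τ) (t : ℝ) (ht : 0 ≤ t) (m : ℕ) :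
    ∀ q : A, IsStarProjection q → τ q = (m : ℂ) * t →
    ∃ p : Fin m → A, (∀ i, IsStarProjection (p i)) ∧ (∀ i j, i ≠ j → p i * p j = 0) ∧
      ∑ i, p i = q ∧ ∀ i, τ (p i) = t := by
  induction m with
  | zero =>
    intro q hq h
    refine ⟨fun i => i.elim0, fun i => i.elim0, fun i => i.elim0, ?_, fun i => i.elim0⟩
    have h1 : q * q = q := hq.isIdempotentElem
    have h2 : star q = q := hq.isSelfAdjoint
    have : q = 0 := hτ.faithful q (by rw [h2, h1, h]; simp)
    simp [this]
  | succ m ih =>
    intro q hq h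
    obtain ⟨p₀, hp₀, hle, htr⟩ := hd.exists_sub q hq t ht (by
      rw [h]
      have : ((t : ℝ) : ℂ) ≤ (((m : ℝ) + 1) * t : ℝ) := by
        rw [Complex.real_le_real]
        nlinarith [mul_nonneg (Nat.cast_nonneg (α := ℝ) m) ht]
      refine this.trans (le_of_eq ?_)
      push_cast
      ring)
    have h1 : q * q = q := hq.isIdempotentElem
    have h2 : star q = q := hq.isSelfAdjoint
    have h3 : p₀ * p₀ = p₀ := hp₀.isIdempotentElem
    have h4 : star p₀ = p₀ := hp₀.isSelfAdjoint
    have h5 : q * p₀ = p₀ := by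
      have := congrArg star hle
      rwa [star_mul, h2, h4] at this
    have hsub : IsStarProjection (q - p₀) := by
      refine ⟨?_, ?_⟩
      · show (q - p₀) * (q - p₀) = q - p₀
        have : (q - p₀) * (q - p₀) = q * q - q * p₀ - p₀ * q + p₀ * p₀ := by noncomm_ring
        rw [this, h1, h5, hle, h3]; abel
      · show star (q - p₀) = q - p₀
        rw [star_sub, h2, h4]
    obtain ⟨p, hp, hort, hsum, htr'⟩ := ih (q - p₀) hsub (by
      rw [map_sub, h, htr]; push_cast; ring)
    have hzero : ∀ j, p₀ * p j = 0 := by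
      intro j
      have e1 : (q - p₀) * p j = p j := by
        rw [← hsum, Finset.sum_mul, Finset.sum_eq_single j]
        · exact (hp j).isIdempotentElem
        · intro i _ hij; exact hort _ _ hij
        · intro hj; exact absurd (Finset.mem_univ _) hj
      rw [← e1, ← mul_assoc, mul_sub, hle, h3, sub_self, zero_mul]
    have hzero' : ∀ j, p j * p₀ = 0 := by
      intro j
      have := congrArg star (hzero j)
      rwa [star_mul, h4, (hp j).isSelfAdjoint.star_eq, star_zero] at this
    refine ⟨Fin.cons p₀ p, ?_, ?_, ?_, ?_⟩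
    · intro i
      refine Fin.cases ?_ (fun i => ?_) i
      · simpa using hp₀
      · simpa using hp i
    · intro i j
      refine Fin.cases ?_ (fun i => ?_) i
      · refine Fin.cases ?_ (fun j => ?_) j
        · intro h; exact absurd rfl h
        · intro _; simpa using hzero j
      · refine Fin.cases ?_ (fun j => ?_) j
        · intro _; simpa using hzero' i
        · intro hij
          simpa using hort i j (fun h => hij (by rw [h]))
    · rw [Fin.sum_univ_succ]
      simp [hsum]
    · intro i
      refine Fin.cases ?_ (fun i => ?_) i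
      · simpa using htr
      · simpa using htr' i

theorem exists_matrixUnits (hτ : IsFaithfulTracialState τ) (hd : HasContinuousDimension τ)
    (I : Type*) [Fintype I] [Nonempty I] : ∃ e : I → I → A, IsMatrixUnits e := by
  classical
  have hcard : (Fintype.card I : ℝ) ≠ 0 := by
    have := Fintype.card_pos (α := I)
    positivity
  obtain ⟨p, hp, hort, hsum, htr⟩ := hd.split hτ (1 / (Fintype.card I : ℝ)) (by positivity)
    (Fintype.card I) 1 (IsStarProjection.one _) (by
      rw [hτ.map_one]; push_cast; field_simp)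
  let i₀ : Fin (Fintype.card I) := ⟨0, Fintype.card_pos⟩
  have hv : ∀ i, MvN (p i₀) (p i) := fun i => hd.equiv_of_eq _ _ (hp _) (hp _) (by
    rw [htr, htr])
  choose v hv1 hv2 using hv
  let σ : I ≃ Fin (Fintype.card I) := Fintype.equivFin I
  have hvr : ∀ i, v i * p i₀ = v i := fun i => hτ.mul_right_eq (hp _) (hv1 i)
  have hvl : ∀ i, p i * v i = v i := fun i => hτ.mul_left_eq (hp _) (hv2 i)
  refine ⟨fun i j => v (σ i) * star (v (σ j)), ?_, ?_, ?_, ?_⟩
  · intro i j k
    have : v (σ i) * star (v (σ j)) * (v (σ j) * star (v (σ k))) =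
      v (σ i) * (star (v (σ j)) * v (σ j)) * star (v (σ k)) := by noncomm_ring
    rw [this, hv1, hvr]
  · intro i j k l hjk
    have e1 : star (v (σ j)) * v (σ k) = 0 := by
      have e2 : star (v (σ j)) = star (v (σ j)) * p (σ j) := by
        have := congrArg star (hvl (σ j))
        rw [star_mul, (hp _).isSelfAdjoint.star_eq] at this
        exact this.symm
      rw [e2, ← hvl (σ k), mul_assoc, ← mul_assoc (p (σ j)), hort _ _ (fun h => hjk (σ.injective h)),
        zero_mul, mul_zero]
    have : v (σ i) * star (v (σ j)) * (v (σ k) * star (v (σ l))) =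
      v (σ i) * (star (v (σ j)) * v (σ k)) * star (v (σ l)) := by noncomm_ring
    rw [this, e1, mul_zero, zero_mul]
  · intro i j
    rw [star_mul, star_star]
  · simp only [hv2]
    rw [Equiv.sum_comp σ p, hsum]

/-- Two systems of matrix units of a `*`-algebra whose first projections are equivalent are
unitarily conjugate. -/
theorem IsMatrixUnits.conj {I : Type*} [Fintype I] {e e' : I → I → A} (he : IsMatrixUnits e)
    (he' : IsMatrixUnits e') (k : I) (y : A) (hy : star y * y = e' k k)
    (hy' : y * star y = e k k) :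
    ∃ v : unitary A, ∀ i j, (v : A) * e' i j * star (v : A) = e i j := by
  classical
  set V : A := ∑ i, e i k * y * e' k i with hV
  have hVs : star V = ∑ i, e' i k * star y * e k i := by
    rw [hV, star_sum]
    refine Finset.sum_congr rfl fun i _ => ?_
    rw [star_mul, star_mul, he.star_eq, he'.star_eq, mul_assoc]
  have h1 : ∀ i j, V * e' i j = e i k * y * e' k j := by
    intro i j
    rw [hV, Finset.sum_mul, Finset.sum_eq_single i]
    · rw [mul_assoc, he'.mul_same]
    · intro b _ hb
      rw [mul_assoc, he'.mul_ne _ _ _ _ hb, mul_zero]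
    · intro h; exact absurd (Finset.mem_univ _) h
  have h2 : ∀ i j, e i j * V = e i k * y * e' k j := by
    intro i j
    rw [hV, Finset.mul_sum, Finset.sum_eq_single j]
    · rw [← mul_assoc, ← mul_assoc, he.mul_same]
    · intro b _ hb
      rw [← mul_assoc, ← mul_assoc, he.mul_ne _ _ _ _ (Ne.symm hb), zero_mul, zero_mul]
    · intro h; exact absurd (Finset.mem_univ _) h
  have h3 : V * star V = 1 := by
    rw [hVs, Finset.mul_sum, ← he.sum_eq]
    refine Finset.sum_congr rfl fun i _ => ?_
    rw [← mul_assoc, ← mul_assoc, h1]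
    have : e i k * y * e' k k * star y * e k i = e i k * (y * star y) * (y * star y) * e k i := by
      rw [← hy]; noncomm_ring
    rw [this, hy', he.mul_same, he.mul_same, he.mul_same]
  have h4 : star V * V = 1 := by
    have e1 : ∀ i, e' i k * star y * e k i * V = e' i i := by
      intro i
      rw [mul_assoc, h2]
      have : e' i k * star y * (e k k * y * e' k i) = e' i k * (star y * y) * (star y * y) * e' k i := by
        rw [← hy']; noncomm_ring
      rw [this, hy, he'.mul_same, he'.mul_same, he'.mul_same]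
    rw [hVs, Finset.sum_mul, ← he'.sum_eq]
    exact Finset.sum_congr rfl fun i _ => e1 i
  refine ⟨⟨V, by rw [Unitary.mem_iff]; exact ⟨h4, h3⟩⟩, fun i j => ?_⟩
  show V * e' i j * star V = e i j
  rw [h1, ← h2, mul_assoc, h3, mul_one]

theorem IsMatrixUnits.map {I : Type*} [Fintype I] {e : I → I → A} (he : IsMatrixUnits e)
    (f : A ≃⋆ₐ[ℂ] A) : IsMatrixUnits (fun i j => f (e i j)) where
  mul_same i j k := by rw [← map_mul, he.mul_same]
  mul_ne i j k l h := by rw [← map_mul, he.mul_ne _ _ _ _ h, map_zero]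
  star_eq i j := by rw [← map_star, he.star_eq]
  sum_eq := by rw [← map_sum, he.sum_eq, map_one]

theorem IsMatrixUnits.proj {I : Type*} [Fintype I] {e : I → I → A} (he : IsMatrixUnits e) (i : I) :
    IsStarProjection (e i i) := ⟨he.mul_same i i i, he.star_eq i i⟩

theorem IsMatrixUnits.card_mul_trace {I : Type*} [Fintype I] {e : I → I → A}
    (he : IsMatrixUnits e) (hτ : IsFaithfulTracialState τ) (k : I) (x : A)
    (hx : ∀ i j, x * e i j = e i j * x) :
    (Fintype.card I : ℂ) * τ (x * e k k) = τ x := by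
  have h1 : ∀ i, τ (x * e i i) = τ (x * e k k) := by
    intro i
    rw [← he.mul_same i k i, ← mul_assoc, hτ.comm, ← mul_assoc, ← hx, mul_assoc, he.mul_same]
  conv_rhs => rw [← mul_one x, ← he.sum_eq, Finset.mul_sum, map_sum]
  simp [h1]

theorem exists_conj (hτ : IsFaithfulTracialState τ) (hd : HasContinuousDimension τ)
    {I : Type*} [Fintype I] [Nonempty I] {e : I → I → A} (he : IsMatrixUnits e)
    (f : A ≃⋆ₐ[ℂ] A) : ∃ v : unitary A, ∀ i j, (v : A) * f (e i j) * star (v : A) = e i j := by
  classical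
  obtain ⟨k⟩ := ‹Nonempty I›
  have he' := he.map f
  have hn : (Fintype.card I : ℂ) ≠ 0 := by
    have : 0 < Fintype.card I := Fintype.card_pos_iff.2 ⟨k⟩
    exact_mod_cast this.ne'
  have h1 := he.card_mul_trace hτ k 1 (by simp)
  have h2 := he'.card_mul_trace hτ k 1 (by simp)
  rw [one_mul] at h1 h2
  have h3 : τ (f (e k k)) = τ (e k k) := mul_left_cancel₀ hn (h2.trans h1.symm)
  obtain ⟨y, hy, hy'⟩ := hd.equiv_of_eq _ _ (he'.proj k) (he.proj k) h3
  exact he.conj he' k y hy hy'

end Trace

section Corner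

variable {A : Type u} [Ring A] [StarRing A] [Algebra ℂ A] {τ : A →ₗ[ℂ] ℂ}
variable {I : Type*} [Fintype I] {e : I → I → A}

/-- The element `∑ i, e i k * y * e k i` of the relative commutant of `e`. -/
def spread (e : I → I → A) (k : I) (y : A) : A := ∑ i, e i k * y * e k i

theorem IsMatrixUnits.mul_spread (he : IsMatrixUnits e) (k : I) (y : A) (i j : I) :
    e i j * spread e k y = e i k * y * e k j := by
  classical
  rw [spread, Finset.mul_sum, Finset.sum_eq_single j]
  · rw [← mul_assoc, ← mul_assoc, he.mul_same]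
  · intro b _ hb
    rw [← mul_assoc, ← mul_assoc, he.mul_ne _ _ _ _ (Ne.symm hb), zero_mul, zero_mul]
  · intro h; exact absurd (Finset.mem_univ _) h

theorem IsMatrixUnits.spread_mul (he : IsMatrixUnits e) (k : I) (y : A) (i j : I) :
    spread e k y * e i j = e i k * y * e k j := by
  classical
  rw [spread, Finset.sum_mul, Finset.sum_eq_single i]
  · rw [mul_assoc, he.mul_same]
  · intro b _ hb
    rw [mul_assoc, he.mul_ne _ _ _ _ hb, mul_zero]
  · intro h; exact absurd (Finset.mem_univ _) h

theorem IsMatrixUnits.spread_comm (he : IsMatrixUnits e) (k : I) (y : A) (i j : I) :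
    spread e k y * e i j = e i j * spread e k y := by
  rw [he.mul_spread, he.spread_mul]

theorem IsMatrixUnits.spread_mul_spread (he : IsMatrixUnits e) (k : I) (x y : A) :
    spread e k x * spread e k y = spread e k (x * e k k * y) := by
  show (∑ i, e i k * x * e k i) * spread e k y = _
  rw [Finset.sum_mul]
  refine Finset.sum_congr rfl fun i _ => ?_
  rw [mul_assoc, he.mul_spread]
  noncomm_ring

theorem IsMatrixUnits.star_spread (he : IsMatrixUnits e) (k : I) (y : A) :
    star (spread e k y) = spread e k (star y) := by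
  rw [spread, spread, star_sum]
  refine Finset.sum_congr rfl fun i _ => ?_
  rw [star_mul, star_mul, he.star_eq, he.star_eq, mul_assoc]

theorem IsMatrixUnits.spread_eq (he : IsMatrixUnits e) (k : I) (x : A)
    (hx : ∀ i j, x * e i j = e i j * x) : spread e k (x * e k k) = x := by
  rw [spread]
  have : ∀ i, e i k * (x * e k k) * e k i = x * e i i := by
    intro i
    rw [mul_assoc, mul_assoc, he.mul_same, ← mul_assoc, ← hx, mul_assoc, he.mul_same]
  simp only [this]
  rw [← Finset.mul_sum, he.sum_eq, mul_one]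

theorem IsMatrixUnits.trace_spread (he : IsMatrixUnits e) (hτ : IsFaithfulTracialState τ)
    (k : I) (y : A) : τ (spread e k y) = (Fintype.card I : ℂ) * τ (y * e k k) := by
  rw [spread, map_sum]
  have : ∀ i, τ (e i k * y * e k i) = τ (y * e k k) := by
    intro i
    rw [mul_assoc, hτ.comm, mul_assoc, he.mul_same]
  simp [this]

/-- The center of `A` is `ℂ`, and `A` has a faithful tracial state with comparison of projections
and subprojections of every smaller trace. -/
structure IsII1Alg (A : Type u) [Ring A] [StarRing A] [Algebra ℂ A] : Prop where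
  center : ∀ z : A, (∀ x : A, z * x = x * z) → ∃ c : ℂ, z = algebraMap ℂ A c
  trace : ∃ τ : A →ₗ[ℂ] ℂ, IsFaithfulTracialState τ ∧ HasContinuousDimension τ

theorem IsII1Alg.relCommutant (hA : IsII1Alg A) (he : IsMatrixUnits e) [Nonempty I]
    {B : Type*} [Ring B] [StarRing B] [Algebra ℂ B] (ι : B →⋆ₐ[ℂ] A)
    (hι : Function.Injective ι) (hc : ∀ b i j, ι b * e i j = e i j * ι b)
    (hr : ∀ x : A, (∀ i j, x * e i j = e i j * x) → ∃ b, ι b = x) : IsII1Alg B := by
  classical
  obtain ⟨τ, hτ, hd⟩ := hA.trace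
  obtain ⟨k⟩ := ‹Nonempty I›
  have hn : 0 < (Fintype.card I : ℝ) := by
    have : 0 < Fintype.card I := Fintype.card_pos_iff.2 ⟨k⟩
    exact_mod_cast this
  have hnC : (Fintype.card I : ℂ) ≠ 0 := by exact_mod_cast hn.ne'
  have hproj : ∀ {p : B}, IsStarProjection p → IsStarProjection (ι p) := by
    intro p hp
    refine ⟨?_, ?_⟩
    · show ι p * ι p = ι p
      rw [← map_mul, hp.isIdempotentElem.eq]
    · show star (ι p) = ι p
      rw [← map_star, hp.isSelfAdjoint.star_eq]
  have hproj' : ∀ {p : B}, IsStarProjection (ι p) → IsStarProjection p := by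
    intro p hp
    refine ⟨?_, ?_⟩
    · show p * p = p
      apply hι
      rw [map_mul, hp.isIdempotentElem.eq]
    · show star p = p
      apply hι
      rw [map_star, hp.isSelfAdjoint.star_eq]
  have hpe : ∀ {p : A}, IsStarProjection p → (∀ i j, p * e i j = e i j * p) →
      IsStarProjection (p * e k k) := by
    intro p hp hpc
    refine ⟨?_, ?_⟩
    · show p * e k k * (p * e k k) = p * e k k
      rw [mul_assoc, ← mul_assoc (e k k), ← hpc, mul_assoc p (e k k), he.mul_same, ← mul_assoc,
        hp.isIdempotentElem.eq]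
    · show star (p * e k k) = p * e k k
      rw [star_mul, he.star_eq, hp.isSelfAdjoint.star_eq, hpc]
  refine ⟨?_, τ.comp ι.toAlgHom.toLinearMap, ⟨?_, ?_, ?_, ?_⟩, ⟨?_, ?_⟩⟩
  · -- center
    intro z hz
    have hzι : ∀ x : A, ι z * x = x * ι z := by
      intro x
      have hx : x = ∑ i, ∑ j, (∑ l, e l i * x * e j l) * e i j := by
        have e1 : ∀ i j, (∑ l, e l i * x * e j l) * e i j = e i i * x * e j j := by
          intro i j
          rw [Finset.sum_mul, Finset.sum_eq_single i]
          · rw [mul_assoc, he.mul_same]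
          · intro b _ hb
            rw [mul_assoc, he.mul_ne _ _ _ _ hb, mul_zero]
          · intro h; exact absurd (Finset.mem_univ _) h
        simp only [e1]
        have e2 : ∀ i, ∑ j, e i i * x * e j j = e i i * x := by
          intro i
          rw [← Finset.mul_sum, he.sum_eq, mul_one]
        simp only [e2]
        rw [← Finset.sum_mul, he.sum_eq, one_mul]
      have hcomm : ∀ i j, ι z * (∑ l, e l i * x * e j l) = (∑ l, e l i * x * e j l) * ι z := by
        intro i j
        obtain ⟨b, hb⟩ := hr (∑ l, e l i * x * e j l) (by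
          intro a c
          rw [Finset.sum_mul, Finset.mul_sum, Finset.sum_eq_single a, Finset.sum_eq_single c]
          · rw [mul_assoc, he.mul_same, ← mul_assoc, ← mul_assoc, he.mul_same]
          · intro d _ hd'
            rw [← mul_assoc, ← mul_assoc, he.mul_ne _ _ _ _ (Ne.symm hd'), zero_mul, zero_mul]
          · intro h; exact absurd (Finset.mem_univ _) h
          · intro d _ hd'
            rw [mul_assoc, he.mul_ne _ _ _ _ hd', mul_zero]
          · intro h; exact absurd (Finset.mem_univ _) h)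
        rw [← hb, ← map_mul, hz, map_mul]
      rw [hx, Finset.mul_sum, Finset.sum_mul]
      refine Finset.sum_congr rfl fun i _ => ?_
      rw [Finset.mul_sum, Finset.sum_mul]
      refine Finset.sum_congr rfl fun j _ => ?_
      rw [← mul_assoc, hcomm, mul_assoc, hc, mul_assoc]
    obtain ⟨c, hc'⟩ := hA.center _ hzι
    refine ⟨c, hι ?_⟩
    rw [hc']
    exact (ι.toAlgHom.commutes c).symm
  · show τ (ι 1) = 1
    rw [map_one, hτ.map_one]
  · intro x
    show 0 ≤ τ (ι (star x * x))
    rw [map_mul, map_star]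
    exact hτ.nonneg _
  · intro x hx
    apply hι
    rw [map_zero]
    apply hτ.faithful
    rw [← map_star, ← map_mul]
    exact hx
  · intro x y
    show τ (ι (x * y)) = τ (ι (y * x))
    rw [map_mul ι, map_mul ι, hτ.comm]
  · intro p q hp hq hpq
    have hpq' : τ (ι p) = τ (ι q) := hpq
    obtain ⟨y, hy, hy'⟩ := hd.equiv_of_eq _ _ (hpe (hproj hp) (hc p)) (hpe (hproj hq) (hc q))
      (by
        apply mul_left_cancel₀ hnC
        rw [he.card_mul_trace hτ k _ (hc p), he.card_mul_trace hτ k _ (hc q), hpq'])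
    have hyr : y * e k k = y := by
      have h1 := hτ.mul_right_eq (hpe (hproj hp) (hc p)) hy
      rw [← h1, mul_assoc, mul_assoc, he.mul_same]
    have hyl : e k k * y = y := by
      have h1 := hτ.mul_left_eq (hpe (hproj hq) (hc q)) hy'
      rw [← h1, ← mul_assoc, ← mul_assoc, ← hc, mul_assoc (ι q), he.mul_same]
    obtain ⟨b, hb⟩ := hr (spread e k y) (he.spread_comm k y)
    refine ⟨b, hι ?_, hι ?_⟩
    · rw [map_mul, map_star, hb, he.star_spread, he.spread_mul_spread, mul_assoc, hyl, hy,
        he.spread_eq k _ (hc p)]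
    · rw [map_mul, map_star, hb, he.star_spread, he.spread_mul_spread, hyr, hy',
        he.spread_eq k _ (hc q)]
  · intro p hp t ht htp
    have htp' : (t : ℂ) ≤ τ (ι p) := htp
    obtain ⟨q₀, hq₀, hle, htr⟩ := hd.exists_sub _ (hpe (hproj hp) (hc p))
      (t / (Fintype.card I : ℝ)) (by positivity) (by
        have h1 := he.card_mul_trace hτ k _ (hc p)
        have h2 : τ (ι p * e k k) = ((1 / (Fintype.card I : ℝ) : ℝ) : ℂ) * τ (ι p) := by
          rw [← h1]; push_cast; field_simp
        have h3 : ((t / (Fintype.card I : ℝ) : ℝ) : ℂ) =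
            ((1 / (Fintype.card I : ℝ) : ℝ) : ℂ) * t := by
          push_cast; ring
        rw [h2, h3]
        exact mul_le_mul_of_nonneg_left htp' (by
          rw [← Complex.ofReal_zero, Complex.real_le_real]; positivity))
    have h1 : q₀ * e k k = q₀ := by
      rw [← hle, mul_assoc, mul_assoc, he.mul_same]
    have h2 : q₀ * ι p = q₀ := by
      conv_lhs => rw [← h1]
      rw [mul_assoc, ← hc, hle]
    have h3 : q₀ * q₀ = q₀ := hq₀.isIdempotentElem
    have h4 : star q₀ = q₀ := hq₀.isSelfAdjoint
    obtain ⟨b, hb⟩ := hr (spread e k q₀) (he.spread_comm k q₀)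
    refine ⟨b, hproj' ?_, hι ?_, ?_⟩
    · rw [hb]
      refine ⟨?_, ?_⟩
      · show spread e k q₀ * spread e k q₀ = spread e k q₀
        rw [he.spread_mul_spread, h1, h3]
      · show star (spread e k q₀) = spread e k q₀
        rw [he.star_spread, h4]
    · rw [map_mul, hb, spread, Finset.sum_mul]
      refine Finset.sum_congr rfl fun i _ => ?_
      rw [mul_assoc, ← hc, ← mul_assoc, mul_assoc (e i k), h2]
    · show τ (ι b) = t
      rw [hb, he.trace_spread hτ, h1, htr]
      push_cast
      field_simp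

end Corner

/-! ## Perturbation and restriction of cocycle actions -/

section Perturb

variable {Γ : Type v} [Group Γ] {A : Type u} [Ring A] [StarRing A] [Algebra ℂ A]

theorem CocycleAction.grp1 (c : CocycleAction Γ A) (g h : Γ) (x : unitary A) :
    autU (c.aut g) (autU (c.aut h) x) =
      c.cocycle g h * autU (c.aut (g * h)) x * (c.cocycle g h)⁻¹ := by
  ext
  rw [← Unitary.star_eq_inv]
  simp [c.aut_aut]

theorem CocycleAction.grp2 (c : CocycleAction Γ A) (g h k : Γ) :
    c.cocycle g h * c.cocycle (g * h) k =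
      autU (c.aut g) (c.cocycle h k) * c.cocycle g (h * k) := by
  ext
  simp [c.cocycle_mul]

theorem CocycleAction.aut_one (c : CocycleAction Γ A) (x : A) : c.aut 1 x = x := by
  have h := c.aut_aut 1 1 x
  rw [c.cocycle_left_one, one_mul, star_one, mul_one, mul_one] at h
  exact (c.aut 1).injective h

/-- The perturbation of a cocycle action by unitaries `v g`, `v 1 = 1`. -/
def CocycleAction.perturb (c : CocycleAction Γ A) (v : Γ → unitary A) (hv : v 1 = 1) :
    CocycleAction Γ A where
  aut g := (c.aut g).trans (Unitary.conjStarAlgAut ℂ A (v g))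
  cocycle g h := v g * autU (c.aut g) (v h) * c.cocycle g h * (v (g * h))⁻¹
  aut_rel g h x := by
    have e1 : ∀ (w : unitary A) (X : A), star (w : A) * ((w : A) * X) = X := by
      intro w X; rw [← mul_assoc, Unitary.star_mul_self_of_mem w.2, one_mul]
    show (v g : A) * c.aut g ((v h : A) * c.aut h x * star (v h : A)) * star (v g : A) =
      ((v g : A) * c.aut g (v h : A) * (c.cocycle g h : A) * (((v (g * h))⁻¹ : unitary A) : A)) *
        ((v (g * h) : A) * c.aut (g * h) x * star (v (g * h) : A)) *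
        star ((v g : A) * c.aut g (v h : A) * (c.cocycle g h : A) *
          (((v (g * h))⁻¹ : unitary A) : A))
    rw [← Unitary.star_eq_inv, Unitary.coe_star, map_mul, map_mul, c.aut_aut, map_star]
    simp only [star_mul, star_star, mul_assoc, e1]
  cocycle_rel g h k := by
    have key : (v g * autU (c.aut g) (v h) * c.cocycle g h * (v (g * h))⁻¹) *
        (v (g * h) * autU (c.aut (g * h)) (v k) * c.cocycle (g * h) k * (v (g * h * k))⁻¹) =
        (v g * autU (c.aut g) (v h * autU (c.aut h) (v k) * c.cocycle h k * (v (h * k))⁻¹) *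
          (v g)⁻¹) *
        (v g * autU (c.aut g) (v (h * k)) * c.cocycle g (h * k) * (v (g * (h * k)))⁻¹) := by
      have e1 : autU (c.aut g) (c.cocycle h k) =
          c.cocycle g h * c.cocycle (g * h) k * (c.cocycle g (h * k))⁻¹ := by
        rw [c.grp2]; group
      simp only [map_mul, map_inv, c.grp1, e1, mul_assoc g h k]
      group
    have := congrArg (Subtype.val) key
    rw [← Unitary.star_eq_inv (v g)] at this
    exact this
  cocycle_right_one g := by
    have : c.cocycle g 1 = 1 := Subtype.ext (c.cocycle_right_one g)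
    rw [this, hv, map_one, mul_one, mul_one, mul_one, mul_inv_cancel]
    rfl
  cocycle_left_one g := by
    have h1 : c.cocycle 1 g = 1 := Subtype.ext (c.cocycle_left_one g)
    have h2 : autU (c.aut 1) (v g) = v g := by
      ext; exact c.aut_one _
    rw [h1, h2, hv, one_mul, one_mul, mul_one, mul_inv_cancel]
    rfl

theorem CocycleAction.untwists_of_perturb (c : CocycleAction Γ A) (v : Γ → unitary A)
    (hv : v 1 = 1) (h : Untwists (c.perturb v hv)) : Untwists c := by
  obtain ⟨w, hw⟩ := h
  refine ⟨fun g => w g * v g, fun g h => ?_⟩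
  have h1 := hw g h
  have e1 : ∀ (w : unitary A) (X : A), star (w : A) * ((w : A) * X) = X := by
    intro w X; rw [← mul_assoc, Unitary.star_mul_self_of_mem w.2, one_mul]
  have h2 : (w g : A) * ((v g : A) * c.aut g (w h : A) * star (v g : A)) *
      ((v g : A) * c.aut g (v h : A) * (c.cocycle g h : A) *
        (((v (g * h))⁻¹ : unitary A) : A)) * star (w (g * h) : A) = 1 := h1
  rw [← Unitary.star_eq_inv, Unitary.coe_star] at h2
  show ((w g : A) * (v g : A)) * c.aut g ((w h : A) * (v h : A)) * (c.cocycle g h : A) *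
    star ((w (g * h) : A) * (v (g * h) : A)) = 1
  rw [← h2, map_mul, star_mul]
  simp only [mul_assoc, e1]

end Perturb

section Restrict

variable {A : Type u} [Ring A] [StarRing A] [Algebra ℂ A]
variable {I : Type*} [Fintype I] {e : I → I → A}
variable {B : Type*} [Ring B] [StarRing B] [Algebra ℂ B]

theorem exists_restrict (ι : B →⋆ₐ[ℂ] A)
    (hι : Function.Injective ι) (hc : ∀ b i j, ι b * e i j = e i j * ι b)
    (hr : ∀ x : A, (∀ i j, x * e i j = e i j * x) → ∃ b, ι b = x)
    (f : A ≃⋆ₐ[ℂ] A) (hf : ∀ i j, f (e i j) = e i j) :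
    ∃ f' : B ≃⋆ₐ[ℂ] B, ∀ b, ι (f' b) = f (ι b) := by
  have hf' : ∀ i j, f.symm (e i j) = e i j := by
    intro i j
    rw [← hf i j, StarAlgEquiv.symm_apply_apply, hf]
  have h1 : ∀ b : B, ∃ b', ι b' = f (ι b) := by
    intro b
    refine hr _ fun i j => ?_
    conv_lhs => rw [← hf i j]
    conv_rhs => rw [← hf i j]
    rw [← map_mul, ← map_mul, hc]
  have h2 : ∀ b : B, ∃ b', ι b' = f.symm (ι b) := by
    intro b
    refine hr _ fun i j => ?_
    conv_lhs => rw [← hf' i j]
    conv_rhs => rw [← hf' i j]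
    rw [← map_mul, ← map_mul, hc]
  choose F hF using h1
  choose G hG using h2
  let φ : B →⋆ₐ[ℂ] B :=
    { toFun := F
      map_one' := by apply hι; rw [hF, map_one, map_one]
      map_mul' := by intro x y; apply hι; rw [hF, map_mul, map_mul, map_mul, hF, hF]
      map_zero' := by apply hι; rw [hF, map_zero, map_zero]
      map_add' := by intro x y; apply hι; rw [hF, map_add, map_add, map_add, hF, hF]
      commutes' := by
        intro r; apply hι; rw [hF]
        have := ι.toAlgHom.commutes r
        have h3 : ι (algebraMap ℂ B r) = algebraMap ℂ A r := this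
        rw [h3, Algebra.algebraMap_eq_smul_one, map_smul, map_one]
      map_star' := by intro x; apply hι; rw [hF, map_star, map_star, map_star, hF] }
  have hφ : Function.Bijective φ := by
    constructor
    · intro x y hxy
      have : F x = F y := hxy
      have h3 := congrArg ι this
      rw [hF, hF] at h3
      exact hι (f.injective h3)
    · intro y
      refine ⟨G y, ?_⟩
      show F (G y) = y
      apply hι
      rw [hF, hG, StarAlgEquiv.apply_symm_apply]
  exact ⟨StarAlgEquiv.ofBijective φ hφ, fun b => hF b⟩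

/-- Step 5: if `(c.aut, c.cocycle)` fixes matrix units `e`, and every cocycle action of the
subgroup on the relative commutant of `e` untwists, then there is `s`. -/
theorem exists_splitting {Γ : Type v} [Group Γ] (Λ : Subgroup Γ) (c : CocycleAction Γ A)
    (hfix : ∀ g q r, c.aut g (e q r) = e q r) (ι : B →⋆ₐ[ℂ] A)
    (hι : Function.Injective ι) (hc : ∀ b i j, ι b * e i j = e i j * ι b)
    (hr : ∀ x : A, (∀ i j, x * e i j = e i j * x) → ∃ b, ι b = x)
    (hB : ∀ cB : CocycleAction Λ B, Untwists cB) :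
    ∃ s : Λ → unitary A, (∀ x q r, (s x : A) * e q r = e q r * (s x : A)) ∧
      ∀ x y : Λ, (s x : A) * c.aut x (s y : A) * (c.cocycle x y : A) = (s (x * y) : A) := by
  have h1 : ∀ g : Γ, ∃ f' : B ≃⋆ₐ[ℂ] B, ∀ b, ι (f' b) = c.aut g (ι b) :=
    fun g => exists_restrict ι hι hc hr (c.aut g) (hfix g)
  choose F hF using h1
  have hKu : ∀ g h i j, (c.cocycle g h : A) * e i j = e i j * (c.cocycle g h : A) := by
    intro g h q r
    have := c.aut_aut g h (e q r)
    rw [hfix, hfix, hfix] at this
    have h3 : (star (c.cocycle g h : A)) * (c.cocycle g h : A) = 1 := Unitary.coe_star_mul_self _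
    calc (c.cocycle g h : A) * e q r = (c.cocycle g h : A) * e q r * (star (c.cocycle g h : A) *
          (c.cocycle g h : A)) := by rw [h3, mul_one]
      _ = (c.cocycle g h : A) * e q r * star (c.cocycle g h : A) * (c.cocycle g h : A) := by
          rw [← mul_assoc]
      _ = e q r * (c.cocycle g h : A) := by rw [← this]
  have h2 : ∀ g h, ∃ b : B, ι b = (c.cocycle g h : A) := fun g h => hr _ (hKu g h)
  choose U hU using h2
  have hUu : ∀ g h, U g h ∈ unitary B := by
    intro g h
    rw [Unitary.mem_iff]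
    constructor
    · apply hι
      rw [map_mul, map_star, hU, Unitary.star_mul_self_of_mem (c.cocycle g h).2, map_one]
    · apply hι
      rw [map_mul, map_star, hU, Unitary.mul_star_self_of_mem (c.cocycle g h).2, map_one]
  let cB : CocycleAction Λ B :=
    { aut := fun x => F x
      cocycle := fun x y => ⟨U x y, hUu x y⟩
      aut_rel := by
        intro g h x
        apply hι
        show ι (F g (F h x)) = ι (U g h * F ((g * h : Λ) : Γ) x * star (U g h))
        rw [hF, hF, map_mul, map_mul, map_star, hF, hU, c.aut_aut]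
        rfl
      cocycle_rel := by
        intro g h k
        apply hι
        show ι (U g h * U ((g * h : Λ) : Γ) k) = ι (F g (U h k) * U g ((h * k : Λ) : Γ))
        rw [map_mul, map_mul, hF, hU, hU, hU, hU]
        exact c.cocycle_mul g h k
      cocycle_right_one := by
        intro g
        apply hι
        show ι (U g ((1 : Λ) : Γ)) = ι 1
        rw [hU, map_one]
        exact c.cocycle_right_one g
      cocycle_left_one := by
        intro g
        apply hι
        show ι (U ((1 : Λ) : Γ) g) = ι 1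
        rw [hU, map_one]
        exact c.cocycle_left_one g }
  obtain ⟨w, hw⟩ := hB cB
  refine ⟨fun x => ⟨ι (w x), ?_⟩, fun x q r => hc _ _ _, fun x y => ?_⟩
  · rw [Unitary.mem_iff, ← map_star, ← map_mul, ← map_mul,
      Unitary.star_mul_self_of_mem (w x).2, Unitary.mul_star_self_of_mem (w x).2, map_one]
    exact ⟨rfl, rfl⟩
  · have h3 := hw x y
    have h4 : (w x : B) * F x (w y : B) * U x y = (w (x * y) : B) := by
      have h5 : (w x : B) * F x (w y : B) * U x y * star (w (x * y) : B) = 1 := h3
      calc (w x : B) * F x (w y : B) * U x y = (w x : B) * F x (w y : B) * U x y *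
            (star (w (x * y) : B) * (w (x * y) : B)) := by
            rw [Unitary.star_mul_self_of_mem (w (x * y)).2, mul_one]
        _ = (w x : B) * F x (w y : B) * U x y * star (w (x * y) : B) * (w (x * y) : B) := by
            rw [← mul_assoc]
        _ = (w (x * y) : B) := by rw [h5, one_mul]
    have h6 := congrArg ι h4
    rw [map_mul, map_mul, hF, hU] at h6
    exact h6

end Restrict

/-! ## Preparations for the comparison theory -/

/-- An ordering principle: if increasing sequences have upper bounds and `φ` is monotone and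
bounded above, then some `x` has `φ y = φ x` for all `y` above `x`. -/
theorem ordering_principle {X : Type*} (R : X → X → Prop) (hrefl : ∀ x, R x x)
    (htrans : ∀ x y z, R x y → R y z → R x z) (φ : X → ℝ) (hmono : ∀ x y, R x y → φ x ≤ φ y)
    (C : ℝ) (hC : ∀ x, φ x ≤ C) (x₀ : X)
    (hub : ∀ s : ℕ → X, (∀ n m, n ≤ m → R (s n) (s m)) → ∃ x, ∀ n, R (s n) x) :
    ∃ x, R x₀ x ∧ ∀ y, R x y → φ y = φ x := by
  have hstep : ∀ x, ∃ x', R x x' ∧ ∀ y, R x y → φ y + φ x ≤ 2 * φ x' := by
    intro x
    let S : Set ℝ := {r | ∃ y, R x y ∧ φ y = r}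
    have hne : S.Nonempty := ⟨φ x, x, hrefl x, rfl⟩
    have hbdd : BddAbove S := ⟨C, by rintro r ⟨y, _, rfl⟩; exact hC y⟩
    have hxS : φ x ≤ sSup S := le_csSup hbdd ⟨x, hrefl x, rfl⟩
    have hex : ∃ x', R x x' ∧ sSup S + φ x ≤ 2 * φ x' := by
      rcases eq_or_lt_of_le hxS with h | h
      · exact ⟨x, hrefl x, by rw [← h]; linarith⟩
      · obtain ⟨r, ⟨y, hy, rfl⟩, hr⟩ := exists_lt_of_lt_csSup hne
          (show (sSup S + φ x) / 2 < sSup S by linarith)
        exact ⟨y, hy, by linarith⟩
    obtain ⟨x', hx', h'⟩ := hex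
    refine ⟨x', hx', fun y hy => ?_⟩
    have : φ y ≤ sSup S := le_csSup hbdd ⟨y, hy, rfl⟩
    linarith
  choose f hf1 hf2 using hstep
  let s : ℕ → X := fun n => Nat.rec x₀ (fun _ x => f x) n
  have hs : ∀ n, s (n + 1) = f (s n) := fun n => rfl
  have hR : ∀ n m, n ≤ m → R (s n) (s m) := by
    intro n m h
    induction h with
    | refl => exact hrefl _
    | step _ ih => exact htrans _ _ _ ih (hf1 _)
  obtain ⟨x, hx⟩ := hub s hR
  refine ⟨x, hx 0, fun y hy => le_antisymm ?_ (hmono _ _ hy)⟩
  have hmon : Monotone (fun n => φ (s n)) := fun n m h => hmono _ _ (hR n m h)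
  have hbd : BddAbove (Set.range (fun n => φ (s n))) := ⟨C, by rintro r ⟨n, rfl⟩; exact hC _⟩
  have hlim := tendsto_atTop_ciSup hmon hbd
  set L := ⨆ n, φ (s n)
  have hLx : L ≤ φ x := ciSup_le fun n => hmono _ _ (hx n)
  have hlim1 : Tendsto (fun n => φ (s (n + 1))) atTop (𝓝 L) := hlim.comp (tendsto_add_atTop_nat 1)
  have h1 : φ y + L ≤ 2 * L := by
    refine le_of_tendsto_of_tendsto' (hlim.const_add (φ y)) (hlim1.const_mul 2) fun n => ?_
    rw [hs]
    exact hf2 _ y (htrans _ _ _ (hx n) hy)
  linarith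

section Lim

variable {H : Type*} [NormedAddCommGroup H] [InnerProductSpace ℂ H] [CompleteSpace H]

/-- Strong convergence. -/
def SLim (V : ℕ → H →L[ℂ] H) (W : H →L[ℂ] H) : Prop :=
  ∀ ξ, Tendsto (fun n => V n ξ) atTop (𝓝 (W ξ))

theorem SLim.unique {V : ℕ → H →L[ℂ] H} {W W' : H →L[ℂ] H} (h : SLim V W) (h' : SLim V W') :
    W = W' := by
  ext ξ
  exact tendsto_nhds_unique (h ξ) (h' ξ)

theorem SLim.const_mul {V : ℕ → H →L[ℂ] H} {W : H →L[ℂ] H} (h : SLim V W) (c : H →L[ℂ] H) :
    SLim (fun n => c * V n) (c * W) :=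
  fun ξ => (c.continuous.tendsto _).comp (h ξ)

theorem SLim.mul_const {V : ℕ → H →L[ℂ] H} {W : H →L[ℂ] H} (h : SLim V W) (c : H →L[ℂ] H) :
    SLim (fun n => V n * c) (W * c) :=
  fun ξ => h (c ξ)

theorem SLim.const (c : H →L[ℂ] H) : SLim (fun _ => c) c := fun _ => tendsto_const_nhds

theorem SLim.of_eventually {V : ℕ → H →L[ℂ] H} {W : H →L[ℂ] H} (n : ℕ)
    (h : ∀ m, n ≤ m → V m = W) : SLim V W := by
  intro ξ
  refine tendsto_const_nhds.congr' ?_
  filter_upwards [eventually_ge_atTop n] with m hm
  rw [h m hm]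

theorem SLim.mul {V V' : ℕ → H →L[ℂ] H} {W W' : H →L[ℂ] H} (h : SLim V W) (h' : SLim V' W')
    (hb : ∀ n, ‖V n‖ ≤ 1) : SLim (fun n => V n * V' n) (W * W') := by
  intro ξ
  have h1 : Tendsto (fun n => V n (V' n ξ - W' ξ)) atTop (𝓝 0) := by
    have h2 : Tendsto (fun n => V' n ξ - W' ξ) atTop (𝓝 0) := by
      have := (h' ξ).sub_const (W' ξ)
      rwa [sub_self] at this
    refine squeeze_zero_norm (fun n => ?_) (tendsto_zero_iff_norm_tendsto_zero.1 h2)
    calc ‖V n (V' n ξ - W' ξ)‖ ≤ ‖V n‖ * ‖V' n ξ - W' ξ‖ := (V n).le_opNorm _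
      _ ≤ 1 * ‖V' n ξ - W' ξ‖ := by gcongr; exact hb n
      _ = ‖V' n ξ - W' ξ‖ := one_mul _
  have h3 := h1.add (h (W' ξ))
  rw [zero_add] at h3
  refine h3.congr fun n => ?_
  rw [map_sub, sub_add_cancel]
  rfl

theorem SLim.star_eq {V : ℕ → H →L[ℂ] H} {W W' : H →L[ℂ] H} (h : SLim V W)
    (h' : SLim (fun n => star (V n)) W') : W' = star W := by
  ext ξ
  refine ext_inner_right ℂ fun η => ?_
  have h1 : Tendsto (fun n => ⟪star (V n) ξ, η⟫_ℂ) atTop (𝓝 ⟪W' ξ, η⟫_ℂ) :=
    (h' ξ).inner tendsto_const_nhds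
  have h2 : Tendsto (fun n => ⟪ξ, V n η⟫_ℂ) atTop (𝓝 ⟪ξ, W η⟫_ℂ) :=
    tendsto_const_nhds.inner (h η)
  have h3 : ∀ n, ⟪star (V n) ξ, η⟫_ℂ = ⟪ξ, V n η⟫_ℂ := by
    intro n
    rw [ContinuousLinearMap.star_eq_adjoint, ContinuousLinearMap.adjoint_inner_left]
  have h4 : ⟪star W ξ, η⟫_ℂ = ⟪ξ, W η⟫_ℂ := by
    rw [ContinuousLinearMap.star_eq_adjoint, ContinuousLinearMap.adjoint_inner_left]
  rw [h4]
  exact tendsto_nhds_unique h1 (h2.congr fun n => (h3 n).symm)

/-- Sequences `V` of contractions with `star (V n) * V m = star (V n) * V n` for `n ≤ m`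
converge strongly. -/
theorem exists_SLim {V : ℕ → H →L[ℂ] H} (hb : ∀ n, ‖V n‖ ≤ 1)
    (hM : ∀ n m, n ≤ m → star (V n) * V m = star (V n) * V n) : ∃ W, SLim V W := by
  have key : ∀ ξ n m, n ≤ m → ‖V m ξ - V n ξ‖ ^ 2 = ‖V m ξ‖ ^ 2 - ‖V n ξ‖ ^ 2 := by
    intro ξ n m hnm
    have h1 : ⟪V n ξ, V m ξ⟫_ℂ = ⟪V n ξ, V n ξ⟫_ℂ := by
      have e1 : ⟪V n ξ, V m ξ⟫_ℂ = ⟪ξ, (star (V n) * V m) ξ⟫_ℂ := by
        rw [ContinuousLinearMap.star_eq_adjoint]
        exact (ContinuousLinearMap.adjoint_inner_right (V n) ξ (V m ξ)).symm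
      have e2 : ⟪V n ξ, V n ξ⟫_ℂ = ⟪ξ, (star (V n) * V n) ξ⟫_ℂ := by
        rw [ContinuousLinearMap.star_eq_adjoint]
        exact (ContinuousLinearMap.adjoint_inner_right (V n) ξ (V n ξ)).symm
      rw [e1, e2, hM n m hnm]
    have h2 : RCLike.re ⟪V m ξ, V n ξ⟫_ℂ = ‖V n ξ‖ ^ 2 := by
      rw [← inner_conj_symm, h1, inner_self_eq_norm_sq_to_K]
      simp [← Complex.ofReal_pow]
    rw [norm_sub_sq (𝕜 := ℂ), h2]
    ring
  have hmono : ∀ ξ, Monotone (fun n => ‖V n ξ‖ ^ 2) := by
    intro ξ n m h
    have := key ξ n m h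
    have h0 : 0 ≤ ‖V m ξ - V n ξ‖ ^ 2 := by positivity
    show ‖V n ξ‖ ^ 2 ≤ ‖V m ξ‖ ^ 2
    linarith
  have hcauchy : ∀ ξ, CauchySeq (fun n => V n ξ) := by
    intro ξ
    have hbd : BddAbove (Set.range (fun n => ‖V n ξ‖ ^ 2)) := by
      refine ⟨‖ξ‖ ^ 2, ?_⟩
      rintro r ⟨n, rfl⟩
      have : ‖V n ξ‖ ≤ ‖ξ‖ := by
        calc ‖V n ξ‖ ≤ ‖V n‖ * ‖ξ‖ := (V n).le_opNorm _
          _ ≤ 1 * ‖ξ‖ := by gcongr; exact hb n
          _ = ‖ξ‖ := one_mul _
      show ‖V n ξ‖ ^ 2 ≤ ‖ξ‖ ^ 2
      gcongr
    have hl := tendsto_atTop_ciSup (hmono ξ) hbd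
    have hc := hl.cauchySeq
    rw [Metric.cauchySeq_iff'] at hc ⊢
    intro ε hε
    obtain ⟨N, hN⟩ := hc (ε ^ 2) (by positivity)
    refine ⟨N, fun n hn => ?_⟩
    have h1 := hN n hn
    rw [Real.dist_eq] at h1
    have h2 := key ξ N n hn
    have h3 : ‖V n ξ - V N ξ‖ ^ 2 < ε ^ 2 := by
      rw [h2]; exact lt_of_le_of_lt (le_abs_self _) h1
    rw [dist_eq_norm]
    exact lt_of_pow_lt_pow_left₀ 2 hε.le h3
  have hlim : ∀ ξ, ∃ y, Tendsto (fun n => V n ξ) atTop (𝓝 y) :=
    fun ξ => cauchySeq_tendsto_of_complete (hcauchy ξ)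
  choose f hf using hlim
  have hpi : Tendsto (fun n x => V n x) atTop (𝓝 f) := tendsto_pi_nhds.2 hf
  exact ⟨continuousLinearMapOfTendsto V hpi, fun ξ => hf ξ⟩

theorem SLim.mem {N : VonNeumannAlgebra H} {V : ℕ → H →L[ℂ] H} {W : H →L[ℂ] H}
    (h : SLim V W) (hV : ∀ n, V n ∈ N) : W ∈ N := by
  rw [← VonNeumannAlgebra.commutant_commutant N, VonNeumannAlgebra.mem_commutant_iff]
  intro g hg
  rw [VonNeumannAlgebra.mem_commutant_iff] at hg
  refine (h.const_mul g).unique ?_
  have : (fun n => g * V n) = fun n => V n * g := by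
    funext n
    exact (hg _ (hV n)).symm
  rw [this]
  exact h.mul_const g

end Lim

section Pol

variable {H : Type*} [NormedAddCommGroup H] [InnerProductSpace ℂ H] [CompleteSpace H]

/-- The orthogonal projection onto the closure of `S`. -/
noncomputable def closProj (S : Submodule ℂ H) : H →L[ℂ] H :=
  haveI : CompleteSpace S.topologicalClosure := Submodule.topologicalClosure.completeSpace S
  S.topologicalClosure.starProjection

theorem closProj_proj (S : Submodule ℂ H) : IsStarProjection (closProj S) :=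
  isStarProjection_starProjection

theorem closProj_apply (S : Submodule ℂ H) {x : H} (hx : x ∈ S) : closProj S x = x :=
  have : CompleteSpace S.topologicalClosure := Submodule.topologicalClosure.completeSpace S
  Submodule.starProjection_eq_self_iff.2 (S.le_topologicalClosure hx)

theorem closProj_mul_eq_zero (S : Submodule ℂ H) (T : H →L[ℂ] H) (h : ∀ x ∈ S, T x = 0) :
    T * closProj S = 0 := by
  have : CompleteSpace S.topologicalClosure := Submodule.topologicalClosure.completeSpace S
  ext ξ
  show T (closProj S ξ) = 0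
  have hmem : closProj S ξ ∈ S.topologicalClosure :=
    Submodule.starProjection_apply_mem _ _
  have hcl : IsClosed {x : H | T x = 0} := isClosed_eq T.continuous continuous_const
  have hsub : (S : Set H) ⊆ {x : H | T x = 0} := fun x hx => h x hx
  have := closure_minimal hsub hcl
  exact this hmem

theorem closProj_mem (N : VonNeumannAlgebra H) (S : Submodule ℂ H)
    (h : ∀ y ∈ N.commutant, ∀ x ∈ S, y x ∈ S) : closProj S ∈ N := by
  have : CompleteSpace S.topologicalClosure := Submodule.topologicalClosure.completeSpace S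
  rw [VonNeumannAlgebra.IsStarProjection.mem_iff (closProj_proj S) N]
  intro y hy
  have hr : (closProj S).range = S.topologicalClosure := Submodule.range_starProjection _
  rw [hr, Module.End.mem_invtSubmodule_iff_forall_mem_of_mem]
  intro x hx
  exact map_mem_closure y.continuous hx (fun x hx => h y hy x hx)

/-- In a factor, `q y p ≠ 0` for some `y`. -/
theorem exists_mul_mul_ne_zero (N : VonNeumannAlgebra H)
    (hN : ∀ z ∈ N, (∀ x ∈ N, z * x = x * z) → ∃ c : ℂ, z = c • (1 : H →L[ℂ] H))
    {p q : H →L[ℂ] H} (hp : p ∈ N) (hp0 : p ≠ 0) (hq0 : q ≠ 0) :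
    ∃ y ∈ N, q * y * p ≠ 0 := by
  by_contra hcon
  push Not at hcon
  let S : Submodule ℂ H := Submodule.span ℂ {η | ∃ y ∈ N, ∃ ξ, η = y (p ξ)}
  have hinv : ∀ T : H →L[ℂ] H, (∀ y ∈ N, ∀ ξ, T (y (p ξ)) ∈ S) → ∀ x ∈ S, T x ∈ S := by
    intro T hT x hx
    induction hx using Submodule.span_induction with
    | mem x hx => obtain ⟨y, hy, ξ, rfl⟩ := hx; exact hT y hy ξ
    | zero => rw [map_zero]; exact S.zero_mem
    | add x y _ _ hx hy => rw [map_add]; exact S.add_mem hx hy
    | smul c x _ hx => rw [map_smul]; exact S.smul_mem c hx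
  have h1 : closProj S ∈ N := by
    refine closProj_mem N S fun g hg => hinv g fun y hy ξ => ?_
    rw [VonNeumannAlgebra.mem_commutant_iff] at hg
    have e1 : g (y (p ξ)) = y (p (g ξ)) := by
      have e2 : y * p * g = g * (y * p) := hg _ (mul_mem hy hp)
      have := congrArg (fun T : H →L[ℂ] H => T ξ) e2
      exact this.symm
    rw [e1]
    exact Submodule.subset_span ⟨y, hy, g ξ, rfl⟩
  have h2 : closProj S ∈ N.commutant := by
    refine closProj_mem N.commutant S fun g hg => hinv g fun y hy ξ => ?_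
    rw [VonNeumannAlgebra.commutant_commutant] at hg
    exact Submodule.subset_span ⟨g * y, mul_mem hg hy, ξ, rfl⟩
  rw [VonNeumannAlgebra.mem_commutant_iff] at h2
  obtain ⟨c, hc⟩ := hN _ h1 (fun x hx => (h2 x hx).symm)
  obtain ⟨ξ, hξ⟩ : ∃ ξ, p ξ ≠ 0 := by
    by_contra h
    push Not at h
    exact hp0 (ContinuousLinearMap.ext h)
  have h3 : closProj S (p ξ) = p ξ :=
    closProj_apply S (Submodule.subset_span ⟨1, one_mem N, ξ, rfl⟩)
  rw [hc] at h3
  have h4 : c • p ξ = p ξ := h3
  have h5 : c = 1 := by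
    have : (c - 1) • p ξ = 0 := by rw [sub_smul, h4, one_smul, sub_self]
    rcases smul_eq_zero.1 this with h | h
    · exact sub_eq_zero.1 h
    · exact absurd h hξ
  have h6 : q * closProj S = 0 := by
    apply closProj_mul_eq_zero
    intro x hx
    have : ∀ x ∈ S, q x ∈ (⊥ : Submodule ℂ H) := by
      intro x hx
      induction hx using Submodule.span_induction with
      | mem x hx =>
        obtain ⟨y, hy, ξ, rfl⟩ := hx
        have := congrArg (fun T : H →L[ℂ] H => T ξ) (hcon y hy)
        exact this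
      | zero => rw [map_zero]; exact Submodule.zero_mem _
      | add x y _ _ hx hy => rw [map_add]; exact Submodule.add_mem _ hx hy
      | smul c x _ hx => rw [map_smul]; exact Submodule.smul_mem _ c hx
    exact this x hx
  rw [hc, h5, one_smul, mul_one] at h6
  exact hq0 h6

/-- A nonzero `z` in `N` gives a nonzero partial isometry `v = z * b` in `N`. -/
theorem exists_partialIsometry (N : VonNeumannAlgebra H) {z : H →L[ℂ] H} (hz : z ∈ N)
    (hz0 : z ≠ 0) : ∃ v ∈ N, v ≠ 0 ∧ v * star v * v = v ∧ (∃ b, v = z * b) ∧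
      ∀ p : H →L[ℂ] H, star p = p → z * p = z → v * p = v := by
  have : Nontrivial (H →L[ℂ] H) := ⟨⟨z, 0, hz0⟩⟩
  set a : H →L[ℂ] H := star z * z with ha
  have ha0 : 0 ≤ a := star_mul_self_nonneg z
  have hsa : IsSelfAdjoint a := IsSelfAdjoint.star_mul_self z
  have hane : a ≠ 0 := by
    intro h
    exact hz0 (CStarRing.star_mul_self_eq_zero_iff z |>.1 h)
  have hnorm : 0 < ‖a‖ := norm_pos_iff.2 hane
  set ε : ℝ := ‖a‖ / 2 with hε
  have hεpos : 0 < ε := by positivity
  let kf : ℝ → ℝ := fun t => max (t - ε) 0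
  let gf : ℝ → ℝ := fun t => (Real.sqrt (max t ε))⁻¹
  let mf : ℝ → ℝ := fun t => max (t - ε) 0 / max t ε
  have hmax : ∀ t : ℝ, 0 < max t ε := fun t => lt_of_lt_of_le hεpos (le_max_right _ _)
  have hkc : Continuous kf := by fun_prop
  have hgc : Continuous gf := by
    refine Continuous.inv₀ (by fun_prop) fun t => ?_
    exact (Real.sqrt_pos.2 (hmax t)).ne'
  have hmc : Continuous mf := by
    refine Continuous.div (by fun_prop) (by fun_prop) fun t => (hmax t).ne'
  set K := cfc kf a with hK
  set G := cfc gf a with hG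
  set M := cfc mf a with hM
  have haid : cfc (id : ℝ → ℝ) a = a := cfc_id ℝ a
  have hKM : K = M * a := by
    have e1 : kf = fun t => mf t * id t := by
      funext t
      show max (t - ε) 0 = max (t - ε) 0 / max t ε * t
      rcases le_total t ε with h | h
      · rw [max_eq_right (by linarith : t - ε ≤ 0)]; simp
      · rw [max_eq_left h]
        have : t ≠ 0 := by linarith
        field_simp
    rw [hK, e1, cfc_mul mf id a hmc.continuousOn continuous_id.continuousOn, haid]
  have hKM' : K = a * M := by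
    rw [hKM]
    have := (cfc_commute_cfc mf id a)
    rw [haid] at this
    exact this
  -- `H := G * a * G`
  have hGK : G * a * G * K = K := by
    have e1 : kf = fun t => gf t * id t * gf t * kf t := by
      funext t
      show max (t - ε) 0 = (Real.sqrt (max t ε))⁻¹ * t * (Real.sqrt (max t ε))⁻¹ * max (t - ε) 0
      rcases le_total t ε with h | h
      · rw [max_eq_right (by linarith : t - ε ≤ 0)]; simp
      · rw [max_eq_left h]
        have h0 : 0 < t := by linarith
        have h1 : Real.sqrt t * Real.sqrt t = t := Real.mul_self_sqrt h0.le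
        have h2 : Real.sqrt t ≠ 0 := (Real.sqrt_pos.2 h0).ne'
        have : (Real.sqrt t)⁻¹ * t * (Real.sqrt t)⁻¹ = 1 := by
          conv_lhs => rw [← h1]
          rw [h1]
          field_simp
          nlinarith
        rw [this, one_mul]
    conv_rhs => rw [hK, e1]
    rw [cfc_mul (fun t => gf t * id t * gf t) kf a
      ((hgc.mul continuous_id).mul hgc).continuousOn hkc.continuousOn,
      cfc_mul (fun t => gf t * id t) gf a (hgc.mul continuous_id).continuousOn hgc.continuousOn,
      cfc_mul gf id a hgc.continuousOn continuous_id.continuousOn, haid]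
  have hGsa : star G = G := (cfc_predicate gf a : IsSelfAdjoint _).star_eq
  let S : Submodule ℂ H := LinearMap.range (K : H →ₗ[ℂ] H)
  set E := closProj S with hE
  have hEp : IsStarProjection E := closProj_proj S
  have hE1 : E * E = E := hEp.isIdempotentElem
  have hE2 : star E = E := hEp.isSelfAdjoint
  have hEK : E * K = K := by
    ext ξ
    exact closProj_apply S ⟨ξ, rfl⟩
  have hE3 : G * a * G * E = E := by
    have : (G * a * G - 1) * E = 0 := by
      apply closProj_mul_eq_zero
      rintro x ⟨ξ, rfl⟩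
      have h1 : (G * a * G - 1) * K = 0 := by rw [sub_mul, hGK, one_mul, sub_self]
      exact congrArg (fun T : H →L[ℂ] H => T ξ) h1
    rw [sub_mul, one_mul] at this
    exact sub_eq_zero.1 this
  have hcomm : ∀ y ∈ N.commutant, Commute a y := by
    intro y hy
    rw [VonNeumannAlgebra.mem_commutant_iff] at hy
    exact hy _ (mul_mem (star_mem hz) hz)
  have hGN : G ∈ N := by
    rw [← VonNeumannAlgebra.commutant_commutant N, VonNeumannAlgebra.mem_commutant_iff]
    intro y hy
    exact ((hcomm y hy).cfc_real gf).symm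
  have hEN : E ∈ N := by
    refine closProj_mem N S ?_
    rintro y hy x ⟨ξ, rfl⟩
    have h1 : K * y = y * K := (hcomm y hy).cfc_real kf
    have h2 := congrArg (fun T : H →L[ℂ] H => T ξ) h1
    exact ⟨y ξ, h2⟩
  have hKne : K ≠ 0 := by
    intro h
    have h1 := CStarAlgebra.norm_mem_spectrum_of_nonneg ha0
    have h2 := norm_apply_le_norm_cfc kf a h1 hkc.continuousOn hsa
    rw [← hK, h, norm_zero] at h2
    have h3 : kf ‖a‖ = ‖a‖ / 2 := by
      show max (‖a‖ - ‖a‖ / 2) 0 = ‖a‖ / 2
      rw [max_eq_left (by linarith)]; ring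
    rw [h3, Real.norm_eq_abs, abs_of_pos (by positivity)] at h2
    linarith
  have hEne : E ≠ 0 := by
    intro h
    rw [h, zero_mul] at hEK
    exact hKne hEK.symm
  have hvv : star (z * G * E) * (z * G * E) = E := by
    have : star (z * G * E) * (z * G * E) = E * (G * a * G * E) := by
      rw [star_mul, star_mul, hGsa, hE2, ha]; noncomm_ring
    rw [this, hE3, hE1]
  refine ⟨z * G * E, mul_mem (mul_mem hz hGN) hEN, ?_, ?_, ⟨G * E, by rw [mul_assoc]⟩, ?_⟩
  · intro h
    rw [h, mul_zero] at hvv
    exact hEne hvv.symm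
  · rw [mul_assoc, hvv, mul_assoc, hE1]
  · intro p hp hzp
    have h1 : a * p = a := by rw [ha, mul_assoc, hzp]
    have h2 : p * a = a := by
      have := congrArg star h1
      rwa [star_mul, hp, hsa.star_eq] at this
    have h3 : (p - 1) * E = 0 := by
      apply closProj_mul_eq_zero
      rintro x ⟨ξ, rfl⟩
      have h4 : (p - 1) * K = 0 := by
        rw [hKM', ← mul_assoc, sub_mul, h2, one_mul, sub_self, zero_mul]
      exact congrArg (fun T : H →L[ℂ] H => T ξ) h4
    have h5 : p * E = E := by
      rw [sub_mul, one_mul] at h3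
      exact sub_eq_zero.1 h3
    have h6 : E * p = E := by
      have := congrArg star h5
      rwa [star_mul, hp, hE2] at this
    rw [mul_assoc, h6]

end Pol

/-! ## Comparison of projections in a II₁ factor -/

section TraceFacts

variable {A : Type u} [Ring A] [StarRing A] [Algebra ℂ A] {τ : A →ₗ[ℂ] ℂ}

theorem IsFaithfulTracialState.proj_nonneg (hτ : IsFaithfulTracialState τ) {p : A}
    (hp : IsStarProjection p) : 0 ≤ τ p := by
  have h := hτ.nonneg p
  rwa [hp.isSelfAdjoint.star_eq, hp.isIdempotentElem.eq] at h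

theorem IsFaithfulTracialState.proj_eq_zero (hτ : IsFaithfulTracialState τ) {p : A}
    (hp : IsStarProjection p) (h : (τ p).re = 0) : p = 0 := by
  have h1 := hτ.proj_nonneg hp
  rw [Complex.le_def] at h1
  apply hτ.faithful
  rw [hp.isSelfAdjoint.star_eq, hp.isIdempotentElem.eq]
  apply Complex.ext
  · simpa using h
  · simpa using h1.2.symm

theorem proj_star_mul {p q : A} (hp : IsStarProjection p) (hq : IsStarProjection q)
    (h : q * p = p) : p * q = p := by
  have := congrArg star h
  rwa [star_mul, hp.isSelfAdjoint.star_eq, hq.isSelfAdjoint.star_eq] at this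

theorem proj_sub {p q : A} (hp : IsStarProjection p) (hq : IsStarProjection q)
    (h : q * p = p) : IsStarProjection (q - p) := by
  have h' := proj_star_mul hp hq h
  have h1 : p * p = p := hp.isIdempotentElem
  have h2 : q * q = q := hq.isIdempotentElem
  refine ⟨?_, ?_⟩
  · show (q - p) * (q - p) = q - p
    have : (q - p) * (q - p) = q * q - q * p - p * q + p * p := by noncomm_ring
    rw [this, h, h', h1, h2]; abel
  · show star (q - p) = q - p
    rw [star_sub, hp.isSelfAdjoint.star_eq, hq.isSelfAdjoint.star_eq]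

theorem IsFaithfulTracialState.proj_mono (hτ : IsFaithfulTracialState τ) {p q : A}
    (hp : IsStarProjection p) (hq : IsStarProjection q) (h : q * p = p) :
    (τ p).re ≤ (τ q).re := by
  have h1 := hτ.proj_nonneg (proj_sub hp hq h)
  rw [map_sub, Complex.le_def] at h1
  have := h1.1
  simp at this
  linarith

theorem IsFaithfulTracialState.proj_le_one (hτ : IsFaithfulTracialState τ) {p : A}
    (hp : IsStarProjection p) : (τ p).re ≤ 1 := by
  have := hτ.proj_mono hp (IsStarProjection.one A) (one_mul p)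
  rwa [hτ.map_one, Complex.one_re] at this

theorem proj_of_partialIsometry {v : A} (h : v * star v * v = v) :
    IsStarProjection (star v * v) ∧ IsStarProjection (v * star v) := by
  have h' : star v * v * star v = star v := by
    have := congrArg star h
    rwa [star_mul, star_mul, star_star, ← mul_assoc] at this
  refine ⟨⟨?_, ?_⟩, ⟨?_, ?_⟩⟩
  · show star v * v * (star v * v) = star v * v
    rw [← mul_assoc, h']
  · show star (star v * v) = star v * v
    rw [star_mul, star_star]
  · show v * star v * (v * star v) = v * star v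
    rw [← mul_assoc, h]
  · show star (v * star v) = v * star v
    rw [star_mul, star_star]

end TraceFacts

section Compare

variable {H : Type u} [NormedAddCommGroup H] [InnerProductSpace ℂ H] [CompleteSpace H]
variable {N : VonNeumannAlgebra H}

theorem Alg.val_injective : Function.Injective (Alg.val : Alg N → H →L[ℂ] H) :=
  Subtype.val_injective

theorem Alg.val_mul (x y : Alg N) : (x * y).val = x.val * y.val := rfl

theorem Alg.val_star (x : Alg N) : (star x).val = star x.val := rfl

theorem Alg.val_mem (x : Alg N) : x.val ∈ N := x.2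

/-- The element of `Alg N` given by an operator in `N`. -/
def Alg.mk (x : H →L[ℂ] H) (hx : x ∈ N) : Alg N := ⟨x, hx⟩

theorem Alg.val_mk (x : H →L[ℂ] H) (hx : x ∈ N) : (Alg.mk x hx).val = x := rfl

theorem Alg.val_ne_zero {x : Alg N} (h : x ≠ 0) : x.val ≠ 0 := fun h' =>
  h (Alg.val_injective h')

theorem norm_proj_le {e : H →L[ℂ] H} (he : IsStarProjection e) : ‖e‖ ≤ 1 := by
  have h1 : ‖e * star e‖ = ‖e‖ * ‖e‖ := CStarRing.norm_self_mul_star
  rw [he.isSelfAdjoint.star_eq, he.isIdempotentElem.eq] at h1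
  by_contra h
  push Not at h
  nlinarith [norm_nonneg e]

theorem norm_partialIsometry_le {v : H →L[ℂ] H} (h : v * star v * v = v) : ‖v‖ ≤ 1 := by
  have h1 : ‖star v * v‖ = ‖v‖ * ‖v‖ := CStarRing.norm_star_mul_self
  have h2 : IsStarProjection (star v * v) := by
    refine ⟨?_, ?_⟩
    · show star v * v * (star v * v) = star v * v
      rw [mul_assoc, ← mul_assoc v, h]
    · show star (star v * v) = star v * v
      rw [star_mul, star_star]
  have h3 := norm_proj_le h2
  rw [h1] at h3
  by_contra h'
  push Not at h'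
  nlinarith

/-- Partial isometries in `N` from `p` to `q`. -/
def PIso (p q : Alg N) : Type u := {v : Alg N // v * star v * v = v ∧ v * p = v ∧ q * v = v}

/-- `v'` extends `v`. -/
def PExt (v v' : Alg N) : Prop :=
  v' * (star v * v) = v ∧ (star v' * v') * (star v * v) = star v * v

theorem PExt.refl {v : Alg N} (h : v * star v * v = v) : PExt v v :=
  ⟨by rw [← mul_assoc, h], by rw [mul_assoc, ← mul_assoc v, h]⟩

theorem PExt.trans {v v' v'' : Alg N} (h : PExt v v') (h' : PExt v' v'') : PExt v v'' := by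
  refine ⟨?_, ?_⟩
  · conv_lhs => rw [← h.2]
    rw [← mul_assoc, h'.1, h.1]
  · conv_lhs => rw [← h.2]
    rw [← mul_assoc, h'.2, h.2]

theorem PExt.ext_star_mul {v v' : Alg N} (h : PExt v v') : star v * v' = star v * v := by
  have h1 := congrArg star h.2
  simp only [star_mul, star_star] at h1
  conv_lhs => rw [← h.1]
  rw [star_mul, star_mul, star_star, mul_assoc]
  exact h1

theorem PExt.ext_mul_star {v v' : Alg N} (hv : v * star v * v = v) (h : PExt v v') :
    v * star v' = v * star v := by
  have h1 := congrArg star h.1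
  rw [star_mul, star_mul, star_star] at h1
  calc v * star v' = v * star v * v * star v' := by rw [hv]
    _ = v * (star v * v * star v') := by noncomm_ring
    _ = v * star v := by rw [h1]

/-- An increasing sequence of partial isometries from `p` to `q` has an upper bound. -/
theorem exists_ub {p q : Alg N} (s : ℕ → PIso p q)
    (hs : ∀ n m, n ≤ m → PExt (s n).1 (s m).1) :
    ∃ x : PIso p q, (∀ n, PExt (s n).1 x.1) ∧
      SLim (fun n => (star (s n).1 * (s n).1).val) (star x.1 * x.1).val := by
  set V : ℕ → H →L[ℂ] H := fun n => (s n).1.val with hV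
  have hpi : ∀ n, V n * star (V n) * V n = V n := fun n =>
    congrArg Alg.val (s n).2.1
  have hnorm : ∀ n, ‖V n‖ ≤ 1 := fun n => norm_partialIsometry_le (hpi n)
  have hnorm' : ∀ n, ‖star (V n)‖ ≤ 1 := fun n => by rw [norm_star]; exact hnorm n
  obtain ⟨W, hW⟩ := exists_SLim hnorm (fun n m h => congrArg Alg.val (hs n m h).ext_star_mul)
  obtain ⟨W', hW'⟩ := exists_SLim (V := fun n => star (V n)) hnorm' (fun n m h => by
    rw [star_star]
    exact congrArg Alg.val ((hs n m h).ext_mul_star (s n).2.1))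
  have hWW' : W' = star W := hW.star_eq hW'
  subst hWW'
  have hWN : W ∈ N := hW.mem (fun n => (s n).1.2)
  have hA : SLim (fun n => star (V n) * V n) (star W * W) := hW'.mul hW hnorm'
  have hB : SLim (fun n => V n * star (V n)) (W * star W) := hW.mul hW' hnorm
  have hBn : ∀ n, ‖V n * star (V n)‖ ≤ 1 := fun n => by
    calc ‖V n * star (V n)‖ ≤ ‖V n‖ * ‖star (V n)‖ := norm_mul_le _ _
      _ ≤ 1 * 1 := by
        gcongr
        · exact hnorm n
        · exact hnorm' n
      _ = 1 := one_mul _
  have h1 : W * star W * W = W := by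
    refine (hB.mul hW hBn).unique ?_
    have : (fun n => V n * star (V n) * V n) = V := funext hpi
    rw [this]; exact hW
  have h2 : W * p.val = W := by
    refine (hW.mul_const p.val).unique ?_
    have : (fun n => V n * p.val) = V := funext fun n => congrArg Alg.val (s n).2.2.1
    rw [this]; exact hW
  have h3 : q.val * W = W := by
    refine (hW.const_mul q.val).unique ?_
    have : (fun n => q.val * V n) = V := funext fun n => congrArg Alg.val (s n).2.2.2
    rw [this]; exact hW
  have h4 : ∀ n, W * (star (V n) * V n) = V n := fun n => by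
    refine (hW.mul_const _).unique ?_
    exact SLim.of_eventually n fun m hm => congrArg Alg.val (hs n m hm).1
  have h5 : ∀ n, (star W * W) * (star (V n) * V n) = star (V n) * V n := fun n => by
    refine (hA.mul_const _).unique ?_
    exact SLim.of_eventually n fun m hm => congrArg Alg.val (hs n m hm).2
  refine ⟨⟨Alg.mk W hWN, ?_, ?_, ?_⟩, fun n => ⟨?_, ?_⟩, hA⟩
  · exact Alg.val_injective h1
  · exact Alg.val_injective h2
  · exact Alg.val_injective h3
  · exact Alg.val_injective (h4 n)
  · exact Alg.val_injective (h5 n)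

/-- In a factor there is a nonzero partial isometry from `p` to `q` if `p, q ≠ 0`. -/
theorem exists_pIso_ne_zero
    (hN : ∀ z : Alg N, (∀ x : Alg N, z * x = x * z) → ∃ c : ℂ, z = algebraMap ℂ (Alg N) c)
    {p q : Alg N} (hp : IsStarProjection p) (hp0 : p ≠ 0) (hq : IsStarProjection q)
    (hq0 : q ≠ 0) : ∃ v : PIso p q, v.1 ≠ 0 := by
  obtain ⟨y, hy, hz0⟩ := exists_mul_mul_ne_zero N (by
    intro z hz h
    obtain ⟨c, hc⟩ := hN (Alg.mk z hz) (fun x => Alg.val_injective (h x.val x.2))
    refine ⟨c, ?_⟩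
    have := congrArg Alg.val hc
    rw [Algebra.algebraMap_eq_smul_one] at this
    exact this) p.2 (Alg.val_ne_zero hp0) (Alg.val_ne_zero hq0)
  have hzN : q.val * y * p.val ∈ N := mul_mem (mul_mem q.2 hy) p.2
  obtain ⟨v, hv, hv0, hvv, ⟨b, hb⟩, hvp⟩ := exists_partialIsometry N hzN hz0
  refine ⟨⟨Alg.mk v hv, Alg.val_injective hvv, Alg.val_injective ?_, Alg.val_injective ?_⟩, ?_⟩
  · show v * p.val = v
    refine hvp p.val (congrArg Alg.val hp.isSelfAdjoint.star_eq) ?_
    rw [mul_assoc, show p.val * p.val = p.val from congrArg Alg.val hp.isIdempotentElem.eq]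
  · show q.val * v = v
    rw [hb, ← mul_assoc, ← mul_assoc, ← mul_assoc,
      show q.val * q.val = q.val from congrArg Alg.val hq.isIdempotentElem.eq]
  · intro h
    exact hv0 (congrArg Alg.val h)

end Compare

section Compare2

variable {H : Type u} [NormedAddCommGroup H] [InnerProductSpace ℂ H] [CompleteSpace H]
variable {N : VonNeumannAlgebra H} {τ : Alg N →ₗ[ℂ] ℂ}

/-- Projections with the same trace in a factor are equivalent. -/
theorem mvn_of_trace_eq
    (hN : ∀ z : Alg N, (∀ x : Alg N, z * x = x * z) → ∃ c : ℂ, z = algebraMap ℂ (Alg N) c)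
    (hτ : IsFaithfulTracialState τ) {p q : Alg N} (hp : IsStarProjection p)
    (hq : IsStarProjection q) (hpq : τ p = τ q) : MvN p q := by
  obtain ⟨v, -, hv⟩ := ordering_principle (X := PIso p q) (fun v v' => PExt v.1 v'.1)
    (fun v => PExt.refl v.2.1) (fun v v' v'' h h' => h.trans h')
    (fun v => (τ (star v.1 * v.1)).re)
    (fun v v' h => hτ.proj_mono (proj_of_partialIsometry v.2.1).1
      (proj_of_partialIsometry v'.2.1).1 h.2)
    1 (fun v => hτ.proj_le_one (proj_of_partialIsometry v.2.1).1)
    ⟨0, by simp, by simp, by simp⟩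
    (fun s hs => by
      obtain ⟨x, hx, -⟩ := exists_ub s hs
      exact ⟨x, hx⟩)
  obtain ⟨v, hv1, hv2, hv3⟩ := v
  simp only at hv
  have hsp : star p = p := hp.isSelfAdjoint
  have hsq : star q = q := hq.isSelfAdjoint
  obtain ⟨ha, hb⟩ := proj_of_partialIsometry hv1
  have haa : star v * v * (star v * v) = star v * v := ha.isIdempotentElem
  have hbb : v * star v * (v * star v) = v * star v := hb.isIdempotentElem
  have hpa : p * (star v * v) = star v * v := by
    have := congrArg star hv2
    rw [star_mul, hsp] at this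
    rw [← mul_assoc, this]
  have hqb : q * (v * star v) = v * star v := by rw [← mul_assoc, hv3]
  have hap : (star v * v) * p = star v * v := proj_star_mul ha hp hpa
  have hbq : (v * star v) * q = v * star v := proj_star_mul hb hq hqb
  have hp' := proj_sub ha hp hpa
  have hq' := proj_sub hb hq hqb
  have htr : (τ (p - star v * v)).re = (τ (q - v * star v)).re := by
    rw [map_sub, map_sub, hpq, hτ.comm]
  by_cases h0 : p - star v * v = 0
  · have h1 : q - v * star v = 0 := hτ.proj_eq_zero hq' (by rw [← htr, h0]; simp)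
    exact ⟨v, (sub_eq_zero.1 h0).symm, (sub_eq_zero.1 h1).symm⟩
  · exfalso
    have h1 : q - v * star v ≠ 0 := fun h => h0 (hτ.proj_eq_zero hp' (by rw [htr, h]; simp))
    obtain ⟨⟨w, hw1, hw2, hw3⟩, hw0⟩ := exists_pIso_ne_zero hN hp' h0 hq' h1
    simp only at hw0
    have hwp : w * p = w := by
      conv_lhs => rw [← hw2]
      rw [mul_assoc, sub_mul, hp.isIdempotentElem.eq, hap, hw2]
    have hqw : q * w = w := by
      conv_lhs => rw [← hw3]
      rw [← mul_assoc, mul_sub, hq.isIdempotentElem.eq, hqb, hw3]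
    have hwa : w * (star v * v) = 0 := by
      conv_lhs => rw [← hw2]
      rw [mul_assoc, sub_mul, hpa, haa, sub_self, mul_zero]
    have hbw : (v * star v) * w = 0 := by
      conv_lhs => rw [← hw3]
      rw [← mul_assoc, mul_sub, hbq, hbb, sub_self, zero_mul]
    have haw : (star v * v) * star w = 0 := by
      have := congrArg star hwa
      rwa [star_mul, star_mul, star_star, star_zero] at this
    have hvw : v * star w = 0 := by
      calc v * star w = v * star v * v * star w := by rw [hv1]
        _ = v * (star v * v * star w) := by noncomm_ring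
        _ = 0 := by rw [haw, mul_zero]
    have hwv : w * star v = 0 := by
      have := congrArg star hvw
      rwa [star_mul, star_star, star_zero] at this
    have hsv : star v * v * star v = star v := by
      have := congrArg star hv1
      rwa [star_mul, star_mul, star_star, ← mul_assoc] at this
    have hsvw : star v * w = 0 := by
      calc star v * w = star v * v * star v * w := by rw [hsv]
        _ = star v * (v * star v * w) := by noncomm_ring
        _ = 0 := by rw [hbw, mul_zero]
    have hswv : star w * v = 0 := by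
      have := congrArg star hsvw
      rwa [star_mul, star_star, star_zero] at this
    have e1 : star (v + w) * (v + w) = star v * v + star w * w := by
      rw [star_add, add_mul, mul_add, mul_add, hsvw, hswv, add_zero, zero_add]
    have e2 : (v + w) * star (v + w) = v * star v + w * star w := by
      rw [star_add, add_mul, mul_add, mul_add, hvw, hwv, add_zero, zero_add]
    have e3 : (v + w) * star (v + w) * (v + w) = v + w := by
      rw [e2, add_mul, mul_add, mul_add, hv1, hw1, hbw, mul_assoc w, hswv, mul_zero, add_zero,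
        zero_add]
    have hmax := hv ⟨v + w, e3, by rw [add_mul, hv2, hwp], by rw [mul_add, hv3, hqw]⟩ (by
      show PExt v (v + w)
      refine ⟨?_, ?_⟩
      · rw [add_mul, hwa, add_zero, ← mul_assoc, hv1]
      · rw [e1, add_mul, haa, mul_assoc (star w), hwa, mul_zero, add_zero])
    simp only [e1, map_add, Complex.add_re] at hmax
    have h2 : star w * w = 0 :=
      hτ.proj_eq_zero (proj_of_partialIsometry hw1).1 (by linarith)
    exact hw0 (hτ.faithful w (by rw [h2, map_zero]))

/-- Normal states are continuous along bounded strongly convergent sequences. -/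
theorem IsNormalState.tendsto (hn : IsNormalState τ) {V : ℕ → Alg N} {W : Alg N}
    (h : SLim (fun n => (V n).val) W.val) (hb : ∀ n, ‖(V n).val‖ ≤ 1) :
    Tendsto (fun n => τ (V n)) atTop (𝓝 (τ W)) := by
  obtain ⟨ξ, hξ, hsum⟩ := hn
  have h1 : ∀ x : Alg N, τ x = ∑' k, inner ℂ (ξ k) (x.val (ξ k)) := fun x => (hsum x).tsum_eq.symm
  rw [h1 W]
  simp only [h1]
  refine tendsto_tsum_of_dominated_convergence (bound := fun k => ‖ξ k‖ ^ 2) hξ ?_ ?_
  · intro k
    exact tendsto_const_nhds.inner (h (ξ k))
  · refine Eventually.of_forall fun n k => ?_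
    calc ‖inner ℂ (ξ k) ((V n).val (ξ k))‖ ≤ ‖ξ k‖ * ‖(V n).val (ξ k)‖ := norm_inner_le_norm _ _
      _ ≤ ‖ξ k‖ * (‖(V n).val‖ * ‖ξ k‖) := by
        gcongr
        exact (V n).val.le_opNorm _
      _ ≤ ‖ξ k‖ * (1 * ‖ξ k‖) := by
        gcongr
        exact hb n
      _ = ‖ξ k‖ ^ 2 := by ring

theorem exists_small
    (hd : ∀ p : Alg N, IsStarProjection p → p ≠ 0 →
      ∃ q : Alg N, IsStarProjection q ∧ q * p = q ∧ q ≠ 0 ∧ q ≠ p) (k : ℕ) :
    ∀ p : Alg N, IsStarProjection p → p ≠ 0 →
    ∃ r : Alg N, IsStarProjection r ∧ r * p = r ∧ r ≠ 0 ∧ (τ r).re ≤ (τ p).re / 2 ^ k := by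
  induction k with
  | zero =>
    intro p hp hp0
    exact ⟨p, hp, hp.isIdempotentElem, hp0, by simp⟩
  | succ k ih =>
    intro p hp hp0
    obtain ⟨q, hq, hqp, hq0, hqne⟩ := hd p hp hp0
    have hpq : p * q = q := by
      have := congrArg star hqp
      rwa [star_mul, hp.isSelfAdjoint.star_eq, hq.isSelfAdjoint.star_eq] at this
    have hsub := proj_sub hq hp hpq
    have hsum : (τ q).re + (τ (p - q)).re = (τ p).re := by
      rw [map_sub, Complex.sub_re]; ring
    have hhalf : ∃ r : Alg N, IsStarProjection r ∧ r * p = r ∧ r ≠ 0 ∧ (τ r).re ≤ (τ p).re / 2 := by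
      rcases le_total (τ q).re ((τ p).re / 2) with h | h
      · exact ⟨q, hq, hqp, hq0, h⟩
      · refine ⟨p - q, hsub, ?_, ?_, by linarith⟩
        · rw [sub_mul, hp.isIdempotentElem.eq, hqp]
        · intro h'
          exact hqne (sub_eq_zero.1 h').symm
    obtain ⟨r, hr, hrp, hr0, hrt⟩ := hhalf
    obtain ⟨s, hs, hsr, hs0, hst⟩ := ih r hr hr0
    refine ⟨s, hs, ?_, hs0, ?_⟩
    · rw [← hsr, mul_assoc, hrp]
    · refine hst.trans ?_
      calc (τ r).re / 2 ^ k ≤ ((τ p).re / 2) / 2 ^ k := by gcongr
        _ = (τ p).re / 2 ^ (k + 1) := by rw [pow_succ]; field_simp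

theorem exists_sub_of_trace (hτ : IsFaithfulTracialState τ) (hn : IsNormalState τ)
    (hd : ∀ p : Alg N, IsStarProjection p → p ≠ 0 →
      ∃ q : Alg N, IsStarProjection q ∧ q * p = q ∧ q ≠ 0 ∧ q ≠ p)
    (p : Alg N) (hp : IsStarProjection p) (t : ℝ) (ht : 0 ≤ t) (htp : (t : ℂ) ≤ τ p) :
    ∃ q : Alg N, IsStarProjection q ∧ q * p = q ∧ τ q = t := by
  have htp' : t ≤ (τ p).re := by
    rw [Complex.le_def] at htp
    simpa using htp.1
  have hsp : star p = p := hp.isSelfAdjoint
  obtain ⟨q, -, hq⟩ := ordering_principle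
    (X := {q : Alg N // IsStarProjection q ∧ q * p = q ∧ (τ q).re ≤ t})
    (fun q q' => q'.1 * q.1 = q.1) (fun q => q.2.1.isIdempotentElem)
    (fun q q' q'' h h' => by
      show q''.1 * q.1 = q.1
      rw [← h, ← mul_assoc, h'])
    (fun q => (τ q.1).re) (fun q q' h => hτ.proj_mono q.2.1 q'.2.1 h) t (fun q => q.2.2.2)
    ⟨0, IsStarProjection.zero _, zero_mul _, by simpa using ht⟩
    (fun s hs => by
      have hpr : ∀ n, star (s n).1 * (s n).1 = (s n).1 := fun n => by
        rw [(s n).2.1.isSelfAdjoint.star_eq, (s n).2.1.isIdempotentElem.eq]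
      have hpq : ∀ n, p * (s n).1 = (s n).1 := fun n => by
        have := congrArg star (s n).2.2.1
        rwa [star_mul, hsp, (s n).2.1.isSelfAdjoint.star_eq] at this
      obtain ⟨x, hx, hlim⟩ := exists_ub (N := N) (p := p) (q := p)
        (fun n => ⟨(s n).1, by
          rw [mul_assoc, hpr, (s n).2.1.isIdempotentElem.eq], (s n).2.2.1, hpq n⟩)
        (fun n m h => by
          refine ⟨?_, ?_⟩
          · show (s m).1 * (star (s n).1 * (s n).1) = (s n).1
            rw [hpr, hs n m h]
          · show (star (s m).1 * (s m).1) * (star (s n).1 * (s n).1) = star (s n).1 * (s n).1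
            rw [hpr, hpr, hs n m h])
      have he := (proj_of_partialIsometry x.2.1).1
      refine ⟨⟨star x.1 * x.1, he, by rw [mul_assoc, x.2.2.1], ?_⟩, fun n => ?_⟩
      · have h1 := hn.tendsto (V := fun n => star (s n).1 * (s n).1) hlim (fun n => by
          have h2 : IsStarProjection ((s n).1.val) := by
            refine ⟨?_, ?_⟩
            · exact congrArg Alg.val (s n).2.1.isIdempotentElem.eq
            · exact congrArg Alg.val (s n).2.1.isSelfAdjoint.star_eq
          show ‖(star (s n).1 * (s n).1).val‖ ≤ 1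
          rw [hpr]
          exact norm_proj_le h2)
        have h3 := (Complex.continuous_re.tendsto _).comp h1
        refine le_of_tendsto' h3 fun n => ?_
        show (τ (star (s n).1 * (s n).1)).re ≤ t
        rw [hpr]
        exact (s n).2.2.2
      · have h4 := (hx n).2
        show star x.1 * x.1 * (s n).1 = (s n).1
        have h5 : star x.1 * x.1 * (star (s n).1 * (s n).1) = star (s n).1 * (s n).1 := h4
        rwa [hpr] at h5)
  obtain ⟨q, hq1, hq2, hq3⟩ := q
  simp only at hq
  have hsq : star q = q := hq1.isSelfAdjoint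
  have hpq : p * q = q := by
    have := congrArg star hq2
    rwa [star_mul, hsp, hsq] at this
  refine ⟨q, hq1, hq2, ?_⟩
  have hre : (τ q).re = t := by
    by_contra hne
    have hlt : (τ q).re < t := lt_of_le_of_ne hq3 hne
    have hsub := proj_sub hq1 hp hpq
    have hsubne : p - q ≠ 0 := by
      intro h
      have : p = q := sub_eq_zero.1 h
      rw [this] at htp'
      linarith
    obtain ⟨k, hk⟩ : ∃ k : ℕ, (τ (p - q)).re / 2 ^ k ≤ t - (τ q).re := by
      obtain ⟨k, hk⟩ := pow_unbounded_of_one_lt ((τ (p - q)).re / (t - (τ q).re))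
        (one_lt_two : (1 : ℝ) < 2)
      refine ⟨k, ?_⟩
      have h1 : 0 < t - (τ q).re := by linarith
      rw [div_lt_iff₀ h1] at hk
      rw [div_le_iff₀ (by positivity)]
      linarith
    obtain ⟨r, hr, hrp, hr0, hrt⟩ := exists_small (τ := τ) hd k (p - q) hsub hsubne
    have hsr : star r = r := hr.isSelfAdjoint
    have hrq : r * q = 0 := by
      rw [← hrp, mul_assoc, sub_mul, hpq, hq1.isIdempotentElem.eq, sub_self, mul_zero]
    have hqr : q * r = 0 := by
      have := congrArg star hrq
      rwa [star_mul, hsr, hsq, star_zero] at this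
    have hrp' : r * p = r := by
      conv_lhs => rw [← hrp]
      rw [mul_assoc, sub_mul, hp.isIdempotentElem.eq, hq2, hrp]
    have hmax := hq ⟨q + r, ⟨?_, ?_⟩, ?_, ?_⟩ ?_
    · simp only [map_add, Complex.add_re] at hmax
      exact hr0 (hτ.proj_eq_zero hr (by linarith))
    · show (q + r) * (q + r) = q + r
      rw [add_mul, mul_add, mul_add, hqr, hrq, hq1.isIdempotentElem.eq, hr.isIdempotentElem.eq]
      abel
    · show star (q + r) = q + r
      rw [star_add, hsq, hsr]
    · rw [add_mul, hq2, hrp']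
    · rw [map_add, Complex.add_re]; linarith
    · show (q + r) * q = q
      rw [add_mul, hrq, hq1.isIdempotentElem.eq, add_zero]
  have him := hτ.proj_nonneg hq1
  rw [Complex.le_def] at him
  apply Complex.ext
  · simpa using hre
  · simpa using him.2.symm

theorem IsII1Factor.alg (hN : IsII1Factor N) : IsII1Alg (Alg N) := by
  obtain ⟨τ, hτ, hn⟩ := hN.trace
  exact ⟨hN.center, τ, hτ, fun p q hp hq h => mvn_of_trace_eq hN.center hτ hp hq h,
    exists_sub_of_trace hτ hn hN.diffuse⟩

end Compare2

/-! ## Relative commutants of matrix units are II₁ factors -/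

section Final

variable {H : Type u} [NormedAddCommGroup H] [InnerProductSpace ℂ H] [CompleteSpace H]

/-- The relative commutant in `N` of a family of elements. -/
noncomputable def relComm (N : VonNeumannAlgebra H) (X : Set (H →L[ℂ] H)) :
    VonNeumannAlgebra H where
  toStarSubalgebra := StarSubalgebra.centralizer ℂ ((N.commutant : Set (H →L[ℂ] H)) ∪ X)
  centralizer_centralizer' := by simp

theorem mem_relComm (N : VonNeumannAlgebra H) (X : Set (H →L[ℂ] H)) (hX : ∀ x ∈ X, star x ∈ X)
    (z : H →L[ℂ] H) :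
    z ∈ (relComm N X).toStarSubalgebra ↔ z ∈ N.toStarSubalgebra ∧ ∀ x ∈ X, z * x = x * z := by
  have h1 : z ∈ (relComm N X).toStarSubalgebra ↔
      ∀ g ∈ (N.commutant : Set (H →L[ℂ] H)) ∪ X, g * z = z * g ∧ star g * z = z * star g :=
    StarSubalgebra.mem_centralizer_iff ℂ
  have h2 : z ∈ N.toStarSubalgebra ↔ ∀ g ∈ N.commutant, g * z = z * g := by
    rw [← VonNeumannAlgebra.mem_commutant_iff, VonNeumannAlgebra.commutant_commutant]
    rfl
  rw [h1, h2]
  constructor
  · intro h
    exact ⟨fun g hg => (h g (Or.inl hg)).1, fun x hx => (h x (Or.inr hx)).1.symm⟩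
  · rintro ⟨h3, h4⟩ g (hg | hg)
    · exact ⟨h3 g hg, h3 _ (star_mem hg)⟩
    · exact ⟨(h4 g hg).symm, (h4 _ (hX g hg)).symm⟩

/-- The inclusion of von Neumann algebras `P ≤ N`. -/
noncomputable def incl {P N : VonNeumannAlgebra H}
    (h : P.toStarSubalgebra ≤ N.toStarSubalgebra) : Alg P →⋆ₐ[ℂ] Alg N :=
  StarSubalgebra.inclusion h

theorem incl_val {P N : VonNeumannAlgebra H}
    (h : P.toStarSubalgebra ≤ N.toStarSubalgebra) (x : Alg P) : (incl h x).val = x.val := rfl

theorem incl_injective {P N : VonNeumannAlgebra H}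
    (h : P.toStarSubalgebra ≤ N.toStarSubalgebra) : Function.Injective (incl h) :=
  StarSubalgebra.inclusion_injective h

theorem isII1Factor_relComm {P N : VonNeumannAlgebra H} (hN : IsII1Factor N)
    (h : P.toStarSubalgebra ≤ N.toStarSubalgebra) {I : Type*} [Fintype I] [Nonempty I]
    {e : I → I → Alg N} (he : IsMatrixUnits e)
    (hc : ∀ b i j, incl h b * e i j = e i j * incl h b)
    (hr : ∀ x : Alg N, (∀ i j, x * e i j = e i j * x) → ∃ b, incl h b = x) :
    IsII1Factor P := by
  have hP : IsII1Alg (Alg P) := hN.alg.relCommutant he (incl h) (incl_injective h) hc hr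
  refine ⟨hP.center, ?_, ?_⟩
  · obtain ⟨τ, hτ, ξ, hξ, hsum⟩ := hN.trace
    refine ⟨τ.comp (incl h).toAlgHom.toLinearMap, ⟨?_, ?_, ?_, ?_⟩, ξ, hξ, fun x => ?_⟩
    · show τ (incl h 1) = 1
      rw [map_one, hτ.map_one]
    · intro x
      show 0 ≤ τ (incl h (star x * x))
      rw [map_mul, map_star]
      exact hτ.nonneg _
    · intro x hx
      apply incl_injective h
      rw [map_zero]
      apply hτ.faithful
      rw [← map_star, ← map_mul]
      exact hx
    · intro x y
      show τ (incl h (x * y)) = τ (incl h (y * x))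
      rw [map_mul (incl h), map_mul (incl h), hτ.comm]
    · exact hsum (incl h x)
  · intro p hp hp0
    obtain ⟨τ, hτ, hd⟩ := hP.trace
    have h1 := hτ.proj_nonneg hp
    rw [Complex.le_def] at h1
    have h2 : 0 ≤ (τ p).re := h1.1
    have h3 : (τ p).re ≠ 0 := fun h' => hp0 (hτ.proj_eq_zero hp h')
    have h4 : 0 < (τ p).re := lt_of_le_of_ne h2 (Ne.symm h3)
    obtain ⟨q, hq, hqp, hqt⟩ := hd.exists_sub p hp ((τ p).re / 2) (by linarith) (by
      rw [Complex.le_def]
      refine ⟨by simp; linarith, ?_⟩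
      simpa using h1.2)
    refine ⟨q, hq, hqp, ?_, ?_⟩
    · intro h'
      rw [h', map_zero] at hqt
      have := congrArg Complex.re hqt
      simp at this
      exact h3 (by linarith)
    · intro h'
      rw [h'] at hqt
      have := congrArg Complex.re hqt
      rw [Complex.ofReal_re] at this
      linarith

end Final

end Pool.Agent.Results.MP_07e70b_an.FiniteIndex
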